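import Mathlib

/-! Plancherel's theorem for functions in `L¹ ∩ L²` on the real line. -/

open MeasureTheory Set SchwartzMap
open scoped Real ENNReal ContDiff FourierTransform

namespace Pool.Agent.Worm.B2

/-- Fubini for the Fourier transform on the line. -/
theorem integral_fourier_mul {f g : ℝ → ℂ} (hf : Integrable f) (hg : Integrable g) :
    ∫ x, 𝓕 g x * f x = ∫ x, g x * 𝓕 f x := by
  have h := VectorFourier.integral_fourierIntegral_smul_eq_flip (μ := volume) (ν := volume)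
    (L := innerₗ ℝ) (f := g) (g := f) Real.continuous_fourierChar continuous_inner hg hf
  simp only [smul_eq_mul] at h
  have e : (innerₗ ℝ : ℝ →ₗ[ℝ] ℝ →ₗ[ℝ] ℝ).flip = innerₗ ℝ := by
    ext
    simp
  rw [e] at h
  exact h

theorem fourier_toLp_ae {f : ℝ → ℂ} (h1 : Integrable f) (h2 : MemLp f 2) :
    (𝓕 (h2.toLp f) : Lp ℂ 2 (volume : Measure ℝ)) =ᵐ[volume] 𝓕 f := by
  have hg : MemLp (𝓕 (h2.toLp f) : Lp ℂ 2 (volume : Measure ℝ)) 2 volume := Lp.memLp _
  have hc : Continuous (𝓕 f) :=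
    VectorFourier.fourierIntegral_continuous Real.continuous_fourierChar continuous_inner h1
  refine ae_eq_of_integral_contDiff_smul_eq (hg.locallyIntegrable (by norm_num))
    hc.locallyIntegrable ?_
  intro φ hφ hφc
  have hφ' : ContDiff ℝ ∞ (fun x => (φ x : ℂ)) := Complex.ofRealCLM.contDiff.comp hφ
  have hφc' : HasCompactSupport (fun x => (φ x : ℂ)) :=
    hφc.comp_left (g := fun x : ℝ => (x : ℂ)) (by simp)
  set Φ : 𝓢(ℝ, ℂ) := hφc'.toSchwartzMap hφ' with hΦ
  have hΦa : ∀ x, Φ x = (φ x : ℂ) := fun x => rfl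
  have h := congrArg (fun T => T Φ) (MeasureTheory.Lp.fourier_toTemperedDistribution_eq
    (E := ℝ) (F := ℂ) (h2.toLp f))
  simp only [TemperedDistribution.fourier_apply, Lp.toTemperedDistribution_apply,
    smul_eq_mul] at h
  have e1 : ∫ x, (𝓕 Φ) x * (h2.toLp f) x = ∫ x, 𝓕 (fun x => (φ x : ℂ)) x * f x := by
    refine integral_congr_ae ?_
    filter_upwards [h2.coeFn_toLp] with x hx
    rw [hx]
    rfl
  rw [e1, integral_fourier_mul h1 (hφ'.continuous.integrable_of_hasCompactSupport hφc')] at h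
  simp only [Complex.real_smul]
  rw [h]
  rfl

/-- **Plancherel** on `L¹ ∩ L²`. -/
theorem plancherel {f : ℝ → ℂ} (h1 : Integrable f) (h2 : MemLp f 2) :
    MemLp (𝓕 f) 2 ∧ eLpNorm (𝓕 f) 2 volume = eLpNorm f 2 volume := by
  have h := fourier_toLp_ae h1 h2
  have hm : MemLp (𝓕 (h2.toLp f) : Lp ℂ 2 (volume : Measure ℝ)) 2 volume := Lp.memLp _
  refine ⟨(memLp_congr_ae h).1 hm, ?_⟩
  rw [← eLpNorm_congr_ae h]
  have := MeasureTheory.Lp.norm_fourier_eq (E := ℝ) (F := ℂ) (h2.toLp f)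
  rw [Lp.norm_def, Lp.norm_def] at this
  have h3 := (ENNReal.toReal_eq_toReal_iff' hm.2.ne (Lp.memLp (h2.toLp f)).2.ne).1 this
  rw [h3]
  exact eLpNorm_congr_ae h2.coeFn_toLp

end Pool.Agent.Worm.B2
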