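import Mathlib
import Pool.Agent.H62.Area

/-! The area mean value inequality and pointwise bounds. -/

open MeasureTheory Set Metric
open scoped Real ENNReal

namespace Pool.Agent.Worm.B2

theorem circle_mean {f : ℂ → ℂ} {U : Set ℂ} (hf : DifferentiableOn ℂ f U)
    {c : ℂ} {s : ℝ} (hs : 0 < s) (hball : closedBall c s ⊆ U) :
    ENNReal.ofReal (2 * π) * ‖f c‖ₑ ≤ ∫⁻ θ in Ioo (-π) π, ‖f (circleMap c s θ)‖ₑ := by
  have hcl : DiffContOnCl ℂ f (ball c |s|) := by
    rw [abs_of_pos hs]
    refine ⟨hf.mono (ball_subset_closedBall.trans hball), ?_⟩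
    exact (hf.continuousOn.mono hball).mono closure_ball_subset_closedBall
  have h := hcl.circleAverage
  rw [Real.circleAverage_def] at h
  have hper : Function.Periodic (fun θ => f (circleMap c s θ)) (2 * π) := by
    intro θ
    simp only [(periodic_circleMap c s) θ]
  have h2 := hper.intervalIntegral_add_eq 0 (-π)
  rw [zero_add, show -π + 2 * π = π by ring] at h2
  rw [h2, intervalIntegral.integral_of_le (by linarith [Real.pi_pos]),
    integral_Ioc_eq_integral_Ioo] at h
  have h3 : (2 * π : ℝ) • f c = ∫ θ in Ioo (-π) π, f (circleMap c s θ) := by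
    rw [← h, smul_smul, mul_inv_cancel₀ (by positivity), one_smul]
  calc ENNReal.ofReal (2 * π) * ‖f c‖ₑ = ‖(2 * π : ℝ) • f c‖ₑ := by
        rw [enorm_smul, Real.enorm_eq_ofReal (by positivity)]
    _ ≤ _ := by
        rw [h3]
        exact enorm_integral_le_lintegral_enorm _

theorem mean_area {f : ℂ → ℂ} {U : Set ℂ} (hf : DifferentiableOn ℂ f U)
    {c : ℂ} {ρ : ℝ} (hρ : 0 < ρ) (hball : closedBall c ρ ⊆ U) :
    ENNReal.ofReal (π * ρ ^ 2) * ‖f c‖ₑ ≤ ∫⁻ z in ball c ρ, ‖f z‖ₑ := by
  classical
  set G : ℂ → ℂ := (ball c ρ).piecewise f 0 with hG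
  have hGm : Measurable G := by
    apply ContinuousOn.measurable_piecewise
    · exact hf.continuousOn.mono (ball_subset_closedBall.trans hball)
    · exact continuousOn_const
    · exact measurableSet_ball
  have e1 : ∫⁻ z in ball c ρ, ‖f z‖ₑ = ∫⁻ z, ‖G z‖ₑ := by
    rw [← lintegral_indicator measurableSet_ball]
    apply lintegral_congr
    intro z
    by_cases hz : z ∈ ball c ρ
    · rw [indicator_of_mem hz, hG, piecewise_eq_of_mem _ _ _ hz]
    · rw [indicator_of_notMem hz, hG, piecewise_eq_of_notMem _ _ _ hz]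
      simp
  have e2 : ∫⁻ z, ‖G z‖ₑ = ∫⁻ z, ‖G (c + z)‖ₑ :=
    (lintegral_add_left_eq_self (fun z => ‖G z‖ₑ) c).symm
  have hm2 : Measurable (fun z : ℂ => ‖G (c + z)‖ₑ) :=
    (hGm.comp (measurable_const_add c)).enorm
  rw [e1, e2, Pool.Agent.H62.lintegral_polar hm2]
  have e3 : ENNReal.ofReal (π * ρ ^ 2) * ‖f c‖ₑ = ∫⁻ s in Ioo (0 : ℝ) ρ, ENNReal.ofReal s *
      (ENNReal.ofReal (2 * π) * ‖f c‖ₑ) := by
    rw [lintegral_mul_const _ (by fun_prop), ← mul_assoc]
    congr 1
    rw [← ofReal_integral_eq_lintegral_ofReal, ← integral_Ioc_eq_integral_Ioo,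
      ← intervalIntegral.integral_of_le hρ.le, integral_id,
      show (ρ ^ 2 - 0 ^ 2) / 2 = ρ ^ 2 / 2 by ring, ← ENNReal.ofReal_mul (by positivity)]
    · congr 1
      ring
    · exact (continuous_id.integrableOn_Icc (a := 0) (b := ρ)).mono_set Ioo_subset_Icc_self
    · filter_upwards [self_mem_ae_restrict measurableSet_Ioo] with s hs
      exact hs.1.le
  rw [e3]
  calc ∫⁻ s in Ioo (0 : ℝ) ρ, ENNReal.ofReal s * (ENNReal.ofReal (2 * π) * ‖f c‖ₑ)
      ≤ ∫⁻ s in Ioo (0 : ℝ) ρ, ENNReal.ofReal s *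
        ∫⁻ θ in Ioo (-π) π, ‖G (c + circleMap 0 s θ)‖ₑ := by
        apply setLIntegral_mono' measurableSet_Ioo
        intro s hs
        apply mul_le_mul_right
        have := circle_mean hf hs.1 ((closedBall_subset_closedBall hs.2.le).trans hball)
        refine this.trans (le_of_eq ?_)
        apply lintegral_congr
        intro θ
        have h1 : c + circleMap 0 s θ = circleMap c s θ := by
          simp [circleMap]
        have h2 : circleMap c s θ ∈ ball c ρ := by
          rw [mem_ball, dist_eq_norm, circleMap_sub_center, norm_circleMap_zero, abs_of_pos hs.1]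
          exact hs.2
        rw [h1, hG, piecewise_eq_of_mem _ _ _ h2]
    _ ≤ _ := by
        apply lintegral_mono_set
        intro s hs
        exact hs.1

/-- Pointwise bounds from bounds on almost every horizontal line. -/
theorem pointwise_bound {b : ℝ} {f : ℂ → ℂ} (hf : DifferentiableOn ℂ f {τ | |τ.im| < b})
    {r : ℝ} {n : ℝ → ℝ} (hn0 : ∀ t, 0 ≤ n t) (hnm : Measurable n)
    (hn : IntegrableOn n (Ioo (-b) b))
    (hbd : ∀ᵐ (t : ℝ) ∂(volume.restrict (Ioo (-b) b)), ∀ l : ℝ, l ≤ 0 →
      ‖f (l + t * Complex.I)‖ ≤ Real.exp (r * l) * n t) {ρ : ℝ} (hρ : 0 < ρ) :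
    ∃ C, 0 ≤ C ∧ ∀ τ : ℂ, τ.re ≤ -ρ → |τ.im| + ρ < b → ‖f τ‖ ≤ C * Real.exp (r * τ.re) := by
  set K : ℝ := ∫ t in Ioo (-b) b, n t with hK
  have hK0 : 0 ≤ K := setIntegral_nonneg measurableSet_Ioo fun t _ => hn0 t
  refine ⟨(2 * ρ * (Real.exp (|r| * ρ) * K)) / (π * ρ ^ 2), by positivity, ?_⟩
  intro τ hre him
  set M : ℝ := Real.exp (r * τ.re + |r| * ρ) with hM
  have hball : closedBall τ ρ ⊆ {τ : ℂ | |τ.im| < b} := by
    intro z hz
    rw [mem_closedBall, dist_eq_norm] at hz
    have h1 := (Complex.abs_im_le_norm (z - τ)).trans hz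
    rw [Complex.sub_im] at h1
    have h2 : |z.im| ≤ |τ.im| + |z.im - τ.im| := by
      have := abs_add_le τ.im (z.im - τ.im)
      simpa using this
    show |z.im| < b
    linarith
  have h1 := mean_area hf hρ hball
  have h2 : ∫⁻ z in ball τ ρ, ‖f z‖ₑ ≤ ∫⁻ p : ℝ × ℝ, ENNReal.ofReal (M * n p.2)
      ∂((volume.restrict (Icc (τ.re - ρ) (τ.re + ρ))).prod (volume.restrict (Ioo (-b) b))) := by
    have hmp := Complex.volume_preserving_equiv_real_prod.symm
    rw [← hmp.restrict_preimage_emb Complex.measurableEquivRealProd.symm.measurableEmbedding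
      (ball τ ρ) |>.lintegral_comp_emb Complex.measurableEquivRealProd.symm.measurableEmbedding]
    have hsub : Complex.measurableEquivRealProd.symm ⁻¹' (ball τ ρ) ⊆
        Icc (τ.re - ρ) (τ.re + ρ) ×ˢ Ioo (-b) b := by
      rintro ⟨x, y⟩ hp
      rw [mem_preimage, mem_ball, dist_eq_norm] at hp
      have hx := (Complex.abs_re_le_norm _).trans hp.le
      have hy := (Complex.abs_im_le_norm _).trans hp.le
      simp only [Complex.sub_re, Complex.sub_im, Complex.measurableEquivRealProd_symm_apply]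
        at hx hy
      rw [abs_le] at hx hy
      rw [mem_prod]
      have him' := him
      have h5 := abs_le.1 (le_refl |τ.im|)
      refine ⟨⟨by linarith, by linarith⟩, ⟨by linarith, by linarith⟩⟩
    calc _ ≤ ∫⁻ p in Icc (τ.re - ρ) (τ.re + ρ) ×ˢ Ioo (-b) b,
          ‖f (Complex.measurableEquivRealProd.symm p)‖ₑ := lintegral_mono_set hsub
      _ = ∫⁻ p, ‖f (Complex.measurableEquivRealProd.symm p)‖ₑ
          ∂((volume.restrict (Icc (τ.re - ρ) (τ.re + ρ))).prod (volume.restrict (Ioo (-b) b))) := by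
          rw [Measure.prod_restrict]
          rfl
      _ ≤ _ := by
          apply lintegral_mono_ae
          have hb2 := (Measure.quasiMeasurePreserving_snd
            (μ := volume.restrict (Icc (τ.re - ρ) (τ.re + ρ)))
            (ν := volume.restrict (Ioo (-b) b))).ae hbd
          have hb1 := (Measure.quasiMeasurePreserving_fst
            (μ := volume.restrict (Icc (τ.re - ρ) (τ.re + ρ)))
            (ν := volume.restrict (Ioo (-b) b))).ae
            (self_mem_ae_restrict (measurableSet_Icc (a := τ.re - ρ) (b := τ.re + ρ)))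
          filter_upwards [hb1, hb2] with p hp1 hp2
          have h3 := hp2 p.1 (by linarith [hp1.2])
          rw [← ofReal_norm]
          apply ENNReal.ofReal_le_ofReal
          have h4 : (Complex.measurableEquivRealProd.symm p : ℂ) = p.1 + p.2 * Complex.I := by
            apply Complex.ext <;> simp
          rw [h4]
          refine h3.trans ?_
          apply mul_le_mul_of_nonneg_right _ (hn0 _)
          apply Real.exp_le_exp.2
          have h5 : r * (p.1 - τ.re) ≤ |r| * ρ := by
            refine (le_abs_self _).trans ?_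
            rw [abs_mul]
            apply mul_le_mul_of_nonneg_left _ (abs_nonneg _)
            rw [abs_le]
            constructor <;> linarith [hp1.1, hp1.2]
          linarith
  have h3 : ∫⁻ p : ℝ × ℝ, ENNReal.ofReal (M * n p.2)
      ∂((volume.restrict (Icc (τ.re - ρ) (τ.re + ρ))).prod (volume.restrict (Ioo (-b) b))) =
      ENNReal.ofReal (2 * ρ) * ENNReal.ofReal (M * K) := by
    rw [lintegral_prod _ (by fun_prop)]
    simp only [lintegral_const]
    rw [Measure.restrict_apply_univ, Real.volume_Icc, mul_comm]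
    congr 1
    · congr 1
      ring
    · rw [hK, ← integral_const_mul, ofReal_integral_eq_lintegral_ofReal (hn.const_mul _)]
      exact Filter.Eventually.of_forall fun t => mul_nonneg (Real.exp_pos _).le (hn0 t)
  rw [h3] at h2
  have h4 := h1.trans h2
  rw [← ofReal_norm, ← ENNReal.ofReal_mul (by positivity), ← ENNReal.ofReal_mul (by positivity),
    ENNReal.ofReal_le_ofReal_iff (by positivity)] at h4
  have h5 : M = Real.exp (|r| * ρ) * Real.exp (r * τ.re) := by
    rw [hM, ← Real.exp_add]
    congr 1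
    ring
  rw [h5] at h4
  rw [div_mul_eq_mul_div, le_div_iff₀ (by positivity)]
  nlinarith [h4]

end Pool.Agent.Worm.B2
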