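import Mathlib

/-! The contour shift and the expansion of the incomplete gamma integral. -/

open MeasureTheory Set Filter Topology
open scoped Real ENNReal Interval

namespace Pool.Agent.Worm.B2

theorem integrableOn_line {b : ℝ} {f : ℂ → ℂ} (hf : DifferentiableOn ℂ f {τ | |τ.im| < b})
    {q t : ℝ} (ht : |t| < b) {C r : ℝ} (hr : 0 < r)
    (hbd : ∀ l : ℝ, l ≤ q → ‖f (l + t * Complex.I)‖ ≤ C * Real.exp (r * l)) :
    IntegrableOn (fun l : ℝ => f (l + t * Complex.I)) (Iic q) := by
  have hcont : Continuous (fun l : ℝ => f (l + t * Complex.I)) := by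
    refine hf.continuousOn.comp_continuous (by fun_prop) ?_
    intro l
    simpa using ht
  refine ((integrableOn_exp_mul_Iic hr q).const_mul C).mono' hcont.aestronglyMeasurable ?_
  filter_upwards [self_mem_ae_restrict measurableSet_Iic] with l hl
  exact hbd l hl

theorem shift {b : ℝ} {f : ℂ → ℂ} (hf : DifferentiableOn ℂ f {τ | |τ.im| < b}) {q t : ℝ}
    (ht : |t| < b) {C r : ℝ} (hr : 0 < r)
    (hbd : ∀ τ : ℂ, τ.re ≤ q → |τ.im| ≤ |t| → ‖f τ‖ ≤ C * Real.exp (r * τ.re)) :
    ∫ l in Iic q, f ((l : ℝ) + t * Complex.I) =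
      (∫ x in Iic q, f (x : ℝ)) + Complex.I * ∫ θ in (0 : ℝ)..t, f (q + θ * Complex.I) := by
  have h1 : IntegrableOn (fun l : ℝ => f (l + t * Complex.I)) (Iic q) :=
    integrableOn_line hf ht hr (C := C) fun l hl => by
      have := hbd (l + t * Complex.I) (by simpa using hl) (by simp)
      simpa using this
  have h0 : IntegrableOn (fun l : ℝ => f (l : ℝ)) (Iic q) := by
    have h0b : |(0 : ℝ)| < b := by
      rw [abs_zero]
      exact (abs_nonneg t).trans_lt ht
    have := integrableOn_line hf (q := q) h0b hr (C := C) fun l hl => by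
      have := hbd (l + (0 : ℝ) * Complex.I) (by simpa using hl) (by simp)
      simpa using this
    simpa using this
  have hrect : ∀ X : ℝ, (∫ x in X..q, f x) - (∫ x in X..q, f (x + t * Complex.I)) +
      Complex.I * (∫ y in (0 : ℝ)..t, f (q + y * Complex.I)) -
      Complex.I * (∫ y in (0 : ℝ)..t, f (X + y * Complex.I)) = 0 := by
    intro X
    have H : DifferentiableOn ℂ f ([[((X : ℂ)).re, (q + t * Complex.I).re]] ×ℂ
        [[((X : ℂ)).im, (q + t * Complex.I).im]]) := by
      apply hf.mono
      intro z hz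
      rw [Complex.mem_reProdIm] at hz
      have h2 := hz.2
      simp only [Complex.ofReal_im, Complex.add_im, Complex.mul_im, Complex.ofReal_re,
        Complex.I_im, mul_one, Complex.I_re, mul_zero, add_zero, zero_add] at h2
      show |z.im| < b
      have h3 : |z.im| ≤ |t| := by
        rcases le_total 0 t with h | h
        · rw [uIcc_of_le h] at h2
          rw [abs_of_nonneg h2.1, abs_of_nonneg h]
          exact h2.2
        · rw [uIcc_of_ge h] at h2
          rw [abs_of_nonpos h2.2, abs_of_nonpos h]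
          linarith [h2.1]
      exact h3.trans_lt ht
    have := Complex.integral_boundary_rect_eq_zero_of_differentiableOn f (X : ℂ)
      (q + t * Complex.I) H
    simpa using this
  have hl1 := intervalIntegral_tendsto_integral_Iic q h0 tendsto_id
  have hl2 := intervalIntegral_tendsto_integral_Iic q h1 tendsto_id
  have hl3 : Tendsto (fun X : ℝ => ∫ y in (0 : ℝ)..t, f (X + y * Complex.I)) atBot (𝓝 0) := by
    have hb : ∀ X : ℝ, X ≤ q → ‖∫ y in (0 : ℝ)..t, f (X + y * Complex.I)‖ ≤
        C * Real.exp (r * X) * |t - 0| := by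
      intro X hX
      apply intervalIntegral.norm_integral_le_of_norm_le_const
      intro y hy
      have h3 : |y| ≤ |t| := by
        rcases le_total 0 t with h | h
        · rw [uIoc_of_le h] at hy
          rw [abs_of_nonneg hy.1.le, abs_of_nonneg h]
          exact hy.2
        · rw [uIoc_of_ge h] at hy
          rw [abs_of_nonpos hy.2, abs_of_nonpos h]
          linarith [hy.1]
      have := hbd (X + y * Complex.I) (by simpa using hX) (by simpa using h3)
      simpa using this
    have hz : Tendsto (fun X : ℝ => C * Real.exp (r * X) * |t - 0|) atBot (𝓝 0) := by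
      have h4 : Tendsto (fun X : ℝ => Real.exp (r * X)) atBot (𝓝 0) :=
        Real.tendsto_exp_atBot.comp (tendsto_id.const_mul_atBot hr)
      have := (h4.const_mul C).mul_const |t - 0|
      simpa using this
    refine squeeze_zero_norm' ?_ hz
    filter_upwards [eventually_le_atBot q] with X hX
    exact hb X hX
  have hlim := ((hl1.sub hl2).add_const (Complex.I * (∫ y in (0 : ℝ)..t,
    f (q + y * Complex.I)))).sub (hl3.const_mul Complex.I)
  have hzero : (fun X : ℝ => (∫ x in id X..q, f x) - (∫ x in id X..q, f (x + t * Complex.I)) +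
      Complex.I * (∫ y in (0 : ℝ)..t, f (q + y * Complex.I)) -
      Complex.I * (∫ y in (0 : ℝ)..t, f (X + y * Complex.I))) = fun _ => 0 := by
    funext X
    exact hrect X
  rw [hzero] at hlim
  have := tendsto_nhds_unique hlim tendsto_const_nhds
  rw [mul_zero, sub_zero] at this
  linear_combination -this

/-- The coefficients of `e^{-x}`. -/
noncomputable def ek (k : ℕ) : ℝ := (-1) ^ k / (k.factorial : ℝ)

theorem abs_ek (k : ℕ) : |ek k| = ((k.factorial : ℝ))⁻¹ := by
  unfold ek
  rw [abs_div, abs_pow, abs_neg, abs_one, one_pow, Nat.abs_cast, one_div]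

theorem norm_ek (k : ℕ) : ‖(ek k : ℂ)‖ = ((k.factorial : ℝ))⁻¹ := by
  rw [Complex.norm_real, Real.norm_eq_abs, abs_ek]

theorem hasSum_ek (w : ℂ) : HasSum (fun k : ℕ => (ek k : ℂ) * w ^ k) (Complex.exp (-w)) := by
  have h := NormedSpace.expSeries_div_hasSum_exp (-w)
  rw [← Complex.exp_eq_exp_ℂ] at h
  have e : (fun k : ℕ => (ek k : ℂ) * w ^ k) = fun n : ℕ => (-w) ^ n / (n.factorial : ℂ) := by
    funext k
    unfold ek
    push_cast
    rw [neg_pow w k]
    ring
  rw [e]
  exact h

theorem summable_inv_factorial : Summable fun k : ℕ => ((k.factorial : ℝ))⁻¹ := by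
  have := Real.summable_pow_div_factorial 1
  simpa using this

theorem tsum_inv_factorial_le : ∑' k : ℕ, ((k.factorial : ℝ))⁻¹ ≤ 3 := by
  have h : ∑' k : ℕ, ((k.factorial : ℝ))⁻¹ = Real.exp 1 := by
    rw [Real.exp_eq_exp_ℝ, NormedSpace.exp_eq_tsum_div]
    simp
  rw [h]
  exact Real.exp_one_lt_d9.le.trans (by norm_num)

end Pool.Agent.Worm.B2
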