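import Mathlib
import Pool.Agent.Worm.B2.Shift

/-! Series expansions. -/

open MeasureTheory Set Filter Topology
open scoped Real ENNReal Interval

namespace Pool.Agent.Worm.B2

theorem norm_exp_nat_mul_le {q x : ℝ} (hq : q ≤ 0) (hx : x ≤ q) (k : ℕ) :
    ‖Complex.exp (k * (x : ℂ))‖ ≤ 1 := by
  rw [Complex.norm_exp]
  have : ((k : ℂ) * (x : ℂ)).re = k * x := by simp
  rw [this, Real.exp_le_one_iff]
  exact mul_nonpos_of_nonneg_of_nonpos (by positivity) (hx.trans hq)

/-- Expansion of `∫ a(x) e^{-ω e^x} dx`. -/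
theorem hasSum_laplace {a : ℝ → ℂ} {q : ℝ} (hq : q ≤ 0) (ha : IntegrableOn a (Iic q)) {ω : ℂ}
    (hω : ‖ω‖ ≤ 1) :
    HasSum (fun k : ℕ => (ek k : ℂ) * ω ^ k * ∫ x in Iic q, a x * Complex.exp (k * (x : ℂ)))
      (∫ x in Iic q, a x * Complex.exp (-(ω * Complex.exp x))) := by
  have hbd : ∀ (k : ℕ), ∀ x ∈ Iic q,
      ‖(ek k : ℂ) * ω ^ k * (a x * Complex.exp (k * (x : ℂ)))‖ ≤
        ((k.factorial : ℝ))⁻¹ * ‖a x‖ := by
    intro k x hx
    rw [norm_mul, norm_mul, norm_mul, norm_pow, norm_ek]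
    have h1 := norm_exp_nat_mul_le hq hx k
    have h2 : ‖ω‖ ^ k ≤ 1 := pow_le_one₀ (norm_nonneg _) hω
    have h3 : 0 ≤ ((k.factorial : ℝ))⁻¹ := by positivity
    have h4 : 0 ≤ ‖ω‖ ^ k := by positivity
    calc ((k.factorial : ℝ))⁻¹ * ‖ω‖ ^ k * (‖a x‖ * ‖Complex.exp (k * (x : ℂ))‖)
        ≤ ((k.factorial : ℝ))⁻¹ * 1 * (‖a x‖ * 1) := by
          gcongr
      _ = _ := by ring
  have hint : ∀ k : ℕ, Integrable (fun x : ℝ => (ek k : ℂ) * ω ^ k *
      (a x * Complex.exp (k * (x : ℂ)))) (volume.restrict (Iic q)) := by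
    intro k
    refine (ha.norm.const_mul _).mono' ?_ (by
      filter_upwards [self_mem_ae_restrict measurableSet_Iic] with x hx
      exact hbd k x hx)
    apply AEStronglyMeasurable.const_mul
    apply ha.aestronglyMeasurable.mul
    apply Continuous.aestronglyMeasurable
    fun_prop
  have hsum : Summable fun k : ℕ => ∫ x in Iic q,
      ‖(ek k : ℂ) * ω ^ k * (a x * Complex.exp (k * (x : ℂ)))‖ := by
    refine Summable.of_nonneg_of_le (fun k => integral_nonneg fun x => norm_nonneg _) (fun k => ?_)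
      (summable_inv_factorial.mul_right (∫ x in Iic q, ‖a x‖))
    rw [← integral_const_mul]
    apply setIntegral_mono_on (hint k).norm (ha.norm.const_mul _) measurableSet_Iic
    exact hbd k
  have h := hasSum_integral_of_summable_integral_norm hint hsum
  have e1 : (fun k : ℕ => ∫ x in Iic q, (ek k : ℂ) * ω ^ k * (a x * Complex.exp (k * (x : ℂ)))) =
      fun k : ℕ => (ek k : ℂ) * ω ^ k * ∫ x in Iic q, a x * Complex.exp (k * (x : ℂ)) := by
    funext k
    rw [integral_const_mul]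
  have e2 : ∫ x in Iic q, ∑' k : ℕ, (ek k : ℂ) * ω ^ k * (a x * Complex.exp (k * (x : ℂ))) =
      ∫ x in Iic q, a x * Complex.exp (-(ω * Complex.exp x)) := by
    apply integral_congr_ae
    refine Eventually.of_forall fun x => ?_
    have h3 := (hasSum_ek (ω * Complex.exp x)).mul_left (a x)
    have h4 : (fun k : ℕ => a x * ((ek k : ℂ) * (ω * Complex.exp x) ^ k)) =
        fun k : ℕ => (ek k : ℂ) * ω ^ k * (a x * Complex.exp (k * (x : ℂ))) := by
      funext k
      rw [mul_pow, ← Complex.exp_nat_mul]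
      ring
    rw [h4] at h3
    exact h3.tsum_eq
  rw [e1, e2] at h
  exact h

/-- The incomplete gamma function. -/
noncomputable def Sg (q : ℝ) (z : ℂ) : ℂ :=
  ∑' k : ℕ, (ek k : ℂ) * (Complex.exp ((z + k) * q) / (z + k))

theorem integral_exp_Iic' {z : ℂ} (hz : 0 < z.re) (q : ℝ) :
    ∫ x in Iic q, Complex.exp (z * (x : ℂ)) = Complex.exp (z * q) / z :=
  integral_exp_mul_complex_Iic hz q

theorem integral_Sg {q : ℝ} (hq : q ≤ 0) {z : ℂ} (hz : 0 < z.re) :
    ∫ x in Iic q, Complex.exp (z * (x : ℂ)) * Complex.exp (-Complex.exp x) = Sg q z := by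
  have h := hasSum_laplace hq (integrableOn_exp_mul_complex_Iic hz q) (ω := 1) (by simp)
  have e : (fun k : ℕ => (ek k : ℂ) * 1 ^ k * ∫ x in Iic q, Complex.exp (z * (x : ℂ)) *
      Complex.exp (k * (x : ℂ))) =
      fun k : ℕ => (ek k : ℂ) * (Complex.exp ((z + k) * q) / (z + k)) := by
    funext k
    rw [one_pow, mul_one]
    congr 1
    rw [← integral_exp_Iic' (by simp; positivity)]
    congr 1
    funext x
    rw [← Complex.exp_add]
    congr 1
    ring
  rw [e] at h
  rw [Sg, h.tsum_eq]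
  congr 1
  funext x
  rw [one_mul]

/-- `m(p) = ∫_{-b}^b e^{tp} dt`. -/
noncomputable def mm (b : ℝ) (p : ℂ) : ℂ := ∫ t in Ioo (-b) b, Complex.exp (t * p)

theorem continuous_exp_mul (p : ℂ) : Continuous fun t : ℝ => Complex.exp ((t : ℂ) * p) := by
  fun_prop

theorem integrableOn_Ioo_of_continuous {f : ℝ → ℂ} (hf : Continuous f) (a b : ℝ) :
    IntegrableOn f (Ioo a b) :=
  (hf.integrableOn_Icc (a := a) (b := b)).mono_set Ioo_subset_Icc_self

/-- Swapping the sum and the `t`-integral. -/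
theorem integral_series {b : ℝ} (hb : 0 < b) {p : ℂ} {M : ℕ → ℂ} {B : ℝ}
    (hM : ∀ k, ‖M k‖ ≤ B) :
    ∫ t in Ioo (-b) b, Complex.exp (t * p) *
        ∑' k : ℕ, (ek k : ℂ) * Complex.exp (-(t * Complex.I)) ^ k * M k =
      ∑' k : ℕ, (ek k : ℂ) * mm b (p - Complex.I * k) * M k := by
  have hterm : ∀ (k : ℕ) (t : ℝ), Complex.exp (t * p) *
      ((ek k : ℂ) * Complex.exp (-(t * Complex.I)) ^ k * M k) =
      (ek k : ℂ) * M k * Complex.exp (t * (p - Complex.I * k)) := by
    intro k t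
    have : (t : ℂ) * (p - Complex.I * k) = t * p + k * (-(t * Complex.I)) := by ring
    rw [this, Complex.exp_add, Complex.exp_nat_mul]
    ring
  have hint : ∀ k : ℕ, Integrable (fun t : ℝ => (ek k : ℂ) * M k *
      Complex.exp (t * (p - Complex.I * k))) (volume.restrict (Ioo (-b) b)) := by
    intro k
    exact (integrableOn_Ioo_of_continuous (continuous_exp_mul _) _ _).const_mul _
  have hB : 0 ≤ B := (norm_nonneg _).trans (hM 0)
  have hbd : ∀ (k : ℕ) (t : ℝ), ‖(ek k : ℂ) * M k * Complex.exp (t * (p - Complex.I * k))‖ ≤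
      ((k.factorial : ℝ))⁻¹ * B * Real.exp (t * p.re) := by
    intro k t
    rw [norm_mul, norm_mul, norm_ek, Complex.norm_exp]
    have : ((t : ℂ) * (p - Complex.I * k)).re = t * p.re := by simp
    rw [this]
    gcongr
    exact hM k
  have hc : Integrable (fun t : ℝ => Real.exp (t * p.re)) (volume.restrict (Ioo (-b) b)) := by
    have : Continuous fun t : ℝ => Real.exp (t * p.re) := by fun_prop
    exact (this.integrableOn_Icc (a := -b) (b := b)).mono_set Ioo_subset_Icc_self
  have hsum : Summable fun k : ℕ => ∫ t in Ioo (-b) b,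
      ‖(ek k : ℂ) * M k * Complex.exp (t * (p - Complex.I * k))‖ := by
    refine Summable.of_nonneg_of_le (fun k => integral_nonneg fun x => norm_nonneg _) (fun k => ?_)
      ((summable_inv_factorial.mul_right B).mul_right (∫ t in Ioo (-b) b, Real.exp (t * p.re)))
    rw [← integral_const_mul]
    apply integral_mono (hint k).norm (hc.const_mul _)
    exact hbd k
  have h := hasSum_integral_of_summable_integral_norm hint hsum
  have e1 : (fun k : ℕ => ∫ t in Ioo (-b) b, (ek k : ℂ) * M k *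
      Complex.exp (t * (p - Complex.I * k))) =
      fun k : ℕ => (ek k : ℂ) * mm b (p - Complex.I * k) * M k := by
    funext k
    rw [integral_const_mul, mm]
    ring
  rw [e1] at h
  rw [h.tsum_eq]
  congr 1
  funext t
  rw [← tsum_mul_left]
  exact tsum_congr fun k => hterm k t

end Pool.Agent.Worm.B2
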