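import Mathlib
import Pool.Agent.Worm.Defs
import Pool.Agent.Worm.B2.Mean
import Pool.Agent.Worm.B2.Ser

/-! The data extracted from `Borel`. -/

open MeasureTheory Set Filter Topology
open scoped Real ENNReal Interval

namespace Pool.Agent.Worm.B2

/-- `Ψ_N`. -/
noncomputable def Psub (Ψ : ℂ → ℂ) (γ : ℕ → ℂ) (N : ℕ) (τ : ℂ) : ℂ :=
  Ψ τ - ∑ j ∈ Finset.range N, γ j * Complex.exp ((j + 1) * τ)

theorem Psub_zero (Ψ : ℂ → ℂ) (γ : ℕ → ℂ) : Psub Ψ γ 0 = Ψ := by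
  funext τ
  simp [Psub]

/-- The data. -/
structure Data (b q : ℝ) (Ψ : ℂ → ℂ) (γ : ℕ → ℂ) : Prop where
  hb : 0 < b
  hq : q ≤ 0
  hol : DifferentiableOn ℂ Ψ {τ | |τ.im| < b}
  ptw : ∀ (N : ℕ) (r : ℝ), r < N + 1 → ∀ β : ℝ, β < b → ∃ C, 0 ≤ C ∧ ∀ τ : ℂ, τ.re ≤ q →
    |τ.im| ≤ β → ‖Psub Ψ γ N τ‖ ≤ C * Real.exp (r * τ.re)
  large : ∃ n : ℝ → ℝ, (∀ t, 0 ≤ n t) ∧ Measurable n ∧ IntegrableOn n (Ioo (-b) b) ∧
    ∀ᵐ (t : ℝ) ∂(volume.restrict (Ioo (-b) b)), ∀ l : ℝ,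
      ‖Ψ (l + t * Complex.I)‖ ≤ Real.exp (3 / 4 * Real.exp l) * n t
  rel : ∀ σ : ℂ, 0 < σ.re →
    ∫ t in Ioo (-b) b, ∫ l : ℝ,
      (Ψ (l + t * Complex.I) + t * Complex.I * Complex.exp (l + t * Complex.I)) *
        Complex.exp (σ * (l - t * Complex.I)) * Real.exp t * Real.exp (-Real.exp l) = 0

theorem integrable_of_sq {n : ℝ → ℝ} (h0 : ∀ t, 0 ≤ n t) (hm : Measurable n) {b : ℝ}
    (h : IntegrableOn (fun t => n t ^ 2) (Ioo (-b) b)) : IntegrableOn n (Ioo (-b) b) := by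
  have h1 : IntegrableOn (fun _ : ℝ => (1 : ℝ)) (Ioo (-b) b) :=
    integrable_const (μ := volume.restrict (Ioo (-b) b)) (1 : ℝ)
  refine (h1.add h).mono' hm.aestronglyMeasurable ?_
  refine Eventually.of_forall fun t => ?_
  rw [Real.norm_eq_abs, abs_of_nonneg (h0 t)]
  simp only [Pi.add_apply]
  nlinarith [sq_nonneg (n t - 1), h0 t]

theorem differentiableOn_Psub {b : ℝ} {Ψ : ℂ → ℂ} (h : DifferentiableOn ℂ Ψ {τ | |τ.im| < b})
    (γ : ℕ → ℂ) (N : ℕ) : DifferentiableOn ℂ (Psub Ψ γ N) {τ | |τ.im| < b} := by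
  unfold Psub
  apply h.sub
  apply Differentiable.differentiableOn
  fun_prop

theorem Data.of_borel {b q : ℝ} (hb : 0 < b) (hq : q < 0) {Ψ : ℂ → ℂ} {γ : ℕ → ℂ}
    (h : Borel b Ψ γ) : Data b q Ψ γ where
  hb := hb
  hq := hq.le
  hol := h.hol
  ptw := by
    intro N r hr β hβ
    obtain ⟨n, hn0, hnm, hn2, hbd⟩ := h.small N r hr
    set ρ : ℝ := min (-q) ((b - β) / 2) with hρ
    have hρ0 : 0 < ρ := lt_min (by linarith) (by linarith)
    obtain ⟨C, hC, hC2⟩ := pointwise_bound (differentiableOn_Psub h.hol γ N) hn0 hnm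
      (integrable_of_sq hn0 hnm hn2) (r := r) hbd hρ0
    refine ⟨C, hC, fun τ h1 h2 => hC2 τ ?_ ?_⟩
    · have := min_le_left (-q) ((b - β) / 2)
      rw [← hρ] at this
      linarith
    · have := min_le_right (-q) ((b - β) / 2)
      rw [← hρ] at this
      linarith
  large := by
    obtain ⟨n, hn0, hnm, hn2, hbd⟩ := h.large
    exact ⟨n, hn0, hnm, integrable_of_sq hn0 hnm hn2, hbd⟩
  rel := h.rel

theorem continuousOn_strip {b : ℝ} {f : ℂ → ℂ} (hf : DifferentiableOn ℂ f {τ | |τ.im| < b})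
    (A : Set ℝ) : ContinuousOn (fun p : ℝ × ℝ => f (p.2 + p.1 * Complex.I)) (Ioo (-b) b ×ˢ A) := by
  refine hf.continuousOn.comp (Continuous.continuousOn (by fun_prop)) ?_
  intro p hp
  show |((p.2 : ℂ) + p.1 * Complex.I).im| < b
  have : ((p.2 : ℂ) + p.1 * Complex.I).im = p.1 := by simp
  rw [this, abs_lt]
  exact hp.1

theorem aesm_strip {b : ℝ} {f : ℂ → ℂ} (hf : DifferentiableOn ℂ f {τ | |τ.im| < b})
    {A : Set ℝ} (hA : MeasurableSet A) :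
    AEStronglyMeasurable (fun p : ℝ × ℝ => f (p.2 + p.1 * Complex.I))
      ((volume.restrict (Ioo (-b) b)).prod (volume.restrict A)) := by
  rw [Measure.prod_restrict]
  exact (continuousOn_strip hf A).aestronglyMeasurable (measurableSet_Ioo.prod hA)

/-- `e^{a l} e^{-e^l/4} ≤ C e^{-l}` for `l ≥ q`. -/
theorem exists_exp_bound (a q : ℝ) : ∃ C, 0 ≤ C ∧ ∀ l : ℝ, q ≤ l →
    Real.exp (a * l) * Real.exp (-(Real.exp l / 4)) ≤ C * Real.exp (-l) := by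
  obtain ⟨m, hm⟩ := exists_nat_ge (a + 1)
  refine ⟨(m.factorial : ℝ) * 4 ^ m * Real.exp ((a + 1 - m) * q), by positivity, ?_⟩
  intro l hl
  have h1 := Real.pow_div_factorial_le_exp (Real.exp l / 4) (by positivity) m
  rw [div_le_iff₀ (by positivity), div_pow, div_le_iff₀ (by positivity)] at h1
  have h2 : Real.exp ((a + 1 - m) * l) ≤ Real.exp ((a + 1 - m) * q) := by
    apply Real.exp_le_exp.2
    nlinarith
  have h3 : Real.exp (a * l) = Real.exp (-l) * Real.exp l ^ m * Real.exp ((a + 1 - m) * l) := by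
    rw [← Real.exp_nat_mul, ← Real.exp_add, ← Real.exp_add]
    congr 1
    ring
  rw [h3, Real.exp_neg (Real.exp l / 4)]
  have h4 : Real.exp l ^ m * (Real.exp (Real.exp l / 4))⁻¹ ≤ (m.factorial : ℝ) * 4 ^ m := by
    rw [← div_eq_mul_inv, div_le_iff₀ (Real.exp_pos _)]
    linarith
  calc Real.exp (-l) * Real.exp l ^ m * Real.exp ((a + 1 - m) * l) *
        (Real.exp (Real.exp l / 4))⁻¹
      = Real.exp (-l) * (Real.exp l ^ m * (Real.exp (Real.exp l / 4))⁻¹) *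
        Real.exp ((a + 1 - m) * l) := by ring
    _ ≤ Real.exp (-l) * ((m.factorial : ℝ) * 4 ^ m) * Real.exp ((a + 1 - m) * q) := by
        gcongr
    _ = _ := by ring

end Pool.Agent.Worm.B2
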