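import Mathlib
import Pool.Agent.Worm.B2.Plancherel

/-! The `L²` absorption step. -/

open MeasureTheory Set
open scoped Real ENNReal FourierTransform

namespace Pool.Agent.Worm.B2

/-- The `L²` norm of a nonnegative function on the line. -/
noncomputable def nrm (f : ℝ → ℝ≥0∞) : ℝ≥0∞ := (∫⁻ x, f x ^ (2 : ℝ)) ^ (1 / 2 : ℝ)

theorem nrm_eq_eLpNorm (f : ℝ → ℂ) : nrm (fun x => ‖f x‖ₑ) = eLpNorm f 2 volume := by
  rw [eLpNorm_eq_lintegral_rpow_enorm_toReal (by norm_num) (by norm_num)]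
  simp [nrm]

theorem nrm_mono_ae {f g : ℝ → ℝ≥0∞} (h : ∀ᵐ x, f x ≤ g x) : nrm f ≤ nrm g := by
  unfold nrm
  apply ENNReal.rpow_le_rpow _ (by norm_num)
  apply lintegral_mono_ae
  filter_upwards [h] with x hx
  exact ENNReal.rpow_le_rpow hx (by norm_num)

theorem nrm_add_le {f g : ℝ → ℝ≥0∞} (hf : AEMeasurable f) (hg : AEMeasurable g) :
    nrm (fun x => f x + g x) ≤ nrm f + nrm g := by
  have := ENNReal.lintegral_Lp_add_le (p := 2) hf hg (by norm_num)
  simpa [nrm] using this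

theorem nrm_const_mul (c : ℝ≥0∞) {f : ℝ → ℝ≥0∞} (hf : Measurable f) :
    nrm (fun x => c * f x) = c * nrm f := by
  unfold nrm
  simp_rw [ENNReal.mul_rpow_of_nonneg _ _ (show (0 : ℝ) ≤ 2 by norm_num)]
  rw [lintegral_const_mul _ (hf.pow_const _), ENNReal.mul_rpow_of_nonneg _ _ (by norm_num),
    ← ENNReal.rpow_mul]
  norm_num

theorem nrm_sum_le {f : ℕ → ℝ → ℝ≥0∞} (hf : ∀ k, Measurable (f k)) (n : ℕ) :
    nrm (fun x => ∑ k ∈ Finset.range n, f k x) ≤ ∑ k ∈ Finset.range n, nrm (f k) := by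
  induction n with
  | zero => simp [nrm]
  | succ n ih =>
    simp_rw [Finset.sum_range_succ]
    refine (nrm_add_le ?_ (hf n).aemeasurable).trans (add_le_add_left ih _)
    exact (Finset.measurable_sum _ fun k _ => hf k).aemeasurable

theorem nrm_tsum_le {f : ℕ → ℝ → ℝ≥0∞} (hf : ∀ k, Measurable (f k)) :
    nrm (fun x => ∑' k, f k x) ≤ ∑' k, nrm (f k) := by
  have e : ∀ x, (∑' k, f k x) ^ (2 : ℝ) = ⨆ n, (∑ k ∈ Finset.range n, f k x) ^ (2 : ℝ) := by
    intro x
    rw [ENNReal.tsum_eq_iSup_nat]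
    exact (ENNReal.orderIsoRpow 2 (by norm_num)).map_iSup _
  unfold nrm
  simp_rw [e]
  rw [lintegral_iSup]
  · have e2 : (⨆ n, ∫⁻ x, (∑ k ∈ Finset.range n, f k x) ^ (2 : ℝ)) ^ (1 / 2 : ℝ) =
        ⨆ n, (∫⁻ x, (∑ k ∈ Finset.range n, f k x) ^ (2 : ℝ)) ^ (1 / 2 : ℝ) :=
      (ENNReal.orderIsoRpow (1 / 2) (by norm_num)).map_iSup _
    rw [e2]
    refine iSup_le fun n => ?_
    exact (nrm_sum_le hf n).trans (ENNReal.sum_le_tsum _)
  · intro n
    exact (Finset.measurable_sum _ fun k _ => hf k).pow_const _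
  · intro m n hmn x
    apply ENNReal.rpow_le_rpow _ (by norm_num)
    exact Finset.sum_le_sum_of_subset (Finset.range_mono hmn)

theorem nrm_majorant {Y : ℝ} (hY : 0 ≤ Y) :
    nrm (fun w => ENNReal.ofReal (Y / (1 + |w|))) ≤ ENNReal.ofReal (2 * Y) := by
  have h1 : ∫⁻ w : ℝ, ENNReal.ofReal (Y / (1 + |w|)) ^ (2 : ℝ) ≤ ENNReal.ofReal (4 * Y ^ 2) := by
    calc ∫⁻ w : ℝ, ENNReal.ofReal (Y / (1 + |w|)) ^ (2 : ℝ)
        ≤ ∫⁻ w : ℝ, ENNReal.ofReal (Y ^ 2 * (1 + w ^ 2)⁻¹) := by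
          apply lintegral_mono
          intro w
          simp only
          rw [ENNReal.ofReal_rpow_of_nonneg (by positivity) (by norm_num)]
          apply ENNReal.ofReal_le_ofReal
          rw [Real.rpow_two, div_pow, div_eq_mul_inv]
          apply mul_le_mul_of_nonneg_left _ (by positivity)
          apply inv_anti₀ (by positivity)
          nlinarith [abs_nonneg w, sq_abs w]
      _ = ENNReal.ofReal (∫ w : ℝ, Y ^ 2 * (1 + w ^ 2)⁻¹) := by
          rw [ofReal_integral_eq_lintegral_ofReal (integrable_inv_one_add_sq.const_mul _)]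
          exact Filter.Eventually.of_forall fun w => by positivity
      _ ≤ ENNReal.ofReal (4 * Y ^ 2) := by
          apply ENNReal.ofReal_le_ofReal
          rw [integral_const_mul, integral_univ_inv_one_add_sq]
          nlinarith [Real.pi_le_four, sq_nonneg Y]
  unfold nrm
  calc _ ≤ ENNReal.ofReal (4 * Y ^ 2) ^ (1 / 2 : ℝ) := ENNReal.rpow_le_rpow h1 (by norm_num)
    _ = ENNReal.ofReal (2 * Y) := by
      have : 4 * Y ^ 2 = (2 * Y) ^ (2 : ℝ) := by
        rw [Real.rpow_two]; ring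
      rw [this, ENNReal.ofReal_rpow_of_nonneg (by positivity) (by norm_num),
        ← Real.rpow_mul (by positivity)]
      norm_num

/-- **The absorption step.** -/
theorem l2_step {a : ℝ → ℂ} {q Y : ℝ} {c : ℕ → ℝ} (hY : 0 ≤ Y)
    (hs : ∑' k : ℕ, ENNReal.ofReal (c k) * ENNReal.ofReal (Real.exp ((k + 1) * q)) ≤ 1 / 2)
    (ha : ∀ x, q < x → a x = 0) (h1 : Integrable a) (h2 : MemLp a 2)
    (hle : ∀ᵐ w : ℝ, ‖𝓕 a w‖ₑ ≤
      ∑' k : ℕ, ENNReal.ofReal (c k) *
        ‖𝓕 (fun x : ℝ => a x * (Real.exp ((k + 1) * x) : ℂ)) w‖ₑ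
      + ENNReal.ofReal (Y / (1 + |w|))) :
    nrm (fun x => ‖a x‖ₑ) ≤ ENNReal.ofReal (4 * Y) := by
  have hk0 : ∀ (k : ℕ) (x : ℝ), ‖a x * (Real.exp ((k + 1) * x) : ℂ)‖ ≤
      Real.exp ((k + 1) * q) * ‖a x‖ := by
    intro k x
    rw [norm_mul, Complex.norm_real, Real.norm_eq_abs, abs_of_pos (Real.exp_pos _), mul_comm]
    by_cases hx : q < x
    · simp [ha x hx]
    · apply mul_le_mul_of_nonneg_right _ (norm_nonneg _)
      apply Real.exp_le_exp.2
      apply mul_le_mul_of_nonneg_left (not_lt.1 hx) (by positivity)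
  have hmeas : ∀ k : ℕ, AEStronglyMeasurable (fun x : ℝ => a x * (Real.exp ((k + 1) * x) : ℂ))
      volume := by
    intro k
    apply h1.aestronglyMeasurable.mul
    apply Continuous.aestronglyMeasurable
    fun_prop
  have hk1 : ∀ k : ℕ, Integrable (fun x : ℝ => a x * (Real.exp ((k + 1) * x) : ℂ)) := by
    intro k
    refine (h1.norm.const_mul (Real.exp ((k + 1) * q))).mono' (hmeas k) ?_
    exact Filter.Eventually.of_forall fun x => hk0 k x
  have hk2 : ∀ k : ℕ, MemLp (fun x : ℝ => a x * (Real.exp ((k + 1) * x) : ℂ)) 2 := by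
    intro k
    exact h2.of_le_mul (hmeas k) (Filter.Eventually.of_forall fun x => hk0 k x)
  have hcont : ∀ {f : ℝ → ℂ}, Integrable f → Continuous (𝓕 f) := fun hf =>
    VectorFourier.fourierIntegral_continuous Real.continuous_fourierChar continuous_inner hf
  have hmF : ∀ {f : ℝ → ℂ}, Integrable f → Measurable (fun w => ‖𝓕 f w‖ₑ) := fun hf =>
    (hcont hf).measurable.enorm
  set X := nrm (fun x => ‖a x‖ₑ) with hX
  have hXfin : X ≠ ⊤ := by
    rw [hX, nrm_eq_eLpNorm]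
    exact h2.2.ne
  have hXF : nrm (fun w => ‖𝓕 a w‖ₑ) = X := by
    rw [hX, nrm_eq_eLpNorm, nrm_eq_eLpNorm, (plancherel h1 h2).2]
  have hXk : ∀ k : ℕ, nrm (fun w => ‖𝓕 (fun x : ℝ => a x * (Real.exp ((k + 1) * x) : ℂ)) w‖ₑ) ≤
      ENNReal.ofReal (Real.exp ((k + 1) * q)) * X := by
    intro k
    rw [nrm_eq_eLpNorm, (plancherel (hk1 k) (hk2 k)).2, hX, nrm_eq_eLpNorm]
    exact eLpNorm_le_mul_eLpNorm_of_ae_le_mul
      (Filter.Eventually.of_forall fun x => hk0 k x) 2
  have hmain : X ≤ 1 / 2 * X + ENNReal.ofReal (2 * Y) := by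
    calc X = nrm (fun w => ‖𝓕 a w‖ₑ) := hXF.symm
      _ ≤ nrm (fun w => ∑' k : ℕ, ENNReal.ofReal (c k) *
            ‖𝓕 (fun x : ℝ => a x * (Real.exp ((k + 1) * x) : ℂ)) w‖ₑ
            + ENNReal.ofReal (Y / (1 + |w|))) := nrm_mono_ae hle
      _ ≤ nrm (fun w => ∑' k : ℕ, ENNReal.ofReal (c k) *
            ‖𝓕 (fun x : ℝ => a x * (Real.exp ((k + 1) * x) : ℂ)) w‖ₑ)
          + nrm (fun w => ENNReal.ofReal (Y / (1 + |w|))) := by
            apply nrm_add_le
            · exact (Measurable.ennreal_tsum fun k => (hmF (hk1 k)).const_mul _).aemeasurable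
            · apply Measurable.aemeasurable
              fun_prop
      _ ≤ 1 / 2 * X + ENNReal.ofReal (2 * Y) := by
            apply add_le_add _ (nrm_majorant hY)
            refine (nrm_tsum_le fun k => (hmF (hk1 k)).const_mul _).trans ?_
            calc ∑' k : ℕ, nrm (fun w => ENNReal.ofReal (c k) *
                  ‖𝓕 (fun x : ℝ => a x * (Real.exp ((k + 1) * x) : ℂ)) w‖ₑ)
                ≤ ∑' k : ℕ, (ENNReal.ofReal (c k) *
                  ENNReal.ofReal (Real.exp ((k + 1) * q))) * X := by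
                  apply ENNReal.tsum_le_tsum
                  intro k
                  rw [nrm_const_mul _ (hmF (hk1 k)), mul_assoc]
                  exact mul_le_mul_right (hXk k) _
              _ = (∑' k : ℕ, ENNReal.ofReal (c k) *
                  ENNReal.ofReal (Real.exp ((k + 1) * q))) * X := ENNReal.tsum_mul_right
              _ ≤ 1 / 2 * X := mul_le_mul_left hs _
  have h3 : (X.toReal) ≤ 1 / 2 * X.toReal + 2 * Y := by
    have := ENNReal.toReal_mono (by
      apply ENNReal.add_ne_top.2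
      refine ⟨ENNReal.mul_ne_top (by norm_num) hXfin, ENNReal.ofReal_ne_top⟩) hmain
    rw [ENNReal.toReal_add (ENNReal.mul_ne_top (by norm_num) hXfin) ENNReal.ofReal_ne_top,
      ENNReal.toReal_mul, ENNReal.toReal_ofReal (by positivity)] at this
    simpa using this
  rw [← ENNReal.ofReal_toReal hXfin]
  apply ENNReal.ofReal_le_ofReal
  linarith

end Pool.Agent.Worm.B2
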