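import Mathlib

/-! Holomorphy of integrals of the form `∫ h e^{σ φ}`. -/

open MeasureTheory Set
open scoped Real ENNReal

namespace Pool.Agent.Worm.B2

theorem exp_norm_le_corners {δ : ℝ} (hδ : 0 ≤ δ) (w : ℂ) :
    Real.exp (δ * ‖w‖) ≤ ‖Complex.exp ((δ * (1 + Complex.I)) * w)‖
      + ‖Complex.exp ((δ * (1 - Complex.I)) * w)‖
      + ‖Complex.exp ((δ * (-1 + Complex.I)) * w)‖
      + ‖Complex.exp ((δ * (-1 - Complex.I)) * w)‖ := by
  have e1 : ((δ * (1 + Complex.I)) * w).re = δ * (w.re - w.im) := by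
    simp; ring
  have e2 : ((δ * (1 - Complex.I)) * w).re = δ * (w.re + w.im) := by
    simp; ring
  have e3 : ((δ * (-1 + Complex.I)) * w).re = δ * (-w.re - w.im) := by
    simp; ring
  have e4 : ((δ * (-1 - Complex.I)) * w).re = δ * (-w.re + w.im) := by
    simp; ring
  simp only [Complex.norm_exp, e1, e2, e3, e4]
  have h1 := Real.exp_pos (δ * (w.re - w.im))
  have h2 := Real.exp_pos (δ * (w.re + w.im))
  have h3 := Real.exp_pos (δ * (-w.re - w.im))
  have h4 := Real.exp_pos (δ * (-w.re + w.im))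
  have hn := Complex.norm_le_abs_re_add_abs_im w
  have hle : Real.exp (δ * ‖w‖) ≤ Real.exp (δ * (|w.re| + |w.im|)) :=
    Real.exp_le_exp.2 (mul_le_mul_of_nonneg_left hn hδ)
  rcases abs_cases w.re with ⟨ha, _⟩ | ⟨ha, _⟩ <;> rcases abs_cases w.im with ⟨hb, _⟩ | ⟨hb, _⟩ <;>
    rw [ha, hb] at hle
  · linarith
  · rw [← sub_eq_add_neg] at hle; linarith
  · linarith
  · rw [← sub_eq_add_neg] at hle; linarith

theorem differentiableOn_integral_exp {α : Type*} [MeasurableSpace α] {ν : Measure α}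
    {h φ : α → ℂ} {U : Set ℂ} (hU : IsOpen U) (hφ : AEStronglyMeasurable φ ν)
    (hi : ∀ σ ∈ U, Integrable (fun p => h p * Complex.exp (σ * φ p)) ν) :
    DifferentiableOn ℂ (fun σ => ∫ p, h p * Complex.exp (σ * φ p) ∂ν) U := by
  intro σ₀ hσ₀
  obtain ⟨ε, hε, hball⟩ := Metric.isOpen_iff.1 hU σ₀ hσ₀
  set δ : ℝ := ε / 8 with hδdef
  have hδ : 0 < δ := by positivity
  have hcorner : ∀ c : ℂ, ‖c‖ ≤ 2 → σ₀ + 2 * δ * c ∈ U := by
    intro c hc
    apply hball
    rw [Metric.mem_ball, dist_eq_norm]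
    have : σ₀ + 2 * δ * c - σ₀ = 2 * δ * c := by ring
    rw [this, norm_mul, norm_mul]
    have h2 : ‖(2 : ℂ)‖ = 2 := by norm_num
    have h3 : ‖(δ : ℂ)‖ = δ := by
      rw [Complex.norm_real, Real.norm_eq_abs, abs_of_pos hδ]
    rw [h2, h3]
    nlinarith [norm_nonneg c]
  have hn1 : ‖(1 + Complex.I : ℂ)‖ ≤ 2 := by
    refine (norm_add_le _ _).trans ?_
    simp; norm_num
  have hn2 : ‖(1 - Complex.I : ℂ)‖ ≤ 2 := by
    refine (norm_sub_le _ _).trans ?_
    simp; norm_num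
  have hn3 : ‖(-1 + Complex.I : ℂ)‖ ≤ 2 := by
    refine (norm_add_le _ _).trans ?_
    simp; norm_num
  have hn4 : ‖(-1 - Complex.I : ℂ)‖ ≤ 2 := by
    refine (norm_sub_le _ _).trans ?_
    simp; norm_num
  have i1 := (hi _ (hcorner _ hn1)).norm
  have i2 := (hi _ (hcorner _ hn2)).norm
  have i3 := (hi _ (hcorner _ hn3)).norm
  have i4 := (hi _ (hcorner _ hn4)).norm
  set bd : α → ℝ := fun p => (1 / δ) * (‖h p * Complex.exp ((σ₀ + 2 * δ * (1 + Complex.I)) * φ p)‖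
    + ‖h p * Complex.exp ((σ₀ + 2 * δ * (1 - Complex.I)) * φ p)‖
    + ‖h p * Complex.exp ((σ₀ + 2 * δ * (-1 + Complex.I)) * φ p)‖
    + ‖h p * Complex.exp ((σ₀ + 2 * δ * (-1 - Complex.I)) * φ p)‖) with hbd
  have hbdi : Integrable bd ν := (((i1.add i2).add i3).add i4).const_mul _
  have key := hasDerivAt_integral_of_dominated_loc_of_deriv_le (μ := ν) (𝕜 := ℂ)
    (F := fun σ p => h p * Complex.exp (σ * φ p))
    (F' := fun σ p => h p * (Complex.exp (σ * φ p) * φ p)) (x₀ := σ₀) (s := Metric.ball σ₀ δ)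
    (bound := bd) (Metric.ball_mem_nhds _ hδ) ?_ (hi _ hσ₀) ?_ ?_ hbdi ?_
  · exact key.2.differentiableAt.differentiableWithinAt
  · filter_upwards [hU.mem_nhds hσ₀] with σ hσ
    exact (hi σ hσ).aestronglyMeasurable
  · have := ((hi _ hσ₀).aestronglyMeasurable).mul hφ
    refine this.congr (Filter.Eventually.of_forall fun p => ?_)
    simp only [Pi.mul_apply]
    ring
  · refine Filter.Eventually.of_forall fun p σ hσ => ?_
    have hσ' : ‖σ - σ₀‖ < δ := by rwa [Metric.mem_ball, dist_eq_norm] at hσ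
    have e1 : h p * (Complex.exp (σ * φ p) * φ p) =
        (h p * Complex.exp (σ₀ * φ p)) * (Complex.exp ((σ - σ₀) * φ p) * φ p) := by
      have : σ * φ p = σ₀ * φ p + (σ - σ₀) * φ p := by ring
      rw [this, Complex.exp_add]; ring
    have e2 : ‖Complex.exp ((σ - σ₀) * φ p)‖ ≤ Real.exp (δ * ‖φ p‖) := by
      rw [Complex.norm_exp]
      apply Real.exp_le_exp.2
      refine (Complex.re_le_norm _).trans ?_
      rw [norm_mul]
      exact mul_le_mul_of_nonneg_right hσ'.le (norm_nonneg _)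
    have e3 : ‖φ p‖ ≤ (1 / δ) * Real.exp (δ * ‖φ p‖) := by
      have := Real.add_one_le_exp (δ * ‖φ p‖)
      rw [one_div, ← div_eq_inv_mul, le_div_iff₀ hδ]
      linarith
    have e4 : ‖Complex.exp ((σ - σ₀) * φ p) * φ p‖ ≤ (1 / δ) * Real.exp (2 * δ * ‖φ p‖) := by
      rw [norm_mul]
      calc ‖Complex.exp ((σ - σ₀) * φ p)‖ * ‖φ p‖
          ≤ Real.exp (δ * ‖φ p‖) * ((1 / δ) * Real.exp (δ * ‖φ p‖)) := by
            apply mul_le_mul e2 e3 (norm_nonneg _) (Real.exp_pos _).le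
        _ = (1 / δ) * Real.exp (2 * δ * ‖φ p‖) := by
            have : 2 * δ * ‖φ p‖ = δ * ‖φ p‖ + δ * ‖φ p‖ := by ring
            rw [this, Real.exp_add]; ring
    have e5 := exp_norm_le_corners (δ := 2 * δ) (by positivity) (φ p)
    have hA : 0 ≤ ‖h p * Complex.exp (σ₀ * φ p)‖ := norm_nonneg _
    have e6 : ∀ c : ℂ, ‖h p * Complex.exp ((σ₀ + 2 * δ * c) * φ p)‖ =
        ‖h p * Complex.exp (σ₀ * φ p)‖ * ‖Complex.exp (((2 * δ : ℝ) * c) * φ p)‖ := by
      intro c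
      have : (σ₀ + 2 * δ * c) * φ p = σ₀ * φ p + ((2 * δ : ℝ) * c) * φ p := by
        push_cast; ring
      rw [this, Complex.exp_add, ← mul_assoc, norm_mul]
    rw [e1, norm_mul]
    simp only [hbd, e6]
    calc ‖h p * Complex.exp (σ₀ * φ p)‖ * ‖Complex.exp ((σ - σ₀) * φ p) * φ p‖
        ≤ ‖h p * Complex.exp (σ₀ * φ p)‖ * ((1 / δ) * Real.exp (2 * δ * ‖φ p‖)) :=
          mul_le_mul_of_nonneg_left e4 hA
      _ ≤ ‖h p * Complex.exp (σ₀ * φ p)‖ * ((1 / δ) *
          (‖Complex.exp (((2 * δ : ℝ) * (1 + Complex.I)) * φ p)‖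
          + ‖Complex.exp (((2 * δ : ℝ) * (1 - Complex.I)) * φ p)‖
          + ‖Complex.exp (((2 * δ : ℝ) * (-1 + Complex.I)) * φ p)‖
          + ‖Complex.exp (((2 * δ : ℝ) * (-1 - Complex.I)) * φ p)‖)) := by
            apply mul_le_mul_of_nonneg_left _ hA
            exact mul_le_mul_of_nonneg_left e5 (by positivity)
      _ = _ := by ring
  · refine Filter.Eventually.of_forall fun p σ _ => ?_
    have h1 : HasDerivAt (fun σ : ℂ => σ * φ p) (φ p) σ := by
      simpa using (hasDerivAt_id σ).mul_const (φ p)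
    exact h1.cexp.const_mul (h p)

end Pool.Agent.Worm.B2
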