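import Mathlib
import Pool.Agent.Worm.B2.Ser

/-! Integration by parts bounds. -/

open MeasureTheory Set Filter Topology
open scoped Real ENNReal Interval

namespace Pool.Agent.Worm.B2

theorem hasDerivAt_exp_mul (p : ℂ) (t : ℝ) :
    HasDerivAt (fun t : ℝ => Complex.exp ((t : ℂ) * p)) (p * Complex.exp ((t : ℂ) * p)) t := by
  have h2 : HasDerivAt (fun t : ℝ => ((t : ℂ) * p)) p t := by
    have := (Complex.ofRealCLM.hasDerivAt (x := t)).mul_const p
    simpa using this
  have h3 := h2.cexp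
  rw [mul_comm (Complex.exp ((t : ℂ) * p)) p] at h3
  exact h3

theorem ibp_bound {g g' : ℝ → ℂ} (hg : ∀ t, HasDerivAt g (g' t) t) (hc : Continuous g')
    {α β G0 G1 : ℝ} (hαβ : α ≤ β) (h0 : ∀ t ∈ Icc α β, ‖g t‖ ≤ G0)
    (h1 : ∀ t ∈ Icc α β, ‖g' t‖ ≤ G1) (p : ℂ) :
    ‖p‖ * ‖∫ t in α..β, Complex.exp (t * p) * g t‖ ≤
      (2 * G0 + G1 * (β - α)) * max (Real.exp (α * p.re)) (Real.exp (β * p.re)) := by
  have hexp : ∀ t : ℝ, HasDerivAt (fun t : ℝ => Complex.exp ((t : ℂ) * p))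
      (p * Complex.exp ((t : ℂ) * p)) t := hasDerivAt_exp_mul p
  have hibp := intervalIntegral.integral_mul_deriv_eq_deriv_mul (a := α) (b := β)
    (u := g) (v := fun t : ℝ => Complex.exp ((t : ℂ) * p)) (u' := g')
    (v' := fun t : ℝ => p * Complex.exp ((t : ℂ) * p)) (fun t _ => hg t) (fun t _ => hexp t)
    (hc.intervalIntegrable _ _) (by
      apply Continuous.intervalIntegrable
      fun_prop)
  set M := max (Real.exp (α * p.re)) (Real.exp (β * p.re)) with hM
  have hMle : ∀ t ∈ Icc α β, ‖Complex.exp ((t : ℂ) * p)‖ ≤ M := by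
    intro t ht
    rw [Complex.norm_exp]
    have e : ((t : ℂ) * p).re = t * p.re := by simp
    rw [e, hM]
    rcases le_total 0 p.re with h | h
    · apply le_max_of_le_right
      apply Real.exp_le_exp.2
      exact mul_le_mul_of_nonneg_right ht.2 h
    · apply le_max_of_le_left
      apply Real.exp_le_exp.2
      exact mul_le_mul_of_nonpos_right ht.1 h
  have hG0 : 0 ≤ G0 := (norm_nonneg _).trans (h0 α ⟨le_rfl, hαβ⟩)
  have hG1 : 0 ≤ G1 := (norm_nonneg _).trans (h1 α ⟨le_rfl, hαβ⟩)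
  have hM0 : 0 ≤ M := (norm_nonneg _).trans (hMle α ⟨le_rfl, hαβ⟩)
  have e1 : p * ∫ t in α..β, Complex.exp (t * p) * g t =
      ∫ t in α..β, g t * (p * Complex.exp ((t : ℂ) * p)) := by
    rw [← intervalIntegral.integral_const_mul]
    congr 1
    funext t
    ring
  rw [← norm_mul, e1, hibp]
  have b1 : ‖g β * Complex.exp ((β : ℂ) * p)‖ ≤ G0 * M := by
    rw [norm_mul]
    exact mul_le_mul (h0 β ⟨hαβ, le_rfl⟩) (hMle β ⟨hαβ, le_rfl⟩) (norm_nonneg _) hG0
  have b2 : ‖g α * Complex.exp ((α : ℂ) * p)‖ ≤ G0 * M := by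
    rw [norm_mul]
    exact mul_le_mul (h0 α ⟨le_rfl, hαβ⟩) (hMle α ⟨le_rfl, hαβ⟩) (norm_nonneg _) hG0
  have b3 : ‖∫ t in α..β, g' t * Complex.exp ((t : ℂ) * p)‖ ≤ G1 * M * |β - α| := by
    apply intervalIntegral.norm_integral_le_of_norm_le_const
    intro t ht
    rw [uIoc_of_le hαβ] at ht
    have ht' : t ∈ Icc α β := ⟨ht.1.le, ht.2⟩
    rw [norm_mul]
    exact mul_le_mul (h1 t ht') (hMle t ht') (norm_nonneg _) hG1
  rw [abs_of_nonneg (by linarith)] at b3
  calc _ ≤ ‖g β * Complex.exp ((β : ℂ) * p)‖ + ‖g α * Complex.exp ((α : ℂ) * p)‖ +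
        ‖∫ t in α..β, g' t * Complex.exp ((t : ℂ) * p)‖ :=
        (norm_sub_le _ _).trans (add_le_add (norm_sub_le _ _) le_rfl)
    _ ≤ G0 * M + G0 * M + G1 * M * (β - α) := add_le_add (add_le_add b1 b2) b3
    _ = _ := by ring

theorem max_exp_eq {b : ℝ} (hb : 0 ≤ b) (y : ℝ) :
    max (Real.exp (-b * y)) (Real.exp (b * y)) = Real.exp (b * |y|) := by
  rcases le_total 0 y with h | h
  · rw [abs_of_nonneg h, max_eq_right]
    apply Real.exp_le_exp.2
    nlinarith [mul_nonneg hb h]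
  · rw [abs_of_nonpos h, max_eq_left]
    · congr 1; ring
    · apply Real.exp_le_exp.2
      nlinarith [mul_nonneg hb (neg_nonneg.2 h)]

theorem integral_Ioo_eq_interval {b : ℝ} (hb : 0 ≤ b) (f : ℝ → ℂ) :
    ∫ t in Ioo (-b) b, f t = ∫ t in (-b)..b, f t := by
  rw [intervalIntegral.integral_of_le (by linarith), integral_Ioc_eq_integral_Ioo]

theorem mm_upper {b : ℝ} (hb : 0 ≤ b) (p : ℂ) (k : ℕ) :
    ‖p‖ * ‖mm b (p - Complex.I * k)‖ ≤ (2 + 2 * b * k) * Real.exp (b * |p.re|) := by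
  have hg : ∀ t : ℝ, HasDerivAt (fun t : ℝ => Complex.exp ((t : ℂ) * (-(Complex.I * k))))
      ((-(Complex.I * k)) * Complex.exp ((t : ℂ) * (-(Complex.I * k)))) t :=
    hasDerivAt_exp_mul _
  have hn : ∀ t : ℝ, ‖Complex.exp ((t : ℂ) * (-(Complex.I * k)))‖ = 1 := by
    intro t
    rw [Complex.norm_exp]
    simp
  have h := ibp_bound hg (by fun_prop) (α := -b) (β := b) (G0 := 1) (G1 := k) (by linarith)
    (fun t _ => (hn t).le) (fun t _ => by
      rw [norm_mul, hn t]
      simp) p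
  rw [max_exp_eq hb] at h
  have e : mm b (p - Complex.I * k) =
      ∫ t in (-b)..b, Complex.exp (t * p) * Complex.exp ((t : ℂ) * (-(Complex.I * k))) := by
    rw [mm, integral_Ioo_eq_interval hb]
    congr 1
    funext t
    rw [← Complex.exp_add]
    congr 1
    ring
  rw [e]
  refine h.trans (le_of_eq ?_)
  ring

theorem mm_lower {b : ℝ} (hb : 0 ≤ b) (p : ℂ) :
    |Real.sin (b * p.im)| * Real.exp (b * |p.re|) ≤ ‖p‖ * ‖mm b p‖ := by
  have hexp : ∀ t : ℝ, HasDerivAt (fun t : ℝ => Complex.exp ((t : ℂ) * p))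
      (p * Complex.exp ((t : ℂ) * p)) t := hasDerivAt_exp_mul p
  have h := intervalIntegral.integral_eq_sub_of_hasDerivAt (a := -b) (b := b)
    (fun t _ => hexp t) (by
      apply Continuous.intervalIntegrable
      fun_prop)
  rw [intervalIntegral.integral_const_mul] at h
  rw [← norm_mul, mm, integral_Ioo_eq_interval hb, h]
  have him : (Complex.exp ((b : ℂ) * p) - Complex.exp (((-b : ℝ) : ℂ) * p)).im =
      2 * Real.cosh (b * p.re) * Real.sin (b * p.im) := by
    rw [Complex.sub_im, Complex.exp_im, Complex.exp_im]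
    have e1 : ((b : ℂ) * p).re = b * p.re := by simp
    have e2 : ((b : ℂ) * p).im = b * p.im := by simp
    have e3 : (((-b : ℝ) : ℂ) * p).re = -(b * p.re) := by simp
    have e4 : (((-b : ℝ) : ℂ) * p).im = -(b * p.im) := by simp
    rw [e1, e2, e3, e4, Real.sin_neg, Real.cosh_eq]
    ring
  refine le_trans ?_ (Complex.abs_im_le_norm _)
  rw [him, abs_mul, mul_comm]
  apply mul_le_mul_of_nonneg_right _ (abs_nonneg _)
  have hc := Real.cosh_pos (b * p.re)
  have hc2 : 0 < 2 * Real.cosh (b * p.re) := by positivity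
  rw [abs_of_pos hc2, ← max_exp_eq hb, Real.cosh_eq]
  have h1 := Real.exp_pos (b * p.re)
  have h2 := Real.exp_pos (-b * p.re)
  have h3 : -(b * p.re) = -b * p.re := by ring
  rw [h3]
  apply max_le <;> linarith

/-- The linear part. -/
noncomputable def Lf (b : ℝ) (p : ℂ) : ℂ := ∫ t in Ioo (-b) b, (t * Complex.I) * Complex.exp (t * p)

theorem Lf_upper {b : ℝ} (hb : 0 ≤ b) (p : ℂ) :
    ‖p‖ * ‖Lf b p‖ ≤ 4 * b * Real.exp (b * |p.re|) := by
  have hg : ∀ t : ℝ, HasDerivAt (fun t : ℝ => (t : ℂ) * Complex.I) Complex.I t := by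
    intro t
    have := (Complex.ofRealCLM.hasDerivAt (x := t)).mul_const Complex.I
    simpa using this
  have h := ibp_bound hg (by fun_prop) (α := -b) (β := b) (G0 := b) (G1 := 1) (by linarith)
    (fun t ht => by
      rw [norm_mul, Complex.norm_I, mul_one, Complex.norm_real, Real.norm_eq_abs, abs_le]
      exact ht) (fun t _ => by
      simp) p
  rw [max_exp_eq hb] at h
  have e : Lf b p = ∫ t in (-b)..b, Complex.exp (t * p) * ((t : ℂ) * Complex.I) := by
    rw [Lf, integral_Ioo_eq_interval hb]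
    congr 1
    funext t
    ring
  rw [e]
  refine h.trans (le_of_eq ?_)
  ring

end Pool.Agent.Worm.B2
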