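import Mathlib
import Pool.Agent.Worm.B2.Data
import Pool.Agent.Worm.B2.Hol

/-! The part `l > q` of the relation. -/

open MeasureTheory Set Filter Topology
open scoped Real ENNReal Interval

namespace Pool.Agent.Worm.B2

/-- The integrand without the exponential `e^{σ (l - i t)}`. -/
noncomputable def g3 (Ψ : ℂ → ℂ) (p : ℝ × ℝ) : ℂ :=
  (Ψ (p.2 + p.1 * Complex.I) + p.1 * Complex.I * Complex.exp (p.2 + p.1 * Complex.I)) *
    Real.exp p.1 * Real.exp (-Real.exp p.2)

/-- The part `l > q`. -/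
noncomputable def T3 (b q : ℝ) (Ψ : ℂ → ℂ) (σ : ℂ) : ℂ :=
  ∫ p : ℝ × ℝ, g3 Ψ p * Complex.exp (σ * (p.2 - p.1 * Complex.I))
    ∂((volume.restrict (Ioo (-b) b)).prod (volume.restrict (Ioi q)))

theorem aesm_g3 {b : ℝ} {Ψ : ℂ → ℂ} (hf : DifferentiableOn ℂ Ψ {τ | |τ.im| < b})
    {A : Set ℝ} (hA : MeasurableSet A) (σ : ℂ) :
    AEStronglyMeasurable (fun p : ℝ × ℝ => g3 Ψ p * Complex.exp (σ * (p.2 - p.1 * Complex.I)))
      ((volume.restrict (Ioo (-b) b)).prod (volume.restrict A)) := by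
  unfold g3
  apply AEStronglyMeasurable.mul
  · apply AEStronglyMeasurable.mul
    · apply AEStronglyMeasurable.mul
      · apply AEStronglyMeasurable.add
        · exact aesm_strip hf hA
        · apply Continuous.aestronglyMeasurable
          fun_prop
      · apply Continuous.aestronglyMeasurable
        fun_prop
    · apply Continuous.aestronglyMeasurable
      fun_prop
  · apply Continuous.aestronglyMeasurable
    fun_prop

theorem norm_g3_le {b : ℝ} {Ψ : ℂ → ℂ} {n : ℝ → ℝ} {t l : ℝ} (ht : |t| < b)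
    (h : ‖Ψ (l + t * Complex.I)‖ ≤ Real.exp (3 / 4 * Real.exp l) * n t) (σ : ℂ) :
    ‖g3 Ψ (t, l) * Complex.exp (σ * (l - t * Complex.I))‖ ≤
      ((n t + 2 * b) * Real.exp (t * (1 + σ.im))) *
        (Real.exp (σ.re * l) * Real.exp (-(Real.exp l / 4))) := by
  have h1 : ‖(t : ℂ) * Complex.I * Complex.exp (l + t * Complex.I)‖ ≤
      2 * b * Real.exp (3 / 4 * Real.exp l) := by
    rw [norm_mul, norm_mul, Complex.norm_I, Complex.norm_real, Real.norm_eq_abs, mul_one,
      Complex.norm_exp]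
    have e : ((l : ℂ) + t * Complex.I).re = l := by simp
    rw [e]
    have h2 := Real.add_one_le_exp (3 / 4 * Real.exp l)
    have h3 := Real.exp_pos l
    have h4 : Real.exp l ≤ 2 * Real.exp (3 / 4 * Real.exp l) := by linarith
    have h5 : 0 ≤ |t| := abs_nonneg t
    calc |t| * Real.exp l ≤ b * (2 * Real.exp (3 / 4 * Real.exp l)) := by
          apply mul_le_mul ht.le h4 h3.le (h5.trans ht.le)
      _ = _ := by ring
  have h6 : ‖Ψ (l + t * Complex.I) + t * Complex.I * Complex.exp (l + t * Complex.I)‖ ≤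
      Real.exp (3 / 4 * Real.exp l) * (n t + 2 * b) := by
    refine (norm_add_le _ _).trans ?_
    linarith
  have h7 : ‖Complex.exp (σ * (l - t * Complex.I))‖ = Real.exp (σ.re * l) * Real.exp (t * σ.im) := by
    rw [Complex.norm_exp, ← Real.exp_add]
    congr 1
    simp
    ring
  unfold g3
  simp only
  rw [norm_mul, norm_mul, norm_mul, h7, Complex.norm_real, Complex.norm_real, Real.norm_eq_abs,
    Real.norm_eq_abs, abs_of_pos (Real.exp_pos _), abs_of_pos (Real.exp_pos _)]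
  have h8 : Real.exp (t * (1 + σ.im)) = Real.exp t * Real.exp (t * σ.im) := by
    rw [← Real.exp_add]; congr 1; ring
  have h9 : Real.exp (-(Real.exp l / 4)) = Real.exp (3 / 4 * Real.exp l) * Real.exp (-Real.exp l) := by
    rw [← Real.exp_add]; congr 1; ring
  rw [h8, h9]
  calc _ ≤ Real.exp (3 / 4 * Real.exp l) * (n t + 2 * b) * Real.exp t * Real.exp (-Real.exp l) *
        (Real.exp (σ.re * l) * Real.exp (t * σ.im)) := by
        gcongr
    _ = _ := by ring

theorem integrable_const_Ioo {a b c : ℝ} :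
    Integrable (fun _ : ℝ => c) (volume.restrict (Ioo a b)) := by
  have : Continuous fun _ : ℝ => c := continuous_const
  exact (this.integrableOn_Icc (a := a) (b := b)).mono_set Ioo_subset_Icc_self

theorem ae_mem_prod {b : ℝ} {P : ℝ → Prop} {A : Set ℝ} (hA : MeasurableSet A)
    (h : ∀ᵐ (t : ℝ) ∂(volume.restrict (Ioo (-b) b)), P t) :
    ∀ᵐ p : ℝ × ℝ ∂((volume.restrict (Ioo (-b) b)).prod (volume.restrict A)),
      P p.1 ∧ |p.1| < b ∧ p.2 ∈ A := by
  have h1 := (Measure.quasiMeasurePreserving_fst (μ := volume.restrict (Ioo (-b) b))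
    (ν := volume.restrict A)).ae h
  have h2 := (Measure.quasiMeasurePreserving_fst (μ := volume.restrict (Ioo (-b) b))
    (ν := volume.restrict A)).ae (self_mem_ae_restrict (measurableSet_Ioo (a := -b) (b := b)))
  have h3 := (Measure.quasiMeasurePreserving_snd (μ := volume.restrict (Ioo (-b) b))
    (ν := volume.restrict A)).ae (self_mem_ae_restrict hA)
  filter_upwards [h1, h2, h3] with p hp1 hp2 hp3
  exact ⟨hp1, abs_lt.2 hp2, hp3⟩

theorem integrableOn_exp_neg_Ioi' (q : ℝ) : IntegrableOn (fun l : ℝ => Real.exp (-l)) (Ioi q) :=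
  integrableOn_exp_neg_Ioi q

theorem integrable_T3 {b q : ℝ} {Ψ : ℂ → ℂ} {γ : ℕ → ℂ} (h : Data b q Ψ γ) (σ : ℂ) :
    Integrable (fun p : ℝ × ℝ => g3 Ψ p * Complex.exp (σ * (p.2 - p.1 * Complex.I)))
      ((volume.restrict (Ioo (-b) b)).prod (volume.restrict (Ioi q))) := by
  obtain ⟨n, hn0, hnm, hn, hbd⟩ := h.large
  obtain ⟨C, hC, hC2⟩ := exists_exp_bound σ.re q
  have hb := h.hb
  have hi1 : Integrable (fun t : ℝ => (n t + 2 * b) * Real.exp (b * |1 + σ.im|))
      (volume.restrict (Ioo (-b) b)) := by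
    apply Integrable.mul_const
    exact hn.add integrable_const_Ioo
  have hi2 : Integrable (fun l : ℝ => C * Real.exp (-l)) (volume.restrict (Ioi q)) :=
    (integrableOn_exp_neg_Ioi' q).const_mul C
  refine (hi1.mul_prod hi2).mono' (aesm_g3 h.hol measurableSet_Ioi σ) ?_
  filter_upwards [ae_mem_prod measurableSet_Ioi hbd] with p hp
  obtain ⟨h1, h2, h3⟩ := hp
  refine (norm_g3_le h2 (h1 p.2) σ).trans ?_
  have h4 : Real.exp (p.1 * (1 + σ.im)) ≤ Real.exp (b * |1 + σ.im|) := by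
    apply Real.exp_le_exp.2
    refine (le_abs_self _).trans ?_
    rw [abs_mul]
    exact mul_le_mul_of_nonneg_right h2.le (abs_nonneg _)
  have h5 := hC2 p.2 (le_of_lt h3)
  have h6 := hn0 p.1
  gcongr

theorem differentiable_T3 {b q : ℝ} {Ψ : ℂ → ℂ} {γ : ℕ → ℂ} (h : Data b q Ψ γ) (U : Set ℂ) :
    DifferentiableOn ℂ (T3 b q Ψ) U := by
  have : DifferentiableOn ℂ (T3 b q Ψ) univ := by
    apply differentiableOn_integral_exp isOpen_univ
    · apply Continuous.aestronglyMeasurable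
      fun_prop
    · intro σ _
      exact integrable_T3 h σ
  exact this.mono (subset_univ _)

/-- Bound of `T3` on the line `Re σ = -R`. -/
theorem norm_T3_le {b q : ℝ} {Ψ : ℂ → ℂ} {γ : ℕ → ℂ} (h : Data b q Ψ γ) :
    ∃ C, 0 ≤ C ∧ ∀ σ : ℂ, σ.re < 0 →
      ‖T3 b q Ψ σ‖ ≤ C * Real.exp (b * |1 + σ.im|) * (Real.exp (σ.re * q) / (-σ.re)) := by
  obtain ⟨n, hn0, hnm, hn, hbd⟩ := h.large
  have hb := h.hb
  have hi0 : Integrable (fun t : ℝ => (n t + 2 * b)) (volume.restrict (Ioo (-b) b)) := by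
    exact hn.add integrable_const_Ioo
  refine ⟨∫ t in Ioo (-b) b, (n t + 2 * b), ?_, ?_⟩
  · apply setIntegral_nonneg measurableSet_Ioo
    intro t _
    have := hn0 t
    positivity
  intro σ hσ
  have hi1 : Integrable (fun t : ℝ => (n t + 2 * b) * Real.exp (b * |1 + σ.im|))
      (volume.restrict (Ioo (-b) b)) := hi0.mul_const _
  have hi2 : Integrable (fun l : ℝ => Real.exp (σ.re * l)) (volume.restrict (Ioi q)) :=
    integrableOn_exp_mul_Ioi hσ q
  have h1 : ‖T3 b q Ψ σ‖ ≤ ∫ p : ℝ × ℝ, ((n p.1 + 2 * b) * Real.exp (b * |1 + σ.im|)) *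
      Real.exp (σ.re * p.2)
      ∂((volume.restrict (Ioo (-b) b)).prod (volume.restrict (Ioi q))) := by
    unfold T3
    refine norm_integral_le_of_norm_le (hi1.mul_prod hi2) ?_
    filter_upwards [ae_mem_prod measurableSet_Ioi hbd] with p hp
    obtain ⟨h1, h2, h3⟩ := hp
    refine (norm_g3_le h2 (h1 p.2) σ).trans ?_
    have h4 : Real.exp (p.1 * (1 + σ.im)) ≤ Real.exp (b * |1 + σ.im|) := by
      apply Real.exp_le_exp.2
      refine (le_abs_self _).trans ?_
      rw [abs_mul]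
      exact mul_le_mul_of_nonneg_right h2.le (abs_nonneg _)
    have h5 : Real.exp (σ.re * p.2) * Real.exp (-(Real.exp p.2 / 4)) ≤ Real.exp (σ.re * p.2) := by
      have : Real.exp (-(Real.exp p.2 / 4)) ≤ 1 := by
        rw [Real.exp_le_one_iff]
        have := Real.exp_pos p.2
        linarith
      nlinarith [Real.exp_pos (σ.re * p.2)]
    have h6 := hn0 p.1
    gcongr
  refine h1.trans (le_of_eq ?_)
  rw [integral_prod_mul (fun t : ℝ => (n t + 2 * b) * Real.exp (b * |1 + σ.im|))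
    (fun l : ℝ => Real.exp (σ.re * l)), integral_mul_const, integral_exp_mul_Ioi hσ]
  rw [neg_div, div_neg]

end Pool.Agent.Worm.B2
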