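import Mathlib
import Pool.Agent.Worm.B2.Data
import Pool.Agent.Worm.B2.Hol
import Pool.Agent.Worm.B2.Ibp
import Pool.Agent.Worm.B2.T3

/-! The vertical part of the shifted contour. -/

open MeasureTheory Set Filter Topology
open scoped Real ENNReal Interval

namespace Pool.Agent.Worm.B2

/-- The kernel of `i ∫_0^t`. -/
noncomputable def kk (θ t : ℝ) : ℂ :=
  if 0 < θ ∧ θ ≤ t then Complex.I else if t < θ ∧ θ ≤ 0 then -Complex.I else 0

theorem measurable_kk : Measurable fun p : ℝ × ℝ => kk p.1 p.2 := by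
  unfold kk
  apply Measurable.ite
  · exact (measurableSet_lt measurable_const measurable_fst).inter
      (measurableSet_le measurable_fst measurable_snd)
  · exact measurable_const
  · apply Measurable.ite
    · exact (measurableSet_lt measurable_snd measurable_fst).inter
        (measurableSet_le measurable_fst measurable_const)
    · exact measurable_const
    · exact measurable_const

theorem norm_kk_le (θ t : ℝ) : ‖kk θ t‖ ≤ 1 := by
  unfold kk
  split_ifs <;> simp

theorem integral_kk_left {b t : ℝ} (ht : |t| < b) (F : ℝ → ℂ) :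
    ∫ θ in Ioo (-b) b, kk θ t * F θ = Complex.I * ∫ θ in (0 : ℝ)..t, F θ := by
  have ht' := abs_lt.1 ht
  rcases le_total 0 t with h | h
  · have e : ∀ θ, kk θ t * F θ = (Ioc 0 t).indicator (fun θ => Complex.I * F θ) θ := by
      intro θ
      by_cases h1 : θ ∈ Ioc 0 t
      · rw [indicator_of_mem h1, kk, if_pos (mem_Ioc.1 h1)]
      · rw [indicator_of_notMem h1, kk, if_neg (fun h4 => h1 (mem_Ioc.2 h4)), if_neg, zero_mul]
        rintro ⟨h2, h3⟩
        linarith
    simp_rw [e]
    rw [setIntegral_indicator measurableSet_Ioc, inter_eq_self_of_subset_right,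
      integral_const_mul, intervalIntegral.integral_of_le h]
    intro θ hθ
    exact ⟨by linarith [hθ.1], by linarith [hθ.2]⟩
  · have e : ∀ θ, kk θ t * F θ = (Ioc t 0).indicator (fun θ => -Complex.I * F θ) θ := by
      intro θ
      by_cases h1 : θ ∈ Ioc t 0
      · rw [indicator_of_mem h1, kk, if_neg, if_pos (mem_Ioc.1 h1)]
        rintro ⟨h2, h3⟩
        linarith [h1.2]
      · rw [indicator_of_notMem h1, kk, if_neg, if_neg (fun h4 => h1 (mem_Ioc.2 h4)), zero_mul]
        rintro ⟨h2, h3⟩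
        linarith
    simp_rw [e]
    rw [setIntegral_indicator measurableSet_Ioc, inter_eq_self_of_subset_right,
      integral_const_mul, intervalIntegral.integral_of_ge h]
    · ring
    · intro θ hθ
      exact ⟨by linarith [hθ.1], by linarith [hθ.2, abs_nonneg t]⟩

theorem integral_kk_right_pos {b θ : ℝ} (h0 : 0 < θ) (hb : θ < b) (F : ℝ → ℂ) :
    ∫ t in Ioo (-b) b, kk θ t * F t = Complex.I * ∫ t in θ..b, F t := by
  have e : ∀ t, kk θ t * F t = (Ici θ).indicator (fun t => Complex.I * F t) t := by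
    intro t
    by_cases h1 : t ∈ Ici θ
    · rw [indicator_of_mem h1, kk, if_pos ⟨h0, h1⟩]
    · rw [indicator_of_notMem h1, kk, if_neg, if_neg, zero_mul]
      · rintro ⟨h2, h3⟩
        linarith
      · rintro ⟨h2, h3⟩
        exact h1 h3
  simp_rw [e]
  have hset : Ioo (-b) b ∩ Ici θ = Ico θ b := by
    ext t
    simp only [mem_inter_iff, mem_Ioo, mem_Ici, mem_Ico]
    constructor
    · rintro ⟨⟨h1, h2⟩, h3⟩
      exact ⟨h3, h2⟩
    · rintro ⟨h1, h2⟩
      exact ⟨⟨by linarith, h2⟩, h1⟩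
  rw [setIntegral_indicator measurableSet_Ici, hset, integral_const_mul,
    intervalIntegral.integral_of_le hb.le, integral_Ico_eq_integral_Ioo,
    integral_Ioc_eq_integral_Ioo]

theorem integral_kk_right_neg {b θ : ℝ} (h0 : θ ≤ 0) (hb : -b < θ) (F : ℝ → ℂ) :
    ∫ t in Ioo (-b) b, kk θ t * F t = -Complex.I * ∫ t in (-b)..θ, F t := by
  have e : ∀ t, kk θ t * F t = (Iio θ).indicator (fun t => -Complex.I * F t) t := by
    intro t
    by_cases h1 : t ∈ Iio θ
    · rw [indicator_of_mem h1, kk, if_neg, if_pos ⟨h1, h0⟩]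
      rintro ⟨h2, h3⟩
      linarith
    · rw [indicator_of_notMem h1, kk, if_neg, if_neg, zero_mul]
      · rintro ⟨h2, h3⟩
        exact h1 h2
      · rintro ⟨h2, h3⟩
        linarith
  simp_rw [e]
  have hset : Ioo (-b) b ∩ Iio θ = Ioo (-b) θ := by
    ext t
    simp only [mem_inter_iff, mem_Ioo, mem_Iio]
    constructor
    · rintro ⟨⟨h1, h2⟩, h3⟩
      exact ⟨h1, h3⟩
    · rintro ⟨h1, h2⟩
      exact ⟨⟨h1, by linarith⟩, h2⟩
  rw [setIntegral_indicator measurableSet_Iio, hset, integral_const_mul,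
    intervalIntegral.integral_of_le hb.le, integral_Ioc_eq_integral_Ioo]

/-- The oscillating factor. -/
noncomputable def ee (q θ t : ℝ) : ℂ := Complex.exp (-Complex.exp (q + (θ - t) * Complex.I))

theorem norm_ee_le {q : ℝ} (hq : q ≤ 0) (θ t : ℝ) : ‖ee q θ t‖ ≤ 3 := by
  unfold ee
  rw [Complex.norm_exp]
  have h1 : (-Complex.exp ((q : ℂ) + (θ - t) * Complex.I)).re ≤ 1 := by
    refine (Complex.re_le_norm _).trans ?_
    rw [norm_neg, Complex.norm_exp]
    have : ((q : ℂ) + (θ - t) * Complex.I).re = q := by simp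
    rw [this]
    exact Real.exp_le_one_iff.2 hq
  calc Real.exp _ ≤ Real.exp 1 := Real.exp_le_exp.2 h1
    _ ≤ 3 := Real.exp_one_lt_d9.le.trans (by norm_num)

theorem continuous_ee (q θ : ℝ) : Continuous (ee q θ) := by
  unfold ee
  fun_prop

theorem hasDerivAt_ee (q θ t : ℝ) :
    HasDerivAt (ee q θ) (ee q θ t * (Complex.I * Complex.exp (q + (θ - t) * Complex.I))) t := by
  have h1 : HasDerivAt (fun t : ℝ => ((q : ℂ) + (θ - t) * Complex.I)) (-Complex.I) t := by
    have := (((Complex.ofRealCLM.hasDerivAt (x := t)).const_sub (θ : ℂ)).mul_const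
      Complex.I).const_add (q : ℂ)
    simpa using this
  have h2 : HasDerivAt (fun t : ℝ => -Complex.exp ((q : ℂ) + (θ - t) * Complex.I))
      (-(Complex.exp ((q : ℂ) + (θ - t) * Complex.I) * -Complex.I)) t := h1.cexp.neg
  have h3 := h2.cexp
  unfold ee
  refine h3.congr_deriv ?_
  ring

theorem norm_ee'_le {q : ℝ} (hq : q ≤ 0) (θ t : ℝ) :
    ‖ee q θ t * (Complex.I * Complex.exp (q + (θ - t) * Complex.I))‖ ≤ 3 := by
  rw [norm_mul, norm_mul, Complex.norm_I, one_mul, Complex.norm_exp]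
  have : ((q : ℂ) + (θ - t) * Complex.I).re = q := by simp
  rw [this]
  have h1 := norm_ee_le hq θ t
  have h2 : Real.exp q ≤ 1 := Real.exp_le_one_iff.2 hq
  nlinarith [norm_nonneg (ee q θ t), Real.exp_pos q]

/-- The integrand without `e^{σ ..}`. -/
noncomputable def g2 (q : ℝ) (Ψ : ℂ → ℂ) (p : ℝ × ℝ) : ℂ :=
  kk p.1 p.2 * Ψ (q + p.1 * Complex.I) * (Complex.exp p.2 * ee q p.1 p.2)

/-- The vertical part. -/
noncomputable def T2 (b q : ℝ) (Ψ : ℂ → ℂ) (σ : ℂ) : ℂ :=
  ∫ p : ℝ × ℝ, g2 q Ψ p * Complex.exp (σ * (q + p.1 * Complex.I - 2 * p.2 * Complex.I))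
    ∂((volume.restrict (Ioo (-b) b)).prod (volume.restrict (Ioo (-b) b)))

theorem aesm_side {b : ℝ} {Ψ : ℂ → ℂ} (hf : DifferentiableOn ℂ Ψ {τ | |τ.im| < b}) (q : ℝ) :
    AEStronglyMeasurable (fun p : ℝ × ℝ => Ψ (q + p.1 * Complex.I))
      ((volume.restrict (Ioo (-b) b)).prod (volume.restrict (Ioo (-b) b))) := by
  have h1 : ContinuousOn (fun θ : ℝ => Ψ (q + θ * Complex.I)) (Ioo (-b) b) := by
    refine hf.continuousOn.comp (Continuous.continuousOn (by fun_prop)) ?_
    intro θ hθ
    show |((q : ℂ) + θ * Complex.I).im| < b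
    have : ((q : ℂ) + θ * Complex.I).im = θ := by simp
    rw [this, abs_lt]
    exact hθ
  have h2 := h1.aestronglyMeasurable (μ := volume) measurableSet_Ioo
  exact h2.comp_fst

theorem integrable_T2 {b q : ℝ} {Ψ : ℂ → ℂ} {γ : ℕ → ℂ} (h : Data b q Ψ γ) (σ : ℂ) :
    Integrable (fun p : ℝ × ℝ => g2 q Ψ p *
      Complex.exp (σ * (q + p.1 * Complex.I - 2 * p.2 * Complex.I)))
      ((volume.restrict (Ioo (-b) b)).prod (volume.restrict (Ioo (-b) b))) := by
  obtain ⟨n, hn0, hnm, hn, hbd⟩ := h.large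
  have hb := h.hb
  set K : ℝ := Real.exp (3 / 4 * Real.exp q) * (Real.exp b * 3) *
    Real.exp (|σ.re| * |q| + |σ.im| * (3 * b)) with hK
  have hi1 : Integrable n (volume.restrict (Ioo (-b) b)) := hn
  have hi2 : Integrable (fun _ : ℝ => K) (volume.restrict (Ioo (-b) b)) := integrable_const_Ioo
  refine (hi1.mul_prod hi2).mono' ?_ ?_
  · unfold g2
    apply AEStronglyMeasurable.mul
    · apply AEStronglyMeasurable.mul
      · exact measurable_kk.aestronglyMeasurable.mul (aesm_side h.hol q)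
      · apply Continuous.aestronglyMeasurable
        unfold ee
        fun_prop
    · apply Continuous.aestronglyMeasurable
      fun_prop
  filter_upwards [ae_mem_prod measurableSet_Ioo hbd] with p hp
  obtain ⟨h1, h2, h3⟩ := hp
  have h3' := abs_lt.2 h3
  have e1 : ‖Complex.exp (σ * (q + p.1 * Complex.I - 2 * p.2 * Complex.I))‖ ≤
      Real.exp (|σ.re| * |q| + |σ.im| * (3 * b)) := by
    rw [Complex.norm_exp]
    apply Real.exp_le_exp.2
    have : (σ * (q + p.1 * Complex.I - 2 * p.2 * Complex.I)).re =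
        σ.re * q + σ.im * (2 * p.2 - p.1) := by
      simp
      ring
    rw [this]
    have h5 : σ.re * q ≤ |σ.re| * |q| := by
      rw [← abs_mul]; exact le_abs_self _
    have h6 : σ.im * (2 * p.2 - p.1) ≤ |σ.im| * (3 * b) := by
      refine (le_abs_self _).trans ?_
      rw [abs_mul]
      apply mul_le_mul_of_nonneg_left _ (abs_nonneg _)
      rw [abs_le]
      have h7 := abs_lt.1 h2
      have h8 := abs_lt.1 h3'
      constructor <;> linarith [h7.1, h7.2, h8.1, h8.2]
    linarith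
  have e2 : ‖Complex.exp (p.2 : ℂ)‖ ≤ Real.exp b := by
    rw [Complex.norm_exp, Complex.ofReal_re]
    exact Real.exp_le_exp.2 h3.2.le
  have e3 := norm_ee_le h.hq p.1 p.2
  have e4 := norm_kk_le p.1 p.2
  have e5 := h1 q
  unfold g2
  rw [norm_mul, norm_mul, norm_mul, norm_mul]
  have hn := hn0 p.1
  calc _ ≤ 1 * (Real.exp (3 / 4 * Real.exp q) * n p.1) * (Real.exp b * 3) *
        Real.exp (|σ.re| * |q| + |σ.im| * (3 * b)) := by
        gcongr
    _ = n p.1 * K := by
        rw [hK]; ring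

theorem differentiable_T2 {b q : ℝ} {Ψ : ℂ → ℂ} {γ : ℕ → ℂ} (h : Data b q Ψ γ) (U : Set ℂ) :
    DifferentiableOn ℂ (T2 b q Ψ) U := by
  have : DifferentiableOn ℂ (T2 b q Ψ) univ := by
    apply differentiableOn_integral_exp isOpen_univ
    · apply Continuous.aestronglyMeasurable
      fun_prop
    · intro σ _
      exact integrable_T2 h σ
  exact this.mono (subset_univ _)

/-- `T2` as an iterated integral, `t` outside. -/
theorem T2_eq {b q : ℝ} {Ψ : ℂ → ℂ} {γ : ℕ → ℂ} (h : Data b q Ψ γ) (σ : ℂ) :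
    T2 b q Ψ σ = ∫ t in Ioo (-b) b, Complex.exp (t * (1 - 2 * Complex.I * σ)) *
      (Complex.I * ∫ θ in (0 : ℝ)..t, Ψ (q + θ * Complex.I) *
        Complex.exp (σ * (q + θ * Complex.I)) * ee q θ t) := by
  unfold T2
  rw [integral_prod_symm _ (integrable_T2 h σ)]
  apply setIntegral_congr_fun measurableSet_Ioo
  intro t ht
  simp only
  rw [← integral_kk_left (abs_lt.2 ht), ← integral_const_mul]
  congr 1
  funext θ
  unfold g2
  simp only
  have e : σ * (q + θ * Complex.I - 2 * t * Complex.I) =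
      σ * (q + θ * Complex.I) + (t * (1 - 2 * Complex.I * σ) - t) := by ring
  rw [e, Complex.exp_add, Complex.exp_sub]
  have := Complex.exp_ne_zero (t : ℂ)
  field_simp

theorem T2_integrable_outer {b q : ℝ} {Ψ : ℂ → ℂ} {γ : ℕ → ℂ} (h : Data b q Ψ γ) (σ : ℂ) :
    IntegrableOn (fun t : ℝ => Complex.exp (t * (1 - 2 * Complex.I * σ)) *
      (Complex.I * ∫ θ in (0 : ℝ)..t, Ψ (q + θ * Complex.I) *
        Complex.exp (σ * (q + θ * Complex.I)) * ee q θ t)) (Ioo (-b) b) := by
  have h1 := (integrable_T2 h σ).integral_prod_right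
  refine h1.congr ?_
  filter_upwards [self_mem_ae_restrict measurableSet_Ioo] with t ht
  rw [← integral_kk_left (abs_lt.2 ht), ← integral_const_mul]
  congr 1
  funext θ
  unfold g2
  simp only
  have e : σ * (q + θ * Complex.I - 2 * t * Complex.I) =
      σ * (q + θ * Complex.I) + (t * (1 - 2 * Complex.I * σ) - t) := by ring
  rw [e, Complex.exp_add, Complex.exp_sub]
  have := Complex.exp_ne_zero (t : ℂ)
  field_simp

end Pool.Agent.Worm.B2
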