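import Mathlib
import Pool.Agent.Worm.B2.T2

/-! The relation for `Re σ > 0`. -/

open MeasureTheory Set Filter Topology
open scoped Real ENNReal Interval

namespace Pool.Agent.Worm.B2

/-- The one-sided Mellin transform of `Ψ_N`. -/
noncomputable def MN (q : ℝ) (Ψ : ℂ → ℂ) (γ : ℕ → ℂ) (N : ℕ) (s : ℂ) : ℂ :=
  (∫ x in Iic q, Psub Ψ γ N (x : ℝ) * Complex.exp (s * (x : ℂ))) +
    ∑ j ∈ Finset.range N, γ j * (Complex.exp ((s + j + 1) * q) / (s + j + 1))

theorem integrableOn_Psub {b q : ℝ} {Ψ : ℂ → ℂ} {γ : ℕ → ℂ} (h : Data b q Ψ γ) (N : ℕ) {s : ℂ}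
    (hs : -((N : ℝ) + 1) < s.re) :
    IntegrableOn (fun x : ℝ => Psub Ψ γ N (x : ℝ) * Complex.exp (s * (x : ℂ))) (Iic q) := by
  have hb := h.hb
  obtain ⟨r, hr1, hr2⟩ : ∃ r : ℝ, -s.re < r ∧ r < N + 1 := exists_between (by linarith)
  obtain ⟨C, hC, hC2⟩ := h.ptw N r hr2 0 hb
  have hd := differentiableOn_Psub h.hol γ N
  have hf : DifferentiableOn ℂ (fun τ => Psub Ψ γ N τ * Complex.exp (s * τ)) {τ | |τ.im| < b} := by
    apply hd.mul
    apply Differentiable.differentiableOn
    fun_prop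
  have := integrableOn_line hf (q := q) (t := 0) (by simpa using hb) (C := C) (r := r + s.re)
    (by linarith) (fun l hl => by
      have h1 := hC2 (l : ℂ) (by simpa using hl) (by simp)
      simp only [Complex.ofReal_zero, zero_mul, add_zero]
      rw [norm_mul, Complex.norm_exp]
      have e : (s * (l : ℂ)).re = s.re * l := by simp
      rw [e]
      simp only [Complex.ofReal_re] at h1
      calc _ ≤ (C * Real.exp (r * l)) * Real.exp (s.re * l) :=
            mul_le_mul_of_nonneg_right h1 (Real.exp_pos _).le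
        _ = C * Real.exp ((r + s.re) * l) := by
            rw [mul_assoc, ← Real.exp_add]
            congr 2
            ring)
  simpa using this

theorem MN_zero (q : ℝ) (Ψ : ℂ → ℂ) (γ : ℕ → ℂ) (s : ℂ) :
    MN q Ψ γ 0 s = ∫ x in Iic q, Ψ (x : ℝ) * Complex.exp (s * (x : ℂ)) := by
  simp [MN, Psub_zero]

theorem MN_eq_zero {b q : ℝ} {Ψ : ℂ → ℂ} {γ : ℕ → ℂ} (h : Data b q Ψ γ) (N : ℕ) {s : ℂ}
    (hs : -1 < s.re) : MN q Ψ γ N s = MN q Ψ γ 0 s := by
  rw [MN_zero, MN]
  have hN : (0 : ℝ) ≤ N := by positivity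
  have h1 := integrableOn_Psub h 0 (s := s) (by simpa using hs)
  rw [Psub_zero] at h1
  have hj : ∀ j : ℕ, 0 < (s + j + 1).re := by
    intro j
    have : (0 : ℝ) ≤ j := by positivity
    simp
    linarith
  have h2 : ∀ j ∈ Finset.range N, IntegrableOn (fun x : ℝ => γ j *
      Complex.exp ((s + j + 1) * (x : ℂ))) (Iic q) := fun j _ =>
    (integrableOn_exp_mul_complex_Iic (hj j) q).const_mul _
  have e : ∀ x : ℝ, Psub Ψ γ N (x : ℝ) * Complex.exp (s * (x : ℂ)) =
      Ψ (x : ℝ) * Complex.exp (s * (x : ℂ)) -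
        ∑ j ∈ Finset.range N, γ j * Complex.exp ((s + j + 1) * (x : ℂ)) := by
    intro x
    rw [Psub, sub_mul, Finset.sum_mul]
    congr 1
    apply Finset.sum_congr rfl
    intro j _
    rw [mul_assoc, ← Complex.exp_add]
    congr 2
    ring
  simp_rw [e]
  rw [integral_sub h1 (integrable_finsetSum _ h2), integral_finsetSum _ h2]
  have e2 : ∀ j ∈ Finset.range N, ∫ x in Iic q, γ j * Complex.exp ((s + j + 1) * ((x : ℝ) : ℂ)) =
      γ j * (Complex.exp ((s + j + 1) * q) / (s + j + 1)) := by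
    intro j _
    rw [integral_const_mul, integral_exp_Iic' (hj j)]
  rw [Finset.sum_congr rfl e2]
  ring

/-- bound of the translates of `M_0`. -/
theorem norm_MN_add_le {b q : ℝ} {Ψ : ℂ → ℂ} {γ : ℕ → ℂ} (h : Data b q Ψ γ) {s : ℂ}
    (hs : -1 < s.re) (k : ℕ) :
    ‖MN q Ψ γ 0 (s + k)‖ ≤ ∫ x in Iic q, ‖Ψ (x : ℝ) * Complex.exp (s * (x : ℂ))‖ := by
  have h1 := integrableOn_Psub h 0 (s := s) (by simpa using hs)
  rw [Psub_zero] at h1
  rw [MN_zero]
  refine norm_integral_le_of_norm_le h1.norm ?_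
  filter_upwards [self_mem_ae_restrict measurableSet_Iic] with x hx
  have e : Complex.exp ((s + k) * (x : ℂ)) = Complex.exp (s * (x : ℂ)) *
      Complex.exp (k * (x : ℂ)) := by
    rw [← Complex.exp_add]
    congr 1
    ring
  rw [e, ← mul_assoc, norm_mul]
  exact mul_le_of_le_one_right (norm_nonneg _) (norm_exp_nat_mul_le h.hq hx k)

/-- The integrand of the relation on `l ≤ q`, at fixed `t`. -/
theorem left_part {b q : ℝ} {Ψ : ℂ → ℂ} {γ : ℕ → ℂ} (h : Data b q Ψ γ) {σ : ℂ} (hσ : 0 < σ.re)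
    {t : ℝ} (ht : |t| < b) :
    IntegrableOn (fun l : ℝ => g3 Ψ (t, l) * Complex.exp (σ * (l - t * Complex.I))) (Iic q) ∧
    ∫ l in Iic q, g3 Ψ (t, l) * Complex.exp (σ * (l - t * Complex.I)) =
      Complex.exp (t * (1 - 2 * Complex.I * σ)) *
        ∑' k : ℕ, (ek k : ℂ) * Complex.exp (-(t * Complex.I)) ^ k * MN q Ψ γ 0 (σ + k) +
      Complex.exp (t * (1 - 2 * Complex.I * σ)) *
        (Complex.I * ∫ θ in (0 : ℝ)..t, Ψ (q + θ * Complex.I) *
          Complex.exp (σ * (q + θ * Complex.I)) * ee q θ t) +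
      (t * Complex.I) * Complex.exp (t * (1 - Complex.I * σ + Complex.I)) * Sg q (σ + 1) := by
  have hb := h.hb
  have hq := h.hq
  obtain ⟨C, hC, hC2⟩ := h.ptw 0 0 (by norm_num) |t| ht
  rw [Psub_zero] at hC2
  set f : ℂ → ℂ := fun τ => Ψ τ * Complex.exp (σ * τ) *
    Complex.exp (-Complex.exp (τ - t * Complex.I)) with hf
  have hfd : DifferentiableOn ℂ f {τ | |τ.im| < b} := by
    apply DifferentiableOn.mul
    · apply h.hol.mul
      apply Differentiable.differentiableOn
      fun_prop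
    · apply Differentiable.differentiableOn
      fun_prop
  have hfb : ∀ τ : ℂ, τ.re ≤ q → |τ.im| ≤ |t| →
      ‖f τ‖ ≤ (C * Real.exp (|σ.im| * |t|) * 3) * Real.exp (σ.re * τ.re) := by
    intro τ h1 h2
    have h3 := hC2 τ h1 h2
    simp only [zero_mul, Real.exp_zero, mul_one] at h3
    have h4 : ‖Complex.exp (σ * τ)‖ ≤ Real.exp (|σ.im| * |t|) * Real.exp (σ.re * τ.re) := by
      rw [Complex.norm_exp, ← Real.exp_add]
      apply Real.exp_le_exp.2
      rw [Complex.mul_re]
      have : -(σ.im * τ.im) ≤ |σ.im| * |t| := by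
        refine (neg_le_abs _).trans ?_
        rw [abs_mul]
        exact mul_le_mul_of_nonneg_left h2 (abs_nonneg _)
      linarith
    have h5 : ‖Complex.exp (-Complex.exp (τ - t * Complex.I))‖ ≤ 3 := by
      rw [Complex.norm_exp]
      have h6 : (-Complex.exp (τ - t * Complex.I)).re ≤ 1 := by
        refine (Complex.re_le_norm _).trans ?_
        rw [norm_neg, Complex.norm_exp]
        have : (τ - t * Complex.I).re = τ.re := by simp
        rw [this]
        exact Real.exp_le_one_iff.2 (h1.trans hq)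
      calc Real.exp _ ≤ Real.exp 1 := Real.exp_le_exp.2 h6
        _ ≤ 3 := Real.exp_one_lt_d9.le.trans (by norm_num)
    rw [hf]
    simp only
    rw [norm_mul, norm_mul]
    calc _ ≤ C * (Real.exp (|σ.im| * |t|) * Real.exp (σ.re * τ.re)) * 3 := by
          gcongr
      _ = _ := by ring
  have hshift := shift hfd ht hσ hfb
  have hfi : IntegrableOn (fun l : ℝ => f (l + t * Complex.I)) (Iic q) :=
    integrableOn_line hfd ht hσ fun l hl => by
      have := hfb (l + t * Complex.I) (by simpa using hl) (by simp)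
      simpa using this
  -- the second piece
  have hgi : IntegrableOn (fun l : ℝ => Complex.exp ((σ + 1) * (l : ℂ)) *
      Complex.exp (-Complex.exp l)) (Iic q) := by
    have h1 : IntegrableOn (fun l : ℝ => Complex.exp ((σ + 1) * (l : ℂ))) (Iic q) :=
      integrableOn_exp_mul_complex_Iic (by simp; linarith) q
    refine (h1.norm.mul_const 3).mono' ?_ ?_
    · apply Continuous.aestronglyMeasurable
      fun_prop
    · filter_upwards [self_mem_ae_restrict measurableSet_Iic] with l hl
      rw [norm_mul]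
      apply mul_le_mul_of_nonneg_left _ (norm_nonneg _)
      have := norm_ee_le (q := l) (le_trans hl hq) 0 0
      simpa [ee] using this
  have hsplit : ∀ l : ℝ, g3 Ψ (t, l) * Complex.exp (σ * (l - t * Complex.I)) =
      Complex.exp (t * (1 - 2 * Complex.I * σ)) * f (l + t * Complex.I) +
      (t * Complex.I) * Complex.exp (t * (1 - Complex.I * σ + Complex.I)) *
        (Complex.exp ((σ + 1) * (l : ℂ)) * Complex.exp (-Complex.exp l)) := by
    intro l
    have e1 : (l : ℂ) + t * Complex.I - t * Complex.I = l := by ring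
    have e2 : Complex.exp (t * (1 - 2 * Complex.I * σ)) * Complex.exp (σ * (l + t * Complex.I)) =
        Complex.exp t * Complex.exp (σ * (l - t * Complex.I)) := by
      rw [← Complex.exp_add, ← Complex.exp_add]
      congr 1
      ring
    have e3 : Complex.exp (t * (1 - Complex.I * σ + Complex.I)) * Complex.exp ((σ + 1) * (l : ℂ)) =
        Complex.exp (l + t * Complex.I) * (Complex.exp t * Complex.exp (σ * (l - t * Complex.I))) := by
      rw [← Complex.exp_add, ← Complex.exp_add, ← Complex.exp_add]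
      congr 1
      ring
    rw [hf]
    unfold g3
    simp only [e1, Complex.ofReal_exp, Complex.ofReal_neg]
    linear_combination (-(Ψ (l + t * Complex.I) * Complex.exp (-Complex.exp l))) * e2 -
      (t * Complex.I * Complex.exp (-Complex.exp l)) * e3
  have hi1 := hfi.const_mul (Complex.exp (t * (1 - 2 * Complex.I * σ)))
  have hi2 := hgi.const_mul ((t * Complex.I) * Complex.exp (t * (1 - Complex.I * σ + Complex.I)))
  refine ⟨?_, ?_⟩
  · simp_rw [hsplit]
    exact hi1.add hi2
  simp_rw [hsplit]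
  rw [integral_add hi1 hi2, integral_const_mul, integral_const_mul, hshift]
  have hSg : ∫ l in Iic q, Complex.exp ((σ + 1) * ((l : ℝ) : ℂ)) * Complex.exp (-Complex.exp l) =
      Sg q (σ + 1) := integral_Sg hq (by simp; linarith)
  rw [hSg]
  have hser : ∫ x in Iic q, f (x : ℝ) =
      ∑' k : ℕ, (ek k : ℂ) * Complex.exp (-(t * Complex.I)) ^ k * MN q Ψ γ 0 (σ + k) := by
    have ha : IntegrableOn (fun x : ℝ => Ψ (x : ℝ) * Complex.exp (σ * (x : ℂ))) (Iic q) := by
      have := integrableOn_Psub h 0 (s := σ) (by push_cast; linarith)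
      rwa [Psub_zero] at this
    have h1 := hasSum_laplace hq ha (ω := Complex.exp (-(t * Complex.I))) (by
      rw [Complex.norm_exp]
      simp)
    have e1 : (fun k : ℕ => (ek k : ℂ) * Complex.exp (-(t * Complex.I)) ^ k *
        ∫ x in Iic q, Ψ (x : ℝ) * Complex.exp (σ * (x : ℂ)) * Complex.exp (k * (x : ℂ))) =
        fun k : ℕ => (ek k : ℂ) * Complex.exp (-(t * Complex.I)) ^ k * MN q Ψ γ 0 (σ + k) := by
      funext k
      rw [MN_zero]
      congr 2
      funext x
      rw [mul_assoc, ← Complex.exp_add]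
      congr 2
      ring
    rw [e1] at h1
    rw [h1.tsum_eq]
    congr 1
    funext x
    rw [hf]
    simp only
    congr 2
    rw [← Complex.exp_add]
    congr 2
    ring
  rw [hser]
  have hside : ∀ θ : ℝ, f (q + θ * Complex.I) = Ψ (q + θ * Complex.I) *
      Complex.exp (σ * (q + θ * Complex.I)) * ee q θ t := by
    intro θ
    rw [hf]
    unfold ee
    simp only
    congr 4
    ring
  simp_rw [hside]
  ring

end Pool.Agent.Worm.B2
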