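import Mathlib
import Pool.Agent.Worm.B2.Rel

/-! The relation for `Re σ > 0`, assembled. -/

open MeasureTheory Set Filter Topology
open scoped Real ENNReal Interval

namespace Pool.Agent.Worm.B2

theorem integrableOn_A1 {b q : ℝ} {Ψ : ℂ → ℂ} {γ : ℕ → ℂ} (h : Data b q Ψ γ) {σ : ℂ}
    (hσ : 0 < σ.re) :
    IntegrableOn (fun t : ℝ => Complex.exp (t * (1 - 2 * Complex.I * σ)) *
        ∑' k : ℕ, (ek k : ℂ) * Complex.exp (-(t * Complex.I)) ^ k * MN q Ψ γ 0 (σ + k))
      (Ioo (-b) b) := by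
  apply integrableOn_Ioo_of_continuous
  apply Continuous.mul (by fun_prop)
  apply continuous_tsum (u := fun k : ℕ => ((k.factorial : ℝ))⁻¹ *
    ∫ x in Iic q, ‖Ψ (x : ℝ) * Complex.exp (σ * (x : ℂ))‖)
  · intro k
    fun_prop
  · exact summable_inv_factorial.mul_right _
  · intro k t
    rw [norm_mul, norm_mul, norm_ek, norm_pow]
    have h1 : ‖Complex.exp (-((t : ℂ) * Complex.I))‖ = 1 := by
      rw [Complex.norm_exp]
      simp
    rw [h1, one_pow, mul_one]
    exact mul_le_mul_of_nonneg_left (norm_MN_add_le h (by linarith) k) (by positivity)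

theorem integrableOn_A3 (b : ℝ) (p c : ℂ) :
    IntegrableOn (fun t : ℝ => (t * Complex.I) * Complex.exp (t * p) * c) (Ioo (-b) b) := by
  apply integrableOn_Ioo_of_continuous
  fun_prop

theorem integral_add4 {μ : Measure ℝ} {f1 f2 f3 f4 : ℝ → ℂ} (h1 : Integrable f1 μ)
    (h2 : Integrable f2 μ) (h3 : Integrable f3 μ) (h4 : Integrable f4 μ) :
    ∫ t, (f1 t + f2 t + f3 t + f4 t) ∂μ =
      (∫ t, f1 t ∂μ) + (∫ t, f2 t ∂μ) + (∫ t, f3 t ∂μ) + ∫ t, f4 t ∂μ := by
  have e1 := integral_add ((h1.add h2).add h3) h4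
  have e2 := integral_add (h1.add h2) h3
  have e3 := integral_add h1 h2
  simp only [Pi.add_apply] at e1 e2 e3
  rw [e1, e2, e3]

theorem rel_pos {b q : ℝ} {Ψ : ℂ → ℂ} {γ : ℕ → ℂ} (h : Data b q Ψ γ) {σ : ℂ} (hσ : 0 < σ.re) :
    (∑' k : ℕ, (ek k : ℂ) * mm b (1 - 2 * Complex.I * σ - Complex.I * k) * MN q Ψ γ 0 (σ + k)) +
      Lf b (1 - Complex.I * σ + Complex.I) * Sg q (σ + 1) + T2 b q Ψ σ + T3 b q Ψ σ = 0 := by
  have hb := h.hb
  have h0 := h.rel σ hσ
  have hT3 := integrable_T3 h σ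
  have hT3a := hT3.prod_right_ae
  have hT3i := hT3.integral_prod_left
  -- the inner integral
  have hinner : ∀ᵐ (t : ℝ) ∂(volume.restrict (Ioo (-b) b)), (∫ l : ℝ,
      (Ψ (l + t * Complex.I) + t * Complex.I * Complex.exp (l + t * Complex.I)) *
        Complex.exp (σ * (l - t * Complex.I)) * Real.exp t * Real.exp (-Real.exp l)) =
      (Complex.exp (t * (1 - 2 * Complex.I * σ)) *
        ∑' k : ℕ, (ek k : ℂ) * Complex.exp (-(t * Complex.I)) ^ k * MN q Ψ γ 0 (σ + k)) +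
      (Complex.exp (t * (1 - 2 * Complex.I * σ)) *
        (Complex.I * ∫ θ in (0 : ℝ)..t, Ψ (q + θ * Complex.I) *
          Complex.exp (σ * (q + θ * Complex.I)) * ee q θ t)) +
      ((t * Complex.I) * Complex.exp (t * (1 - Complex.I * σ + Complex.I)) * Sg q (σ + 1)) +
      ∫ l in Ioi q, g3 Ψ (t, l) * Complex.exp (σ * (l - t * Complex.I)) := by
    filter_upwards [hT3a, self_mem_ae_restrict measurableSet_Ioo] with t h1 h2
    obtain ⟨h3, h4⟩ := left_part h hσ (abs_lt.2 h2)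
    rw [← h4]
    have h5 := intervalIntegral.integral_Iic_add_Ioi h3 h1
    rw [h5]
    congr 1
    funext l
    unfold g3
    ring
  rw [integral_congr_ae hinner] at h0
  have h6 := integral_add4 (integrableOn_A1 h hσ) (T2_integrable_outer h σ)
    (integrableOn_A3 b (1 - Complex.I * σ + Complex.I) (Sg q (σ + 1))) hT3i
  have h7 := h6.symm.trans h0
  rw [← T2_eq h σ,
    integral_series hb (M := fun k : ℕ => MN q Ψ γ 0 (σ + k))
      (B := ∫ x in Iic q, ‖Ψ (x : ℝ) * Complex.exp (σ * (x : ℂ))‖)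
      (fun k => norm_MN_add_le h (by linarith) k), integral_mul_const] at h7
  have hT : T3 b q Ψ σ = ∫ t in Ioo (-b) b, ∫ l in Ioi q, g3 Ψ (t, l) *
      Complex.exp (σ * (l - t * Complex.I)) := by
    unfold T3
    rw [integral_prod _ hT3]
  rw [hT, Lf]
  dsimp only at h7
  linear_combination h7

end Pool.Agent.Worm.B2
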