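import Mathlib
import Pool.Agent.Worm.B2.Rel2

/-! Analytic continuation of the relation. -/

open MeasureTheory Set Filter Topology
open scoped Real ENNReal Interval

namespace Pool.Agent.Worm.B2

theorem differentiableOn_series {V : Set ℂ} {F : ℕ → ℂ → ℂ}
    (hF : ∀ k, DifferentiableOn ℂ (F k) V)
    (hloc : ∀ σ₀ ∈ V, ∃ W : Set ℂ, IsOpen W ∧ σ₀ ∈ W ∧ W ⊆ V ∧ ∃ B : ℝ, ∀ k, ∀ σ ∈ W,
      ‖F k σ‖ ≤ B) :
    DifferentiableOn ℂ (fun σ => ∑' k : ℕ, (ek k : ℂ) * F k σ) V := by
  intro σ₀ hσ₀
  obtain ⟨W, hW, h1, h2, B, hB⟩ := hloc σ₀ hσ₀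
  have h3 : DifferentiableOn ℂ (fun σ => ∑' k : ℕ, (ek k : ℂ) * F k σ) W := by
    apply Complex.differentiableOn_tsum_of_summable_norm (u := fun k : ℕ =>
      ((k.factorial : ℝ))⁻¹ * B) (summable_inv_factorial.mul_right _) _ hW
    · intro k σ hσ
      rw [norm_mul, norm_ek]
      exact mul_le_mul_of_nonneg_left (hB k σ hσ) (by positivity)
    · intro k
      exact ((hF k).mono h2).const_mul _
  exact (h3.differentiableAt (hW.mem_nhds h1)).differentiableWithinAt

theorem differentiable_mm (b : ℝ) : Differentiable ℂ (mm b) := by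
  rw [← differentiableOn_univ]
  have h := differentiableOn_integral_exp (ν := volume.restrict (Ioo (-b) b)) (h := fun _ => 1)
    (φ := fun t : ℝ => (t : ℂ)) (U := univ) isOpen_univ
    (Continuous.aestronglyMeasurable (by fun_prop)) (fun σ _ => by
      apply integrableOn_Ioo_of_continuous
      fun_prop)
  refine h.congr fun p _ => ?_
  unfold mm
  congr 1
  funext t
  rw [one_mul, mul_comm]

theorem differentiable_Lf (b : ℝ) : Differentiable ℂ (Lf b) := by
  rw [← differentiableOn_univ]
  have h := differentiableOn_integral_exp (ν := volume.restrict (Ioo (-b) b))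
    (h := fun t : ℝ => (t : ℂ) * Complex.I)
    (φ := fun t : ℝ => (t : ℂ)) (U := univ) isOpen_univ
    (Continuous.aestronglyMeasurable (by fun_prop)) (fun σ _ => by
      apply integrableOn_Ioo_of_continuous
      fun_prop)
  refine h.congr fun p _ => ?_
  unfold Lf
  congr 1
  funext t
  rw [mul_comm p]

theorem norm_mm_le {b : ℝ} (hb : 0 ≤ b) (p : ℂ) : ‖mm b p‖ ≤ 2 * b * Real.exp (b * |p.re|) := by
  rw [mm, integral_Ioo_eq_interval hb]
  have := intervalIntegral.norm_integral_le_of_norm_le_const (a := -b) (b := b)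
    (f := fun t : ℝ => Complex.exp (t * p)) (C := Real.exp (b * |p.re|)) (by
      intro t ht
      rw [uIoc_of_le (by linarith)] at ht
      rw [Complex.norm_exp]
      apply Real.exp_le_exp.2
      have e : ((t : ℂ) * p).re = t * p.re := by simp
      rw [e]
      refine (le_abs_self _).trans ?_
      rw [abs_mul]
      apply mul_le_mul_of_nonneg_right _ (abs_nonneg _)
      rw [abs_le]
      exact ⟨ht.1.le, ht.2⟩)
  rw [show b - -b = 2 * b by ring, abs_of_nonneg (show (0 : ℝ) ≤ 2 * b by linarith)] at this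
  linarith

/-- The domain. -/
def VN (N : ℕ) : Set ℂ := {σ | -((N : ℝ) + 1) < σ.re ∧ σ.im ≠ 0}

theorem isOpen_VN (N : ℕ) : IsOpen (VN N) := by
  apply IsOpen.inter
  · exact isOpen_lt continuous_const Complex.continuous_re
  · exact isOpen_ne_fun Complex.continuous_im continuous_const

theorem ne_zero_of_im {z : ℂ} (h : z.im ≠ 0) : z ≠ 0 := by
  rintro rfl
  simp at h

theorem differentiableOn_MN {b q : ℝ} {Ψ : ℂ → ℂ} {γ : ℕ → ℂ} (h : Data b q Ψ γ) (N : ℕ) :
    DifferentiableOn ℂ (MN q Ψ γ N) (VN N) := by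
  unfold MN
  apply DifferentiableOn.add
  · have hU : IsOpen {s : ℂ | -((N : ℝ) + 1) < s.re} :=
      isOpen_lt continuous_const Complex.continuous_re
    have h1 := differentiableOn_integral_exp (ν := volume.restrict (Iic q))
      (h := fun x : ℝ => Psub Ψ γ N (x : ℝ)) (φ := fun x : ℝ => (x : ℂ)) hU
      (Continuous.aestronglyMeasurable (by fun_prop)) (fun s hs => integrableOn_Psub h N hs)
    exact h1.mono fun s hs => hs.1
  · apply DifferentiableOn.fun_sum
    intro j _
    apply DifferentiableOn.const_mul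
    apply DifferentiableOn.div
    · apply Differentiable.differentiableOn
      fun_prop
    · apply Differentiable.differentiableOn
      fun_prop
    · intro s hs
      apply ne_zero_of_im
      have := hs.2
      simpa using this

theorem norm_MN_le {b q : ℝ} {Ψ : ℂ → ℂ} {γ : ℕ → ℂ} (h : Data b q Ψ γ) (N : ℕ) {a c : ℝ}
    (ha : -((N : ℝ) + 1) < a) (hc : 0 < c) :
    ∃ B : ℝ, ∀ s : ℂ, a ≤ s.re → c ≤ |s.im| → ‖MN q Ψ γ N s‖ ≤ B := by
  have hq := h.hq
  refine ⟨(∫ x in Iic q, ‖Psub Ψ γ N (x : ℝ) * Complex.exp ((a : ℂ) * (x : ℂ))‖) +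
    ∑ j ∈ Finset.range N, ‖γ j‖ * (Real.exp ((a + j + 1) * q) / c), ?_⟩
  intro s hs1 hs2
  unfold MN
  refine (norm_add_le _ _).trans (add_le_add ?_ ?_)
  · have h1 := integrableOn_Psub h N (s := (a : ℂ)) (by simpa using ha)
    refine norm_integral_le_of_norm_le h1.norm ?_
    filter_upwards [self_mem_ae_restrict measurableSet_Iic] with x hx
    rw [norm_mul, norm_mul]
    apply mul_le_mul_of_nonneg_left _ (norm_nonneg _)
    rw [Complex.norm_exp, Complex.norm_exp]
    apply Real.exp_le_exp.2
    have e1 : (s * (x : ℂ)).re = s.re * x := by simp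
    have e2 : ((a : ℂ) * (x : ℂ)).re = a * x := by simp
    rw [e1, e2]
    exact mul_le_mul_of_nonpos_right hs1 (le_trans hx hq)
  · refine (norm_sum_le _ _).trans (Finset.sum_le_sum fun j _ => ?_)
    rw [norm_mul, norm_div]
    apply mul_le_mul_of_nonneg_left _ (norm_nonneg _)
    apply div_le_div₀ (Real.exp_pos _).le _ hc
    · refine hs2.trans ?_
      have := Complex.abs_im_le_norm (s + j + 1)
      simpa using this
    · rw [Complex.norm_exp]
      apply Real.exp_le_exp.2
      have e1 : ((s + j + 1) * (q : ℂ)).re = (s.re + j + 1) * q := by simp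
      rw [e1]
      apply mul_le_mul_of_nonpos_right _ hq
      linarith

theorem differentiableOn_Sg {q : ℝ} (hq : q ≤ 0) : DifferentiableOn ℂ (Sg q) {z | z.im ≠ 0} := by
  unfold Sg
  apply differentiableOn_series
  · intro k
    apply DifferentiableOn.div
    · apply Differentiable.differentiableOn
      fun_prop
    · apply Differentiable.differentiableOn
      fun_prop
    · intro s hs
      apply ne_zero_of_im
      have : s.im ≠ 0 := hs
      simpa using this
  · intro σ₀ hσ₀
    have h0 : 0 < |σ₀.im| := abs_pos.2 hσ₀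
    refine ⟨{σ | σ₀.re - 1 < σ.re ∧ |σ₀.im| / 2 < |σ.im|}, ?_, ?_, ?_,
      Real.exp ((σ₀.re - 1) * q) / (|σ₀.im| / 2), ?_⟩
    · apply IsOpen.inter
      · exact isOpen_lt continuous_const Complex.continuous_re
      · exact isOpen_lt continuous_const Complex.continuous_im.abs
    · constructor <;> linarith
    · intro σ hσ
      show σ.im ≠ 0
      intro h1
      have := hσ.2
      rw [h1, abs_zero] at this
      linarith
    · intro k σ hσ
      rw [norm_div]
      apply div_le_div₀ (Real.exp_pos _).le _ (by positivity)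
      · refine hσ.2.le.trans ?_
        have := Complex.abs_im_le_norm (σ + k)
        simpa using this
      · rw [Complex.norm_exp]
        apply Real.exp_le_exp.2
        have e1 : ((σ + k) * (q : ℂ)).re = (σ.re + k) * q := by simp
        rw [e1]
        apply mul_le_mul_of_nonpos_right _ hq
        have h1 := hσ.1
        have h2 : (0 : ℝ) ≤ k := by positivity
        linarith

/-- The sum of the horizontal parts. -/
noncomputable def E1 (b q : ℝ) (Ψ : ℂ → ℂ) (γ : ℕ → ℂ) (N : ℕ) (σ : ℂ) : ℂ :=
  ∑' k : ℕ, (ek k : ℂ) * (mm b (1 - 2 * Complex.I * σ - Complex.I * k) * MN q Ψ γ N (σ + k))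

theorem differentiableOn_E1 {b q : ℝ} {Ψ : ℂ → ℂ} {γ : ℕ → ℂ} (h : Data b q Ψ γ) (N : ℕ) :
    DifferentiableOn ℂ (E1 b q Ψ γ N) (VN N) := by
  have hb := h.hb
  unfold E1
  apply differentiableOn_series
  · intro k
    apply DifferentiableOn.mul
    · apply Differentiable.differentiableOn
      apply (differentiable_mm b).comp
      fun_prop
    · refine (differentiableOn_MN h N).comp (t := VN N) (Differentiable.differentiableOn
        (by fun_prop)) ?_
      intro σ hσ
      have h2 : (0 : ℝ) ≤ k := by positivity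
      refine ⟨?_, ?_⟩
      · have := hσ.1
        simp only [Complex.add_re, Complex.natCast_re]
        linarith
      · have := hσ.2
        simpa using this
  · intro σ₀ hσ₀
    have h0 : 0 < |σ₀.im| := abs_pos.2 hσ₀.2
    set a : ℝ := (σ₀.re + -((N : ℝ) + 1)) / 2 with ha
    have ha1 : -((N : ℝ) + 1) < a := by
      have := hσ₀.1
      rw [ha]
      linarith
    have ha2 : a < σ₀.re := by
      have := hσ₀.1
      rw [ha]
      linarith
    obtain ⟨B, hB⟩ := norm_MN_le h N (c := |σ₀.im| / 2) ha1 (by positivity)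
    refine ⟨{σ | (a < σ.re ∧ |σ₀.im| / 2 < |σ.im|) ∧ |σ.im| < |σ₀.im| + 1}, ?_, ?_, ?_,
      2 * b * Real.exp (b * (1 + 2 * (|σ₀.im| + 1))) * B, ?_⟩
    · apply IsOpen.inter
      · apply IsOpen.inter
        · exact isOpen_lt continuous_const Complex.continuous_re
        · exact isOpen_lt continuous_const Complex.continuous_im.abs
      · exact isOpen_lt Complex.continuous_im.abs continuous_const
    · refine ⟨⟨ha2, by linarith⟩, by linarith⟩
    · intro σ hσ
      refine ⟨lt_trans ha1 hσ.1.1, ?_⟩
      intro h1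
      have := hσ.1.2
      rw [h1, abs_zero] at this
      linarith
    · intro k σ hσ
      rw [norm_mul]
      have h1 := norm_mm_le hb.le (1 - 2 * Complex.I * σ - Complex.I * k)
      have h2 := hB (σ + k) (by
        have h2 : (0 : ℝ) ≤ k := by positivity
        have := hσ.1.1
        simp only [Complex.add_re, Complex.natCast_re]
        linarith) (by
        have := hσ.1.2.le
        simpa using this)
      have e : (1 - 2 * Complex.I * σ - Complex.I * k).re = 1 + 2 * σ.im := by simp
      rw [e] at h1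
      have h3 : |1 + 2 * σ.im| ≤ 1 + 2 * (|σ₀.im| + 1) := by
        have h4 := hσ.2
        have h5 := abs_add_le 1 (2 * σ.im)
        rw [abs_one, abs_mul, abs_two] at h5
        linarith
      have h4 : ‖mm b (1 - 2 * Complex.I * σ - Complex.I * k)‖ ≤
          2 * b * Real.exp (b * (1 + 2 * (|σ₀.im| + 1))) := by
        refine h1.trans ?_
        gcongr
      exact mul_le_mul h4 h2 (norm_nonneg _) (by positivity)

/-- The full left-hand side. -/
noncomputable def RR (b q : ℝ) (Ψ : ℂ → ℂ) (γ : ℕ → ℂ) (N : ℕ) (σ : ℂ) : ℂ :=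
  E1 b q Ψ γ N σ + Lf b (1 - Complex.I * σ + Complex.I) * Sg q (σ + 1) + T2 b q Ψ σ + T3 b q Ψ σ

theorem differentiableOn_RR {b q : ℝ} {Ψ : ℂ → ℂ} {γ : ℕ → ℂ} (h : Data b q Ψ γ) (N : ℕ) :
    DifferentiableOn ℂ (RR b q Ψ γ N) (VN N) := by
  unfold RR
  apply DifferentiableOn.add
  · apply DifferentiableOn.add
    · apply DifferentiableOn.add
      · exact differentiableOn_E1 h N
      · apply DifferentiableOn.mul
        · apply Differentiable.differentiableOn
          apply (differentiable_Lf b).comp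
          fun_prop
        · refine (differentiableOn_Sg h.hq).comp (Differentiable.differentiableOn
            (by fun_prop)) ?_
          intro σ hσ
          have := hσ.2
          show (σ + 1).im ≠ 0
          simpa using this
    · exact differentiable_T2 h _
  · exact differentiable_T3 h _

theorem RR_pos {b q : ℝ} {Ψ : ℂ → ℂ} {γ : ℕ → ℂ} (h : Data b q Ψ γ) (N : ℕ) {σ : ℂ}
    (hσ : 0 < σ.re) : RR b q Ψ γ N σ = 0 := by
  have h1 := rel_pos h hσ
  unfold RR E1
  rw [← h1]
  congr 3
  apply tsum_congr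
  intro k
  have e := MN_eq_zero h N (s := σ + k) (by
    have : (0 : ℝ) ≤ k := by positivity
    simp only [Complex.add_re, Complex.natCast_re]
    linarith)
  rw [e]
  ring

theorem RR_zero {b q : ℝ} {Ψ : ℂ → ℂ} {γ : ℕ → ℂ} (h : Data b q Ψ γ) (N : ℕ) {σ : ℂ}
    (hσ : σ ∈ VN N) : RR b q Ψ γ N σ = 0 := by
  have hN : (0 : ℝ) ≤ N := by positivity
  have hopen : ∀ ε : ℝ, IsOpen {z : ℂ | -((N : ℝ) + 1) < z.re ∧ 0 < ε * z.im} := by
    intro ε
    apply IsOpen.inter
    · exact isOpen_lt continuous_const Complex.continuous_re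
    · exact isOpen_lt continuous_const (continuous_const.mul Complex.continuous_im)
  have hconv : ∀ ε : ℝ, Convex ℝ {z : ℂ | -((N : ℝ) + 1) < z.re ∧ 0 < ε * z.im} := by
    intro ε x hx y hy a b ha hb hab
    refine ⟨?_, ?_⟩
    · simp only [Complex.add_re, Complex.real_smul, Complex.mul_re, Complex.ofReal_re,
        Complex.ofReal_im, zero_mul, sub_zero]
      have h1 := hx.1
      have h2 := hy.1
      have : -((N : ℝ) + 1) = a * -((N : ℝ) + 1) + b * -((N : ℝ) + 1) := by
        rw [← add_mul, hab, one_mul]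
      rw [this]
      rcases ha.eq_or_lt with h3 | h3
      · rw [← h3] at hab ⊢
        have hb1 : b = 1 := by linarith
        rw [hb1]
        linarith
      · have h4 := mul_lt_mul_of_pos_left h1 h3
        have h5 := mul_le_mul_of_nonneg_left h2.le hb
        linarith
    · simp only [Complex.add_im, Complex.real_smul, Complex.mul_im, Complex.ofReal_re,
        Complex.ofReal_im, zero_mul, add_zero]
      have h1 := hx.2
      have h2 := hy.2
      rcases ha.eq_or_lt with h3 | h3
      · rw [← h3] at hab ⊢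
        have hb1 : b = 1 := by linarith
        rw [hb1]
        linarith
      · have h4 := mul_pos h3 h1
        have h5 := mul_nonneg hb h2.le
        nlinarith
  have hmain : ∀ ε : ℝ, ε ≠ 0 → 0 < ε * σ.im → RR b q Ψ γ N σ = 0 := by
    intro ε hε hεσ
    have hsub : {z : ℂ | -((N : ℝ) + 1) < z.re ∧ 0 < ε * z.im} ⊆ VN N := by
      intro z hz
      refine ⟨hz.1, ?_⟩
      intro h1
      have := hz.2
      rw [h1, mul_zero] at this
      exact lt_irrefl _ this
    have hana : AnalyticOnNhd ℂ (RR b q Ψ γ N) {z : ℂ | -((N : ℝ) + 1) < z.re ∧ 0 < ε * z.im} :=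
      ((differentiableOn_RR h N).mono hsub).analyticOnNhd (hopen ε)
    set z₀ : ℂ := ⟨1, ε⟩ with hz₀
    have hz₀m : z₀ ∈ {z : ℂ | -((N : ℝ) + 1) < z.re ∧ 0 < ε * z.im} := by
      refine ⟨?_, ?_⟩
      · show -((N : ℝ) + 1) < 1
        linarith
      · show 0 < ε * ε
        exact mul_self_pos.2 hε
    have hev : RR b q Ψ γ N =ᶠ[𝓝 z₀] 0 := by
      have : {z : ℂ | 0 < z.re} ∈ 𝓝 z₀ :=
        (isOpen_lt continuous_const Complex.continuous_re).mem_nhds (by
          show (0 : ℝ) < 1
          norm_num)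
      filter_upwards [this] with z hz
      exact RR_pos h N hz
    exact hana.eqOn_zero_of_preconnected_of_eventuallyEq_zero (hconv ε).isPreconnected hz₀m hev
      ⟨hσ.1, hεσ⟩
  exact hmain σ.im hσ.2 (mul_self_pos.2 hσ.2)

end Pool.Agent.Worm.B2
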