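import Mathlib
import Pool.Agent.Worm.B2.T2

/-! The bound of the vertical part. -/

open MeasureTheory Set Filter Topology
open scoped Real ENNReal Interval

namespace Pool.Agent.Worm.B2

theorem real_ineq_pos {b θ ξ : ℝ} (h0 : 0 < θ) (hb : θ < b) :
    Real.exp (-(ξ * θ)) * max (Real.exp (θ * (1 + 2 * ξ))) (Real.exp (b * (1 + 2 * ξ))) ≤
      Real.exp (2 * b) * Real.exp (b * |1 + 2 * ξ|) * Real.exp (-(|ξ| * |θ|)) := by
  rw [abs_of_pos h0, ← Real.exp_add, ← Real.exp_add]
  have hb0 : 0 < b := h0.trans hb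
  rcases le_total 0 (1 + 2 * ξ) with h | h
  · rw [abs_of_nonneg h, max_eq_right (Real.exp_le_exp.2 (mul_le_mul_of_nonneg_right hb.le h)),
      ← Real.exp_add]
    apply Real.exp_le_exp.2
    rcases le_total 0 ξ with h1 | h1
    · rw [abs_of_nonneg h1]
      nlinarith [mul_nonneg h1 h0.le]
    · rw [abs_of_nonpos h1]
      nlinarith [mul_nonneg h h0.le, mul_nonneg (neg_nonneg.2 h1) h0.le]
  · have h1 : ξ ≤ 0 := by linarith
    rw [abs_of_nonpos h, abs_of_nonpos h1,
      max_eq_left (Real.exp_le_exp.2 (mul_le_mul_of_nonpos_right hb.le h)), ← Real.exp_add]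
    apply Real.exp_le_exp.2
    nlinarith [mul_nonneg (neg_nonneg.2 h1) h0.le, mul_nonneg (neg_nonneg.2 h1) hb0.le,
      mul_nonneg (neg_nonneg.2 h) (sub_nonneg.2 hb.le), mul_nonneg (neg_nonneg.2 h) h0.le]

theorem real_ineq_neg {b θ ξ : ℝ} (h0 : θ ≤ 0) (hb : -b < θ) :
    Real.exp (-(ξ * θ)) * max (Real.exp (-b * (1 + 2 * ξ))) (Real.exp (θ * (1 + 2 * ξ))) ≤
      Real.exp (2 * b) * Real.exp (b * |1 + 2 * ξ|) * Real.exp (-(|ξ| * |θ|)) := by
  rw [abs_of_nonpos h0, ← Real.exp_add, ← Real.exp_add]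
  have hb0 : 0 < b := by linarith
  have h0' : 0 ≤ -θ := by linarith
  rcases le_total 0 (1 + 2 * ξ) with h | h
  · rw [abs_of_nonneg h, max_eq_right (Real.exp_le_exp.2 (mul_le_mul_of_nonneg_right hb.le h)),
      ← Real.exp_add]
    apply Real.exp_le_exp.2
    rcases le_total 0 ξ with h1 | h1
    · rw [abs_of_nonneg h1]
      nlinarith [mul_nonneg h1 h0', mul_nonneg h1 hb0.le]
    · rw [abs_of_nonpos h1]
      nlinarith [mul_nonneg h h0', mul_nonneg (neg_nonneg.2 h1) h0', mul_nonneg h hb0.le]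
  · have h1 : ξ ≤ 0 := by linarith
    rw [abs_of_nonpos h, abs_of_nonpos h1,
      max_eq_left (Real.exp_le_exp.2 (mul_le_mul_of_nonpos_right hb.le h)), ← Real.exp_add]
    apply Real.exp_le_exp.2
    nlinarith [mul_nonneg (neg_nonneg.2 h1) h0', mul_nonneg (neg_nonneg.2 h1) hb0.le,
      mul_nonneg (neg_nonneg.2 h) h0']

theorem continuousOn_side {b : ℝ} {Ψ : ℂ → ℂ} (hf : DifferentiableOn ℂ Ψ {τ | |τ.im| < b}) (q : ℝ) :
    ContinuousOn (fun θ : ℝ => Ψ (q + θ * Complex.I)) (Ioo (-b) b) := by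
  refine hf.continuousOn.comp (Continuous.continuousOn (by fun_prop)) ?_
  intro θ hθ
  show |((q : ℂ) + θ * Complex.I).im| < b
  have : ((q : ℂ) + θ * Complex.I).im = θ := by simp
  rw [this, abs_lt]
  exact hθ

theorem integral_exp_abs_le {b : ℝ} (hb : 0 < b) {x : ℝ} (hx : 0 ≤ x) :
    (1 + x) * ∫ θ in Ioo (-b) b, Real.exp (-(x * |θ|)) ≤ 2 * b + 2 := by
  have hI : ∫ θ in Ioo (-b) b, Real.exp (-(x * |θ|)) ≤ 2 * b := by
    calc ∫ θ in Ioo (-b) b, Real.exp (-(x * |θ|)) ≤ ∫ θ in Ioo (-b) b, (1 : ℝ) := by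
          apply integral_mono_of_nonneg
          · exact Eventually.of_forall fun θ => (Real.exp_pos _).le
          · exact integrable_const_Ioo
          · refine Eventually.of_forall fun θ => ?_
            simp only
            rw [Real.exp_le_one_iff]
            have := mul_nonneg hx (abs_nonneg θ)
            linarith
      _ = 2 * b := by
          simp
          rw [max_eq_left (by linarith)]
          ring
  rcases hx.eq_or_lt with h | h
  · rw [← h] at hI ⊢
    linarith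
  · have h2 : x * ∫ θ in Ioo (-b) b, Real.exp (-(x * |θ|)) ≤ 2 := by
      have hint : IntegrableOn (fun θ : ℝ => Real.exp (-x * θ)) (Ioi 0) :=
        integrableOn_exp_mul_Ioi (by linarith) 0
      have h3 : ∫ θ : ℝ, Real.exp (-x * |θ|) = 2 / x := by
        rw [integral_comp_abs (f := fun θ => Real.exp (-x * θ)),
          integral_exp_mul_Ioi (by linarith) 0]
        simp
        ring
      have h5 : Integrable (fun θ : ℝ => Real.exp (-x * |θ|)) := by
        by_contra hcon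
        rw [integral_undef hcon] at h3
        have : 0 < 2 / x := by positivity
        linarith
      have h4 : ∫ θ in Ioo (-b) b, Real.exp (-(x * |θ|)) ≤ ∫ θ : ℝ, Real.exp (-x * |θ|) := by
        have e : (fun θ : ℝ => Real.exp (-(x * |θ|))) = fun θ : ℝ => Real.exp (-x * |θ|) := by
          funext θ
          congr 1
          ring
        rw [e]
        exact setIntegral_le_integral h5 (Eventually.of_forall fun θ => (Real.exp_pos _).le)
      rw [h3] at h4
      calc x * ∫ θ in Ioo (-b) b, Real.exp (-(x * |θ|)) ≤ x * (2 / x) :=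
            mul_le_mul_of_nonneg_left h4 hx
        _ = 2 := by field_simp
    linarith

theorem side_decay {b q : ℝ} {Ψ : ℂ → ℂ} {γ : ℕ → ℂ} (h : Data b q Ψ γ) :
    ∃ C, 0 ≤ C ∧ ∀ x : ℝ, 0 ≤ x →
      IntegrableOn (fun θ : ℝ => ‖Ψ (q + θ * Complex.I)‖ * Real.exp (-(x * |θ|))) (Ioo (-b) b) ∧
      ∫ θ in Ioo (-b) b, ‖Ψ (q + θ * Complex.I)‖ * Real.exp (-(x * |θ|)) ≤ C / (1 + x) := by
  obtain ⟨n, hn0, hnm, hn, hbd⟩ := h.large
  have hb := h.hb
  obtain ⟨C0, hC0, hC0'⟩ := h.ptw 0 0 (by norm_num) (b / 2) (by linarith)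
  rw [Psub_zero] at hC0'
  set c1 := Real.exp (3 / 4 * Real.exp q) with hc1
  set K := ∫ θ in Ioo (-b) b, n θ with hK
  have hK0 : 0 ≤ K := setIntegral_nonneg measurableSet_Ioo fun t _ => hn0 t
  refine ⟨C0 * (2 * b + 2) + c1 * K * (1 + 2 / b), by positivity, ?_⟩
  intro x hx
  have hpt : ∀ᵐ (θ : ℝ) ∂(volume.restrict (Ioo (-b) b)),
      ‖Ψ (q + θ * Complex.I)‖ * Real.exp (-(x * |θ|)) ≤
        C0 * Real.exp (-(x * |θ|)) + c1 * n θ * Real.exp (-(x * (b / 2))) := by
    filter_upwards [hbd] with θ hθ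
    have hnθ := hn0 θ
    rcases le_total |θ| (b / 2) with h1 | h1
    · have h2 := hC0' (q + θ * Complex.I) (by simp) (by simpa using h1)
      simp only [zero_mul, Real.exp_zero, mul_one] at h2
      have h3 : 0 ≤ c1 * n θ * Real.exp (-(x * (b / 2))) := by positivity
      have h4 := mul_le_mul_of_nonneg_right h2 (Real.exp_pos (-(x * |θ|))).le
      linarith
    · have h2 := hθ q
      have h3 : Real.exp (-(x * |θ|)) ≤ Real.exp (-(x * (b / 2))) := by
        apply Real.exp_le_exp.2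
        have := mul_le_mul_of_nonneg_left h1 hx
        linarith
      have h4 : 0 ≤ C0 * Real.exp (-(x * |θ|)) := by positivity
      have h5 : ‖Ψ (q + θ * Complex.I)‖ * Real.exp (-(x * |θ|)) ≤
          c1 * n θ * Real.exp (-(x * (b / 2))) :=
        mul_le_mul h2 h3 (Real.exp_pos _).le (by positivity)
      linarith
  have hi1 : Integrable (fun θ : ℝ => Real.exp (-(x * |θ|))) (volume.restrict (Ioo (-b) b)) := by
    have : Continuous fun θ : ℝ => Real.exp (-(x * |θ|)) := by fun_prop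
    exact (this.integrableOn_Icc (a := -b) (b := b)).mono_set Ioo_subset_Icc_self
  have hi2 : Integrable n (volume.restrict (Ioo (-b) b)) := hn
  have hi3 : Integrable (fun θ : ℝ => C0 * Real.exp (-(x * |θ|)) +
      c1 * n θ * Real.exp (-(x * (b / 2)))) (volume.restrict (Ioo (-b) b)) :=
    (hi1.const_mul C0).add ((hi2.const_mul c1).mul_const _)
  have hmeas : AEStronglyMeasurable (fun θ : ℝ => ‖Ψ (q + θ * Complex.I)‖ *
      Real.exp (-(x * |θ|))) (volume.restrict (Ioo (-b) b)) := by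
    apply AEStronglyMeasurable.mul
    · exact ((continuousOn_side h.hol q).aestronglyMeasurable measurableSet_Ioo).norm
    · apply Continuous.aestronglyMeasurable
      fun_prop
  have hint : IntegrableOn (fun θ : ℝ => ‖Ψ (q + θ * Complex.I)‖ * Real.exp (-(x * |θ|)))
      (Ioo (-b) b) := by
    refine hi3.mono' hmeas ?_
    filter_upwards [hpt] with θ hθ
    rw [Real.norm_eq_abs, abs_of_nonneg (by positivity)]
    exact hθ
  refine ⟨hint, ?_⟩
  rw [le_div_iff₀ (by linarith)]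
  have h1 : ∫ θ in Ioo (-b) b, ‖Ψ (q + θ * Complex.I)‖ * Real.exp (-(x * |θ|)) ≤
      C0 * (∫ θ in Ioo (-b) b, Real.exp (-(x * |θ|))) + c1 * K * Real.exp (-(x * (b / 2))) := by
    calc _ ≤ ∫ θ in Ioo (-b) b, (C0 * Real.exp (-(x * |θ|)) +
          c1 * n θ * Real.exp (-(x * (b / 2)))) := integral_mono_ae hint hi3 hpt
      _ = _ := by
          rw [integral_add (hi1.const_mul C0) ((hi2.const_mul c1).mul_const _),
            integral_const_mul, integral_mul_const, integral_const_mul]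
  have h2 := integral_exp_abs_le hb hx
  have h3 : (1 + x) * Real.exp (-(x * (b / 2))) ≤ 1 + 2 / b := by
    have h4 := Real.add_one_le_exp (x * (b / 2))
    have h5 : Real.exp (-(x * (b / 2))) = (Real.exp (x * (b / 2)))⁻¹ := Real.exp_neg _
    have hxb : 0 ≤ x * (b / 2) := by positivity
    rw [h5, ← div_eq_mul_inv, div_le_iff₀ (Real.exp_pos _)]
    have h6 : x = (x * (b / 2)) * (2 / b) := by field_simp
    have h7 : 0 < 2 / b := by positivity
    have h8 : (1 : ℝ) ≤ Real.exp (x * (b / 2)) := by linarith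
    have h9 : x * (b / 2) ≤ Real.exp (x * (b / 2)) := by linarith
    calc 1 + x = 1 + (x * (b / 2)) * (2 / b) := by rw [← h6]
      _ ≤ Real.exp (x * (b / 2)) + Real.exp (x * (b / 2)) * (2 / b) :=
          add_le_add h8 (mul_le_mul_of_nonneg_right h9 h7.le)
      _ = _ := by ring
  set J := ∫ θ in Ioo (-b) b, Real.exp (-(x * |θ|)) with hJ
  calc _ ≤ (C0 * J + c1 * K * Real.exp (-(x * (b / 2)))) * (1 + x) :=
        mul_le_mul_of_nonneg_right h1 (by linarith)
    _ = C0 * ((1 + x) * J) + c1 * K * ((1 + x) * Real.exp (-(x * (b / 2)))) := by ring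
    _ ≤ C0 * (2 * b + 2) + c1 * K * (1 + 2 / b) := by
        apply add_le_add
        · exact mul_le_mul_of_nonneg_left h2 hC0
        · exact mul_le_mul_of_nonneg_left h3 (by positivity)

theorem inner_bound {b q : ℝ} (hb : 0 < b) (hq : q ≤ 0) {θ : ℝ} (hθ : |θ| < b) (σ : ℂ) :
    Real.exp (-(σ.im * θ)) * (‖1 - 2 * Complex.I * σ‖ *
      ‖∫ t in Ioo (-b) b, kk θ t * (Complex.exp (t * (1 - 2 * Complex.I * σ)) * ee q θ t)‖) ≤
      (6 + 6 * b) * (Real.exp (2 * b) * Real.exp (b * |1 + 2 * σ.im|) *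
        Real.exp (-(|σ.im| * |θ|))) := by
  have hθ' := abs_lt.1 hθ
  have hre : (1 - 2 * Complex.I * σ).re = 1 + 2 * σ.im := by
    simp
  rcases le_or_gt θ 0 with h0 | h0
  · rw [integral_kk_right_neg h0 hθ'.1, norm_mul, norm_neg, Complex.norm_I, one_mul]
    have h1 := ibp_bound (hasDerivAt_ee q θ) (by unfold ee; fun_prop) (α := -b) (β := θ)
      (G0 := 3) (G1 := 3) hθ'.1.le (fun t _ => norm_ee_le hq θ t)
      (fun t _ => norm_ee'_le hq θ t) (1 - 2 * Complex.I * σ)
    rw [hre] at h1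
    have h2 := real_ineq_neg (ξ := σ.im) h0 hθ'.1
    have h3 : (2 * 3 + 3 * (θ - -b)) ≤ 6 + 6 * b := by linarith [hθ'.2]
    have h4 : 0 ≤ max (Real.exp (-b * (1 + 2 * σ.im))) (Real.exp (θ * (1 + 2 * σ.im))) :=
      le_max_of_le_left (Real.exp_pos _).le
    calc _ ≤ Real.exp (-(σ.im * θ)) * ((6 + 6 * b) *
          max (Real.exp (-b * (1 + 2 * σ.im))) (Real.exp (θ * (1 + 2 * σ.im)))) := by
          apply mul_le_mul_of_nonneg_left _ (Real.exp_pos _).le
          exact h1.trans (mul_le_mul_of_nonneg_right h3 h4)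
      _ = (6 + 6 * b) * (Real.exp (-(σ.im * θ)) *
          max (Real.exp (-b * (1 + 2 * σ.im))) (Real.exp (θ * (1 + 2 * σ.im)))) := by ring
      _ ≤ _ := mul_le_mul_of_nonneg_left h2 (by positivity)
  · rw [integral_kk_right_pos h0 hθ'.2, norm_mul, Complex.norm_I, one_mul]
    have h1 := ibp_bound (hasDerivAt_ee q θ) (by unfold ee; fun_prop) (α := θ) (β := b)
      (G0 := 3) (G1 := 3) hθ'.2.le (fun t _ => norm_ee_le hq θ t)
      (fun t _ => norm_ee'_le hq θ t) (1 - 2 * Complex.I * σ)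
    rw [hre] at h1
    have h2 := real_ineq_pos (ξ := σ.im) h0 hθ'.2
    have h3 : (2 * 3 + 3 * (b - θ)) ≤ 6 + 6 * b := by linarith
    have h4 : 0 ≤ max (Real.exp (θ * (1 + 2 * σ.im))) (Real.exp (b * (1 + 2 * σ.im))) :=
      le_max_of_le_left (Real.exp_pos _).le
    calc _ ≤ Real.exp (-(σ.im * θ)) * ((6 + 6 * b) *
          max (Real.exp (θ * (1 + 2 * σ.im))) (Real.exp (b * (1 + 2 * σ.im)))) := by
          apply mul_le_mul_of_nonneg_left _ (Real.exp_pos _).le
          exact h1.trans (mul_le_mul_of_nonneg_right h3 h4)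
      _ = (6 + 6 * b) * (Real.exp (-(σ.im * θ)) *
          max (Real.exp (θ * (1 + 2 * σ.im))) (Real.exp (b * (1 + 2 * σ.im)))) := by ring
      _ ≤ _ := mul_le_mul_of_nonneg_left h2 (by positivity)

/-- The bound of `T2`. -/
theorem norm_T2_le {b q : ℝ} {Ψ : ℂ → ℂ} {γ : ℕ → ℂ} (h : Data b q Ψ γ) :
    ∃ C, 0 ≤ C ∧ ∀ σ : ℂ, ‖1 - 2 * Complex.I * σ‖ * ‖T2 b q Ψ σ‖ ≤
      C * Real.exp (σ.re * q) * Real.exp (b * |1 + 2 * σ.im|) / (1 + |σ.im|) := by
  obtain ⟨C, hC, hC2⟩ := side_decay h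
  have hb := h.hb
  refine ⟨(6 + 6 * b) * Real.exp (2 * b) * C, by positivity, ?_⟩
  intro σ
  obtain ⟨hint, hle⟩ := hC2 |σ.im| (abs_nonneg _)
  unfold T2
  rw [integral_prod _ (integrable_T2 h σ), ← norm_mul, ← integral_const_mul]
  have hinner : ∀ θ ∈ Ioo (-b) b, ‖(1 - 2 * Complex.I * σ) * ∫ t in Ioo (-b) b, g2 q Ψ (θ, t) *
      Complex.exp (σ * (q + θ * Complex.I - 2 * t * Complex.I))‖ ≤
      ((6 + 6 * b) * Real.exp (2 * b) * Real.exp (σ.re * q) * Real.exp (b * |1 + 2 * σ.im|)) *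
      (‖Ψ (q + θ * Complex.I)‖ * Real.exp (-(|σ.im| * |θ|))) := by
    intro θ hθ
    have e : ∫ t in Ioo (-b) b, g2 q Ψ (θ, t) *
        Complex.exp (σ * (q + θ * Complex.I - 2 * t * Complex.I)) =
        (Ψ (q + θ * Complex.I) * Complex.exp (σ * (q + θ * Complex.I))) *
        ∫ t in Ioo (-b) b, kk θ t * (Complex.exp (t * (1 - 2 * Complex.I * σ)) * ee q θ t) := by
      rw [← integral_const_mul]
      congr 1
      funext t
      unfold g2
      simp only
      have e2 : σ * (q + θ * Complex.I - 2 * t * Complex.I) =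
          σ * (q + θ * Complex.I) + (t * (1 - 2 * Complex.I * σ) - t) := by ring
      rw [e2, Complex.exp_add, Complex.exp_sub]
      have := Complex.exp_ne_zero (t : ℂ)
      field_simp
    rw [e, norm_mul, norm_mul, norm_mul]
    have e3 : ‖Complex.exp (σ * (q + θ * Complex.I))‖ =
        Real.exp (σ.re * q) * Real.exp (-(σ.im * θ)) := by
      rw [Complex.norm_exp, ← Real.exp_add]
      congr 1
      simp
      ring
    rw [e3]
    have h4 := inner_bound hb h.hq (abs_lt.2 hθ) σ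
    set A := ‖Ψ (q + θ * Complex.I)‖ with hA
    have hA0 : 0 ≤ A := norm_nonneg _
    calc _ = (A * Real.exp (σ.re * q)) * (Real.exp (-(σ.im * θ)) * (‖1 - 2 * Complex.I * σ‖ *
          ‖∫ t in Ioo (-b) b, kk θ t * (Complex.exp (t * (1 - 2 * Complex.I * σ)) *
            ee q θ t)‖)) := by ring
      _ ≤ (A * Real.exp (σ.re * q)) * ((6 + 6 * b) * (Real.exp (2 * b) *
          Real.exp (b * |1 + 2 * σ.im|) * Real.exp (-(|σ.im| * |θ|)))) :=
          mul_le_mul_of_nonneg_left h4 (by positivity)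
      _ = _ := by ring
  have h1 := norm_integral_le_of_norm_le (μ := volume.restrict (Ioo (-b) b))
    (hint.const_mul ((6 + 6 * b) * Real.exp (2 * b) * Real.exp (σ.re * q) *
      Real.exp (b * |1 + 2 * σ.im|))) (by
      filter_upwards [self_mem_ae_restrict measurableSet_Ioo] with θ hθ
      exact hinner θ hθ)
  refine h1.trans ?_
  rw [integral_const_mul]
  calc _ ≤ ((6 + 6 * b) * Real.exp (2 * b) * Real.exp (σ.re * q) *
        Real.exp (b * |1 + 2 * σ.im|)) * (C / (1 + |σ.im|)) :=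
        mul_le_mul_of_nonneg_left hle (by positivity)
    _ = _ := by ring

end Pool.Agent.Worm.B2
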