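import Mathlib
import Pool.Agent.Worm.B2.Cont
import Pool.Agent.Worm.B2.T2b

/-! The estimate on the line `Re σ = -R`. -/

open MeasureTheory Set Filter Topology
open scoped Real ENNReal Interval

namespace Pool.Agent.Worm.B2

theorem dist_nat {N : ℕ} {κ R : ℝ} (h1 : N + κ ≤ R) (h2 : R ≤ N + 1 - κ) (m : ℕ) :
    κ ≤ |(m : ℝ) - R| := by
  rcases Nat.lt_or_ge N m with h | h
  · have : (N : ℝ) + 1 ≤ m := by exact_mod_cast h
    refine le_trans ?_ (le_abs_self _)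
    linarith
  · have : (m : ℝ) ≤ N := by exact_mod_cast h
    refine le_trans ?_ (neg_le_abs _)
    linarith

theorem inv_norm_le {κ R : ℝ} (hκ : 0 < κ) {σ : ℂ} (hσ : σ.re = -R) {m : ℕ}
    (hm : κ ≤ |(m : ℝ) - R|) : 1 / ‖σ + m‖ ≤ (1 / κ + 1) / (1 + |σ.im|) := by
  have h1 : κ ≤ ‖σ + m‖ := by
    refine hm.trans ?_
    have := Complex.abs_re_le_norm (σ + m)
    simp only [Complex.add_re, Complex.natCast_re, hσ] at this
    rwa [neg_add_eq_sub] at this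
  have h2 : |σ.im| ≤ ‖σ + m‖ := by
    have := Complex.abs_im_le_norm (σ + m)
    simpa using this
  have h0 : 0 < ‖σ + m‖ := lt_of_lt_of_le hκ h1
  rw [div_le_div_iff₀ h0 (by positivity)]
  have h3 : 1 ≤ 1 / κ * ‖σ + m‖ := by
    rw [one_div, ← div_eq_inv_mul, le_div_iff₀ hκ]
    linarith
  linarith

theorem exp_neg_mul_le {b x : ℝ} (hb : 0 < b) (hx : 0 ≤ x) :
    (1 + x) * Real.exp (-(b * x)) ≤ 1 + 1 / b := by
  have h4 := Real.add_one_le_exp (b * x)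
  rw [Real.exp_neg, ← div_eq_mul_inv, div_le_iff₀ (Real.exp_pos _)]
  have h5 : 0 ≤ b * x := by positivity
  have h6 : x = (b * x) * (1 / b) := by field_simp
  have h8 : (1 : ℝ) ≤ Real.exp (b * x) := by linarith
  have h9 : b * x ≤ Real.exp (b * x) := by linarith
  calc 1 + x = 1 + (b * x) * (1 / b) := by rw [← h6]
    _ ≤ Real.exp (b * x) + Real.exp (b * x) * (1 / b) :=
        add_le_add h8 (mul_le_mul_of_nonneg_right h9 (by positivity))
    _ = _ := by ring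

theorem exp_diff_le {b ξ : ℝ} (hb : 0 < b) :
    Real.exp (b * |1 + ξ|) ≤ Real.exp (2 * b) * Real.exp (-(b * |ξ|)) *
      Real.exp (b * |1 + 2 * ξ|) := by
  rw [← Real.exp_add, ← Real.exp_add]
  apply Real.exp_le_exp.2
  have h1 : |1 + ξ| ≤ 1 + |ξ| := by
    have := abs_add_le 1 ξ
    rwa [abs_one] at this
  have h2 : 2 * |ξ| - 1 ≤ |1 + 2 * ξ| := by
    have := abs_sub_abs_le_abs_sub (2 * ξ) (-1)
    rw [abs_mul, abs_two, abs_neg, abs_one] at this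
    have e : 2 * ξ - -1 = 1 + 2 * ξ := by ring
    rwa [e] at this
  nlinarith

theorem tsum_ck_le {b : ℝ} (hb : 0 < b) :
    Summable (fun k : ℕ => ((k.factorial : ℝ))⁻¹ * (2 + 2 * b * k)) ∧
    ∑' k : ℕ, ((k.factorial : ℝ))⁻¹ * (2 + 2 * b * k) ≤ 6 + 6 * b := by
  have hs := summable_inv_factorial
  have hk : ∀ k : ℕ, (((k + 1).factorial : ℝ))⁻¹ * ((k + 1 : ℕ) : ℝ) = ((k.factorial : ℝ))⁻¹ := by
    intro k
    rw [Nat.factorial_succ]
    push_cast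
    have : (0 : ℝ) < k.factorial := by positivity
    field_simp
  have hs2 : Summable fun k : ℕ => ((k.factorial : ℝ))⁻¹ * (k : ℝ) := by
    rw [← summable_nat_add_iff 1]
    simp_rw [hk]
    exact hs
  have hsum2 : ∑' k : ℕ, ((k.factorial : ℝ))⁻¹ * (k : ℝ) ≤ 3 := by
    rw [hs2.tsum_eq_zero_add]
    simp_rw [hk]
    simpa using tsum_inv_factorial_le
  have e : (fun k : ℕ => ((k.factorial : ℝ))⁻¹ * (2 + 2 * b * k)) =
      fun k : ℕ => ((k.factorial : ℝ))⁻¹ * 2 + ((k.factorial : ℝ))⁻¹ * (k : ℝ) * (2 * b) := by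
    funext k
    ring
  rw [e]
  refine ⟨(hs.mul_right 2).add (hs2.mul_right _), ?_⟩
  rw [(hs.mul_right 2).tsum_add (hs2.mul_right _), tsum_mul_right, tsum_mul_right]
  have := tsum_inv_factorial_le
  nlinarith

/-- The integral part of `M_N(σ + k)`. -/
noncomputable def IN (q : ℝ) (Ψ : ℂ → ℂ) (γ : ℕ → ℂ) (N : ℕ) (s : ℂ) : ℂ :=
  ∫ x in Iic q, Psub Ψ γ N (x : ℝ) * Complex.exp (s * (x : ℂ))

/-- The rational part. -/
noncomputable def GN (q : ℝ) (γ : ℕ → ℂ) (N : ℕ) (s : ℂ) : ℂ :=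
  ∑ j ∈ Finset.range N, γ j * (Complex.exp ((s + j + 1) * q) / (s + j + 1))

/-- `s_N`. -/
noncomputable def sN (q : ℝ) (γ : ℕ → ℂ) (N : ℕ) : ℝ :=
  1 + ∑ j ∈ Finset.range N, ‖γ j‖ * Real.exp ((j + 1) * q)

theorem norm_GN_le {q κ R : ℝ} (hq : q ≤ 0) (hκ : 0 < κ) {γ : ℕ → ℂ} {N : ℕ} (h1 : N + κ ≤ R)
    (h2 : R ≤ N + 1 - κ) {σ : ℂ} (hσ : σ.re = -R) (k : ℕ) :
    ‖GN q γ N (σ + k)‖ ≤ (1 / κ + 1) * Real.exp (-R * q) * sN q γ N / (1 + |σ.im|) := by
  unfold GN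
  refine (norm_sum_le _ _).trans ?_
  have hterm : ∀ j ∈ Finset.range N, ‖γ j * (Complex.exp ((σ + k + j + 1) * q) /
      (σ + k + j + 1))‖ ≤ (‖γ j‖ * Real.exp ((j + 1) * q)) *
        ((1 / κ + 1) * Real.exp (-R * q) / (1 + |σ.im|)) := by
    intro j _
    have e0 : σ + k + j + 1 = σ + ((k + j + 1 : ℕ) : ℂ) := by push_cast; ring
    have h3 := inv_norm_le hκ hσ (dist_nat h1 h2 (k + j + 1))
    rw [e0, norm_mul, norm_div, div_eq_mul_one_div, Complex.norm_exp]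
    have e1 : ((σ + ((k + j + 1 : ℕ) : ℂ)) * (q : ℂ)).re = (j + 1) * q + (-R) * q + k * q := by
      simp [hσ]
      ring
    rw [e1, Real.exp_add, Real.exp_add]
    have h4 : Real.exp (k * q) ≤ 1 := by
      rw [Real.exp_le_one_iff]
      exact mul_nonpos_of_nonneg_of_nonpos (by positivity) hq
    have h5 : 0 < Real.exp ((j + 1) * q) := Real.exp_pos _
    have h6 : 0 < Real.exp (-R * q) := Real.exp_pos _
    calc ‖γ j‖ * (Real.exp ((j + 1) * q) * Real.exp (-R * q) * Real.exp (k * q) *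
          (1 / ‖σ + ((k + j + 1 : ℕ) : ℂ)‖))
        ≤ ‖γ j‖ * (Real.exp ((j + 1) * q) * Real.exp (-R * q) * 1 *
          ((1 / κ + 1) / (1 + |σ.im|))) := by
          gcongr
      _ = _ := by ring
  refine (Finset.sum_le_sum hterm).trans ?_
  rw [← Finset.sum_mul]
  have h7 : ∑ j ∈ Finset.range N, ‖γ j‖ * Real.exp ((j + 1) * q) ≤ sN q γ N := by
    unfold sN
    linarith
  calc _ ≤ sN q γ N * ((1 / κ + 1) * Real.exp (-R * q) / (1 + |σ.im|)) :=
        mul_le_mul_of_nonneg_right h7 (by positivity)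
    _ = _ := by ring

theorem one_le_sN (q : ℝ) (γ : ℕ → ℂ) (N : ℕ) : 1 ≤ sN q γ N := by
  unfold sN
  have : 0 ≤ ∑ j ∈ Finset.range N, ‖γ j‖ * Real.exp ((j + 1) * q) :=
    Finset.sum_nonneg fun j _ => by positivity
  linarith

theorem norm_IN_le {b q : ℝ} {Ψ : ℂ → ℂ} {γ : ℕ → ℂ} (h : Data b q Ψ γ) (N : ℕ) {s : ℂ}
    (hs : -((N : ℝ) + 1) < s.re) (k : ℕ) :
    ‖IN q Ψ γ N (s + k)‖ ≤ ∫ x in Iic q, ‖Psub Ψ γ N (x : ℝ) * Complex.exp (s * (x : ℂ))‖ := by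
  have h1 := integrableOn_Psub h N hs
  unfold IN
  refine norm_integral_le_of_norm_le h1.norm ?_
  filter_upwards [self_mem_ae_restrict measurableSet_Iic] with x hx
  have e : Complex.exp ((s + k) * (x : ℂ)) = Complex.exp (s * (x : ℂ)) *
      Complex.exp (k * (x : ℂ)) := by
    rw [← Complex.exp_add]
    congr 1
    ring
  rw [e, ← mul_assoc, norm_mul]
  exact mul_le_of_le_one_right (norm_nonneg _) (norm_exp_nat_mul_le h.hq hx k)

theorem norm_Sg_le {q κ R : ℝ} (hq : q ≤ 0) (hκ : 0 < κ) {N : ℕ} (h1 : N + κ ≤ R)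
    (h2 : R ≤ N + 1 - κ) {σ : ℂ} (hσ : σ.re = -R) :
    ‖Sg q (σ + 1)‖ ≤ 3 / κ * Real.exp (-R * q) := by
  unfold Sg
  have hb : ∀ k : ℕ, ‖(ek k : ℂ) * (Complex.exp ((σ + 1 + k) * q) / (σ + 1 + k))‖ ≤
      ((k.factorial : ℝ))⁻¹ * (1 / κ * Real.exp (-R * q)) := by
    intro k
    rw [norm_mul, norm_ek, norm_div]
    apply mul_le_mul_of_nonneg_left _ (by positivity)
    have e0 : σ + 1 + k = σ + ((k + 1 : ℕ) : ℂ) := by push_cast; ring
    rw [e0, Complex.norm_exp]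
    have e1 : ((σ + ((k + 1 : ℕ) : ℂ)) * (q : ℂ)).re = (-R) * q + (k + 1) * q := by
      simp [hσ]
      ring
    have h3 : κ ≤ ‖σ + ((k + 1 : ℕ) : ℂ)‖ := by
      refine (dist_nat h1 h2 (k + 1)).trans ?_
      have := Complex.abs_re_le_norm (σ + ((k + 1 : ℕ) : ℂ))
      rw [Complex.add_re, Complex.natCast_re, hσ, neg_add_eq_sub] at this
      exact this
    rw [e1, Real.exp_add, div_le_iff₀ (lt_of_lt_of_le hκ h3)]
    have h4 : Real.exp ((k + 1) * q) ≤ 1 := by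
      rw [Real.exp_le_one_iff]
      exact mul_nonpos_of_nonneg_of_nonpos (by positivity) hq
    have h5 : 1 ≤ 1 / κ * ‖σ + ((k + 1 : ℕ) : ℂ)‖ := by
      rw [one_div, ← div_eq_inv_mul, le_div_iff₀ hκ]
      linarith
    calc Real.exp (-R * q) * Real.exp ((k + 1) * q) ≤ Real.exp (-R * q) * 1 := by
          apply mul_le_mul_of_nonneg_left h4 (Real.exp_pos _).le
      _ ≤ Real.exp (-R * q) * (1 / κ * ‖σ + ((k + 1 : ℕ) : ℂ)‖) :=
          mul_le_mul_of_nonneg_left h5 (Real.exp_pos _).le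
      _ = _ := by ring
  have hs := summable_inv_factorial.mul_right (1 / κ * Real.exp (-R * q))
  refine (tsum_of_norm_bounded hs.hasSum hb).trans ?_
  rw [tsum_mul_right]
  have := tsum_inv_factorial_le
  have h6 : 0 ≤ 1 / κ * Real.exp (-R * q) := by positivity
  calc _ ≤ 3 * (1 / κ * Real.exp (-R * q)) := mul_le_mul_of_nonneg_right this h6
    _ = _ := by ring

end Pool.Agent.Worm.B2
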