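import Mathlib
import Pool.Agent.Worm.B2.Line

/-! The estimate on the line `Re σ = -R`, continued. -/

open MeasureTheory Set Filter Topology
open scoped Real ENNReal Interval

namespace Pool.Agent.Worm.B2

theorem norm_p_le {σ : ℂ} {R : ℝ} (hR : 0 ≤ R) (hσ : σ.re = -R) :
    ‖1 - 2 * Complex.I * σ‖ ≤ 5 * ‖1 - Complex.I * σ + Complex.I‖ := by
  have h1 : 1 ≤ ‖1 - Complex.I * σ + Complex.I‖ := by
    have h2 := Complex.abs_im_le_norm (1 - Complex.I * σ + Complex.I)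
    have h3 : (1 - Complex.I * σ + Complex.I).im = R + 1 := by
      simp [hσ]
    rw [h3, abs_of_nonneg (by linarith)] at h2
    linarith
  have h4 : (1 - 2 * Complex.I * σ : ℂ) = 2 * (1 - Complex.I * σ + Complex.I) -
      (1 + 2 * Complex.I) := by ring
  rw [h4]
  have h5 : ‖(1 + 2 * Complex.I : ℂ)‖ ≤ 3 := by
    refine (norm_add_le _ _).trans ?_
    rw [norm_mul, Complex.norm_I]
    norm_num
  refine (norm_sub_le _ _).trans ?_
  rw [norm_mul]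
  have h6 : ‖(2 : ℂ)‖ = 2 := by norm_num
  rw [h6]
  linarith

theorem norm_p_le' {σ : ℂ} {R : ℝ} (hR : 0 ≤ R) (hσ : σ.re = -R) :
    ‖1 - 2 * Complex.I * σ‖ ≤ 1 + 2 * R + 2 * |σ.im| := by
  refine (norm_sub_le _ _).trans ?_
  rw [norm_mul, norm_mul, Complex.norm_I, norm_one]
  have h6 : ‖(2 : ℂ)‖ = 2 := by norm_num
  rw [h6]
  have := Complex.norm_le_abs_re_add_abs_im σ
  rw [hσ, abs_neg, abs_of_nonneg hR] at this
  linarith

/-- Bound of the term with `Lf`. -/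
theorem term_Lf {b q κ R : ℝ} (hb : 0 < b) (hq : q ≤ 0) (hκ : 0 < κ) {N : ℕ} (h1 : N + κ ≤ R)
    (h2 : R ≤ N + 1 - κ) {σ : ℂ} (hσ : σ.re = -R) :
    ‖1 - 2 * Complex.I * σ‖ * ‖Lf b (1 - Complex.I * σ + Complex.I) * Sg q (σ + 1)‖ ≤
      (20 * b * (3 / κ) * Real.exp (2 * b) * (1 + 1 / b)) * Real.exp (-R * q) *
        Real.exp (b * |1 + 2 * σ.im|) / (1 + |σ.im|) := by
  have hN : (0 : ℝ) ≤ N := by positivity
  have hR : 0 ≤ R := by linarith
  have h3 := Lf_upper hb.le (1 - Complex.I * σ + Complex.I)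
  have h4 : (1 - Complex.I * σ + Complex.I).re = 1 + σ.im := by simp
  rw [h4] at h3
  have h5 := norm_p_le hR hσ
  have h6 := norm_Sg_le hq hκ h1 h2 hσ
  have h7 := exp_diff_le (ξ := σ.im) hb
  have h8 := exp_neg_mul_le hb (abs_nonneg σ.im)
  set P' := ‖1 - Complex.I * σ + Complex.I‖
  set L := ‖Lf b (1 - Complex.I * σ + Complex.I)‖
  set W := Real.exp (b * |1 + 2 * σ.im|)
  set x := |σ.im|
  have hx : 0 ≤ x := abs_nonneg _
  have hL : 0 ≤ L := norm_nonneg _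
  have hW : 0 < W := Real.exp_pos _
  rw [norm_mul, le_div_iff₀ (by positivity)]
  have h9 : ‖1 - 2 * Complex.I * σ‖ * L ≤ 20 * b * (Real.exp (2 * b) * Real.exp (-(b * x)) * W) := by
    calc ‖1 - 2 * Complex.I * σ‖ * L ≤ 5 * P' * L := mul_le_mul_of_nonneg_right h5 hL
      _ = 5 * (P' * L) := by ring
      _ ≤ 5 * (4 * b * Real.exp (b * |1 + σ.im|)) := by linarith
      _ ≤ 5 * (4 * b * (Real.exp (2 * b) * Real.exp (-(b * x)) * W)) := by
          gcongr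
      _ = _ := by ring
  calc ‖1 - 2 * Complex.I * σ‖ * (L * ‖Sg q (σ + 1)‖) * (1 + x)
      = (‖1 - 2 * Complex.I * σ‖ * L) * ‖Sg q (σ + 1)‖ * (1 + x) := by ring
    _ ≤ (20 * b * (Real.exp (2 * b) * Real.exp (-(b * x)) * W)) *
        (3 / κ * Real.exp (-R * q)) * (1 + x) := by
        gcongr
    _ = (20 * b * (3 / κ) * Real.exp (2 * b)) * ((1 + x) * Real.exp (-(b * x))) *
        Real.exp (-R * q) * W := by ring
    _ ≤ (20 * b * (3 / κ) * Real.exp (2 * b)) * (1 + 1 / b) * Real.exp (-R * q) * W := by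
        gcongr
    _ = _ := by ring

/-- Bound of the term with `T3`. -/
theorem term_T3 {b q : ℝ} {Ψ : ℂ → ℂ} {γ : ℕ → ℂ} (h : Data b q Ψ γ) {κ : ℝ} (hκ : 0 < κ) :
    ∃ C, 0 ≤ C ∧ ∀ (R : ℝ), κ ≤ R → ∀ σ : ℂ, σ.re = -R →
      ‖1 - 2 * Complex.I * σ‖ * ‖T3 b q Ψ σ‖ ≤
        C * Real.exp (-R * q) * Real.exp (b * |1 + 2 * σ.im|) / (1 + |σ.im|) := by
  have hb := h.hb
  obtain ⟨C3, hC3, hC3'⟩ := norm_T3_le h
  refine ⟨C3 * (2 + 2 / κ) * Real.exp (2 * b) * (1 + 1 / (b / 2)) ^ 2, by positivity, ?_⟩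
  intro R hR σ hσ
  have hR0 : 0 < R := lt_of_lt_of_le hκ hR
  have h1 := hC3' σ (by rw [hσ]; linarith)
  rw [hσ, neg_neg] at h1
  have h2 := norm_p_le' hR0.le hσ
  have h7 := exp_diff_le (ξ := σ.im) hb
  have h8 := exp_neg_mul_le (b := b / 2) (by positivity) (abs_nonneg σ.im)
  set W := Real.exp (b * |1 + 2 * σ.im|)
  set x := |σ.im|
  have hx : 0 ≤ x := abs_nonneg _
  have hW : 0 < W := Real.exp_pos _
  set E := Real.exp (-R * q)
  have hE : 0 < E := Real.exp_pos _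
  have h3 : (1 + 2 * R + 2 * x) / R ≤ (2 + 2 / κ) * (1 + x) := by
    rw [div_le_iff₀ hR0]
    have h4 : 1 ≤ R / κ := by
      rw [le_div_iff₀ hκ]
      linarith
    have h5 : 2 / κ * R = 2 * (R / κ) := by ring
    have h6 : (2 + 2 / κ) * (1 + x) * R = 2 * R + 2 * x * R + 2 * (R / κ) * (1 + x) := by
      rw [← h5]; ring
    rw [h6]
    have h9 : 2 * (R / κ) * (1 + x) ≥ 2 * 1 * (1 + x) := by gcongr
    have h10 : 0 ≤ 2 * x * R := by positivity
    linarith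
  have h9 : (1 + x) * Real.exp (-(b * x)) * (1 + x) ≤ (1 + 1 / (b / 2)) ^ 2 := by
    have e : Real.exp (-(b * x)) = Real.exp (-(b / 2 * x)) * Real.exp (-(b / 2 * x)) := by
      rw [← Real.exp_add]
      congr 1
      ring
    rw [e]
    have h10 : 0 ≤ (1 + x) * Real.exp (-(b / 2 * x)) := by positivity
    calc _ = ((1 + x) * Real.exp (-(b / 2 * x))) ^ 2 := by ring
      _ ≤ _ := pow_le_pow_left₀ h10 h8 2
  rw [le_div_iff₀ (by positivity)]
  calc ‖1 - 2 * Complex.I * σ‖ * ‖T3 b q Ψ σ‖ * (1 + x)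
      ≤ (1 + 2 * R + 2 * x) * (C3 * Real.exp (b * |1 + σ.im|) * (E / R)) * (1 + x) := by
        gcongr
    _ = C3 * Real.exp (b * |1 + σ.im|) * E * ((1 + 2 * R + 2 * x) / R) * (1 + x) := by
        field_simp
    _ ≤ C3 * (Real.exp (2 * b) * Real.exp (-(b * x)) * W) * E * ((2 + 2 / κ) * (1 + x)) *
        (1 + x) := by
        gcongr
    _ = (C3 * (2 + 2 / κ) * Real.exp (2 * b)) * ((1 + x) * Real.exp (-(b * x)) * (1 + x)) *
        E * W := by ring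
    _ ≤ (C3 * (2 + 2 / κ) * Real.exp (2 * b)) * (1 + 1 / (b / 2)) ^ 2 * E * W := by
        gcongr
    _ = _ := by ring

/-- The coefficients of the absorbed series. -/
noncomputable def ck (b κ : ℝ) (k : ℕ) : ℝ :=
  (((k + 1).factorial : ℝ))⁻¹ * (2 + 2 * b * ((k + 1 : ℕ) : ℝ)) / κ

theorem line_bound {b q : ℝ} {Ψ : ℂ → ℂ} {γ : ℕ → ℂ} (h : Data b q Ψ γ) {κ : ℝ} (hκ : 0 < κ) :
    ∃ C, 0 ≤ C ∧ ∀ (N : ℕ) (R : ℝ), N + κ ≤ R → R ≤ N + 1 - κ → κ ≤ |Real.sin (2 * R * b)| →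
      ∀ σ : ℂ, σ.re = -R → σ.im ≠ 0 →
      Summable (fun k : ℕ => ck b κ k * ‖IN q Ψ γ N (σ + (k + 1 : ℕ))‖) ∧
      ‖IN q Ψ γ N σ‖ ≤ ∑' k : ℕ, ck b κ k * ‖IN q Ψ γ N (σ + (k + 1 : ℕ))‖ +
        (C * Real.exp (-R * q) * sN q γ N) / (1 + |σ.im|) := by
  have hb := h.hb
  have hq := h.hq
  obtain ⟨C2, hC2, hT2⟩ := norm_T2_le h
  obtain ⟨C3, hC3, hT3⟩ := term_T3 h hκ
  set CL : ℝ := 20 * b * (3 / κ) * Real.exp (2 * b) * (1 + 1 / b) with hCL
  have hCL0 : 0 ≤ CL := by positivity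
  refine ⟨((6 + 6 * b) * (1 / κ + 1) + CL + C2 + C3) / κ, by positivity, ?_⟩
  intro N R h1 h2 h3 σ hσ him
  have hN : (0 : ℝ) ≤ N := by positivity
  have hRκ : κ ≤ R := by linarith
  have hR0 : 0 < R := lt_of_lt_of_le hκ hRκ
  have hVN : σ ∈ VN N := ⟨by rw [hσ]; linarith, him⟩
  have hs : -((N : ℝ) + 1) < σ.re := hVN.1
  have hrr := RR_zero h N hVN
  set p : ℂ := 1 - 2 * Complex.I * σ with hp
  have hpre : p.re = 1 + 2 * σ.im := by rw [hp]; simp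
  have hpim : p.im = 2 * R := by rw [hp]; simp [hσ]
  set W : ℝ := Real.exp (b * |1 + 2 * σ.im|) with hW
  have hW0 : 0 < W := Real.exp_pos _
  set E : ℝ := Real.exp (-R * q) with hE
  have hE0 : 0 < E := Real.exp_pos _
  set A : ℝ := ∫ x in Iic q, ‖Psub Ψ γ N (x : ℝ) * Complex.exp (σ * (x : ℂ))‖ with hA
  have hIN : ∀ k : ℕ, ‖IN q Ψ γ N (σ + k)‖ ≤ A := norm_IN_le h N hs
  have hmm : ∀ k : ℕ, ‖p‖ * ‖mm b (p - Complex.I * k)‖ ≤ (2 + 2 * b * k) * W := by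
    intro k
    have := mm_upper hb.le p k
    rwa [hpre] at this
  set x : ℝ := |σ.im| with hx
  have hx0 : 0 ≤ x := abs_nonneg _
  set G : ℝ := (1 / κ + 1) * E * sN q γ N / (1 + x) with hG
  have hsN := one_le_sN q γ N
  have hG0 : 0 ≤ G := by positivity
  have hGN : ∀ k : ℕ, ‖GN q γ N (σ + k)‖ ≤ G := fun k => norm_GN_le hq hκ h1 h2 hσ k
  obtain ⟨hsck, hck⟩ := tsum_ck_le hb
  -- the two series
  set u : ℕ → ℂ := fun k => (ek k : ℂ) * (p * mm b (p - Complex.I * k) * IN q Ψ γ N (σ + k))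
    with hu
  set v : ℕ → ℂ := fun k => (ek k : ℂ) * (p * mm b (p - Complex.I * k) * GN q γ N (σ + k))
    with hv
  have hun : ∀ k, ‖u k‖ ≤ ((k.factorial : ℝ))⁻¹ * (2 + 2 * b * k) * (W * ‖IN q Ψ γ N (σ + k)‖) := by
    intro k
    rw [hu]
    simp only
    rw [norm_mul, norm_mul, norm_mul, norm_ek]
    calc _ ≤ ((k.factorial : ℝ))⁻¹ * ((2 + 2 * b * k) * W * ‖IN q Ψ γ N (σ + k)‖) :=
          mul_le_mul_of_nonneg_left (mul_le_mul_of_nonneg_right (hmm k) (norm_nonneg _))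
            (by positivity)
      _ = _ := by ring
  have hvn : ∀ k, ‖v k‖ ≤ ((k.factorial : ℝ))⁻¹ * (2 + 2 * b * k) * (W * G) := by
    intro k
    rw [hv]
    simp only
    rw [norm_mul, norm_mul, norm_mul, norm_ek]
    calc _ ≤ ((k.factorial : ℝ))⁻¹ * ((2 + 2 * b * k) * W * G) :=
          mul_le_mul_of_nonneg_left (mul_le_mul (hmm k) (hGN k) (norm_nonneg _) (by positivity))
            (by positivity)
      _ = _ := by ring
  have hA0 : 0 ≤ A := (norm_nonneg _).trans (hIN 0)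
  have hsu' : Summable fun k : ℕ => ((k.factorial : ℝ))⁻¹ * (2 + 2 * b * k) *
      (W * ‖IN q Ψ γ N (σ + k)‖) := by
    refine Summable.of_nonneg_of_le (fun k => by positivity) (fun k => ?_)
      (hsck.mul_right (W * A))
    gcongr
    exact hIN k
  have hsu : Summable u := Summable.of_norm_bounded hsu' hun
  have hsv' := hsck.mul_right (W * G)
  have hsv : Summable v := Summable.of_norm_bounded hsv' hvn
  -- the identity
  have hE1 : p * E1 b q Ψ γ N σ = (∑' k, u k) + ∑' k, v k := by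
    rw [← hsu.tsum_add hsv, E1, ← tsum_mul_left]
    apply tsum_congr
    intro k
    have : MN q Ψ γ N (σ + k) = IN q Ψ γ N (σ + k) + GN q γ N (σ + k) := rfl
    rw [this, hu, hv]
    simp only
    ring
  have hsplit : ∑' k, u k = u 0 + ∑' k, u (k + 1) := hsu.tsum_eq_zero_add
  have hu0 : u 0 = p * mm b p * IN q Ψ γ N σ := by
    rw [hu]
    simp [ek]
  have hid : u 0 = -(∑' k, u (k + 1)) - (∑' k, v k) -
      p * (Lf b (1 - Complex.I * σ + Complex.I) * Sg q (σ + 1)) - p * T2 b q Ψ σ -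
      p * T3 b q Ψ σ := by
    have h5 : p * RR b q Ψ γ N σ = 0 := by rw [hrr, mul_zero]
    unfold RR at h5
    have h6 : p * E1 b q Ψ γ N σ + p * (Lf b (1 - Complex.I * σ + Complex.I) * Sg q (σ + 1)) +
      p * T2 b q Ψ σ + p * T3 b q Ψ σ = 0 := by
      linear_combination h5
    rw [hE1, hsplit] at h6
    linear_combination h6
  -- the lower bound
  have hlow : κ * W * ‖IN q Ψ γ N σ‖ ≤ ‖u 0‖ := by
    rw [hu0, norm_mul, norm_mul]
    apply mul_le_mul_of_nonneg_right _ (norm_nonneg _)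
    have h5 := mm_lower hb.le p
    rw [hpre, hpim] at h5
    have h6 : b * (2 * R) = 2 * R * b := by ring
    rw [h6] at h5
    exact (mul_le_mul_of_nonneg_right h3 hW0.le).trans h5
  -- upper bounds
  have hU : ‖∑' k, u (k + 1)‖ ≤ ∑' k : ℕ, (((k + 1).factorial : ℝ))⁻¹ *
      (2 + 2 * b * ((k + 1 : ℕ) : ℝ)) * (W * ‖IN q Ψ γ N (σ + (k + 1 : ℕ))‖) := by
    have hs1 := (summable_nat_add_iff 1).2 hsu'
    exact tsum_of_norm_bounded hs1.hasSum fun k => hun (k + 1)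
  have hV : ‖∑' k, v k‖ ≤ (6 + 6 * b) * (W * G) := by
    refine (tsum_of_norm_bounded hsv'.hasSum hvn).trans ?_
    rw [tsum_mul_right]
    exact mul_le_mul_of_nonneg_right hck (by positivity)
  have hLf := term_Lf hb hq hκ h1 h2 hσ
  rw [← hCL, ← hE, ← hW, ← hx] at hLf
  have hT2' := hT2 σ
  rw [hσ, ← hE, ← hW, ← hx] at hT2'
  have hT3' := hT3 R hRκ σ hσ
  rw [← hE, ← hW, ← hx] at hT3'
  rw [← hp] at hLf hT2' hT3'
  -- summability of the target series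
  have hck_eq : ∀ k : ℕ, ck b κ k * ‖IN q Ψ γ N (σ + (k + 1 : ℕ))‖ =
      (((k + 1).factorial : ℝ))⁻¹ * (2 + 2 * b * ((k + 1 : ℕ) : ℝ)) *
        (W * ‖IN q Ψ γ N (σ + (k + 1 : ℕ))‖) * (κ * W)⁻¹ := by
    intro k
    unfold ck
    field_simp
  have hs1 := (summable_nat_add_iff 1).2 hsu'
  refine ⟨?_, ?_⟩
  · simp_rw [hck_eq]
    exact hs1.mul_right _
  have htot : κ * W * ‖IN q Ψ γ N σ‖ ≤ (∑' k : ℕ, (((k + 1).factorial : ℝ))⁻¹ *
      (2 + 2 * b * ((k + 1 : ℕ) : ℝ)) * (W * ‖IN q Ψ γ N (σ + (k + 1 : ℕ))‖)) +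
      (6 + 6 * b) * (W * G) + CL * E * W / (1 + x) + C2 * E * W / (1 + x) +
      C3 * E * W / (1 + x) := by
    refine hlow.trans ?_
    rw [hid]
    refine (norm_sub_le _ _).trans ?_
    refine add_le_add ((norm_sub_le _ _).trans ?_) ?_
    · refine add_le_add ((norm_sub_le _ _).trans ?_) ?_
      · refine add_le_add ((norm_sub_le _ _).trans ?_) ?_
        · rw [norm_neg]
          exact add_le_add hU hV
        · rw [norm_mul]
          exact hLf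
      · rw [norm_mul]
        exact hT2'
    · rw [norm_mul]
      exact hT3'
  have hfin : ‖IN q Ψ γ N σ‖ ≤ ((∑' k : ℕ, (((k + 1).factorial : ℝ))⁻¹ *
      (2 + 2 * b * ((k + 1 : ℕ) : ℝ)) * (W * ‖IN q Ψ γ N (σ + (k + 1 : ℕ))‖)) +
      (6 + 6 * b) * (W * G) + CL * E * W / (1 + x) + C2 * E * W / (1 + x) +
      C3 * E * W / (1 + x)) * (κ * W)⁻¹ := by
    rw [← div_eq_mul_inv, le_div_iff₀ (by positivity)]
    linarith
  refine hfin.trans ?_
  simp_rw [hck_eq]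
  rw [tsum_mul_right]
  have e1 : ((6 + 6 * b) * (W * G) + CL * E * W / (1 + x) + C2 * E * W / (1 + x) +
      C3 * E * W / (1 + x)) * (κ * W)⁻¹ ≤
      ((6 + 6 * b) * (1 / κ + 1) + CL + C2 + C3) / κ * E * sN q γ N / (1 + x) := by
    rw [hG]
    have e2 : ((6 + 6 * b) * (W * ((1 / κ + 1) * E * sN q γ N / (1 + x))) +
        CL * E * W / (1 + x) + C2 * E * W / (1 + x) + C3 * E * W / (1 + x)) * (κ * W)⁻¹ =
        ((6 + 6 * b) * (1 / κ + 1) * sN q γ N + CL + C2 + C3) / κ * E / (1 + x) := by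
      field_simp
    rw [e2]
    have e3 : (6 + 6 * b) * (1 / κ + 1) * sN q γ N + CL + C2 + C3 ≤
        ((6 + 6 * b) * (1 / κ + 1) + CL + C2 + C3) * sN q γ N := by
      nlinarith
    calc _ ≤ ((6 + 6 * b) * (1 / κ + 1) + CL + C2 + C3) * sN q γ N / κ * E / (1 + x) := by
          gcongr
      _ = _ := by ring
  calc _ = (∑' k : ℕ, (((k + 1).factorial : ℝ))⁻¹ *
      (2 + 2 * b * ((k + 1 : ℕ) : ℝ)) * (W * ‖IN q Ψ γ N (σ + (k + 1 : ℕ))‖)) * (κ * W)⁻¹ +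
      ((6 + 6 * b) * (W * G) + CL * E * W / (1 + x) + C2 * E * W / (1 + x) +
      C3 * E * W / (1 + x)) * (κ * W)⁻¹ := by ring
    _ ≤ _ := by
      apply add_le_add le_rfl e1

end Pool.Agent.Worm.B2
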