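import Mathlib
import Pool.Agent.Worm.B2.Line2
import Pool.Agent.Worm.B2.L2

/-! The `L²` estimate of `Ψ_N` on the real half line. -/

open MeasureTheory Set Filter Topology
open scoped Real ENNReal Interval FourierTransform

namespace Pool.Agent.Worm.B2

/-- `Ψ_N(x) e^{-Rx}` cut off at `q`. -/
noncomputable def aN (q : ℝ) (Ψ : ℂ → ℂ) (γ : ℕ → ℂ) (N : ℕ) (R : ℝ) : ℝ → ℂ :=
  (Iic q).indicator (fun x : ℝ => Psub Ψ γ N (x : ℝ) * (Real.exp (-R * x) : ℂ))

theorem exp_cast (R x : ℝ) : ((Real.exp (-R * x) : ℝ) : ℂ) = Complex.exp ((-R : ℝ) * (x : ℂ)) := by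
  push_cast
  rfl

theorem integrable_aN {b q : ℝ} {Ψ : ℂ → ℂ} {γ : ℕ → ℂ} (h : Data b q Ψ γ) {N : ℕ} {R : ℝ}
    (hR : R < N + 1) : Integrable (aN q Ψ γ N R) := by
  unfold aN
  rw [integrable_indicator_iff measurableSet_Iic]
  simp_rw [exp_cast]
  exact integrableOn_Psub h N (s := ((-R : ℝ) : ℂ)) (by
    rw [Complex.ofReal_re]
    linarith)

theorem bound_aN {b q : ℝ} {Ψ : ℂ → ℂ} {γ : ℕ → ℂ} (h : Data b q Ψ γ) {N : ℕ} {R : ℝ}
    (hR : R < N + 1) : ∃ K, 0 ≤ K ∧ ∀ x, ‖aN q Ψ γ N R x‖ ≤ K := by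
  have hb := h.hb
  obtain ⟨r, hr1, hr2⟩ := exists_between hR
  obtain ⟨C, hC, hC2⟩ := h.ptw N r hr2 0 hb
  refine ⟨C * Real.exp ((r - R) * q), by positivity, ?_⟩
  intro x
  unfold aN
  by_cases hx : x ∈ Iic q
  · rw [indicator_of_mem hx, norm_mul, Complex.norm_real, Real.norm_eq_abs,
      abs_of_pos (Real.exp_pos _)]
    have h1 := hC2 (x : ℂ) (by simpa using hx) (by simp)
    rw [Complex.ofReal_re] at h1
    calc _ ≤ (C * Real.exp (r * x)) * Real.exp (-R * x) :=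
          mul_le_mul_of_nonneg_right h1 (Real.exp_pos _).le
      _ = C * Real.exp ((r - R) * x) := by
          rw [mul_assoc, ← Real.exp_add]
          congr 2
          ring
      _ ≤ _ := by
          apply mul_le_mul_of_nonneg_left _ hC
          apply Real.exp_le_exp.2
          exact mul_le_mul_of_nonneg_left hx (by linarith)
  · rw [indicator_of_notMem hx, norm_zero]
    positivity

theorem memLp_aN {b q : ℝ} {Ψ : ℂ → ℂ} {γ : ℕ → ℂ} (h : Data b q Ψ γ) {N : ℕ} {R : ℝ}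
    (hR : R < N + 1) : MemLp (aN q Ψ γ N R) 2 := by
  have h1 := integrable_aN h hR
  obtain ⟨K, hK, hK2⟩ := bound_aN h hR
  rw [memLp_two_iff_integrable_sq_norm h1.aestronglyMeasurable]
  refine (h1.norm.const_mul K).mono' (h1.aestronglyMeasurable.norm.pow 2) ?_
  refine Eventually.of_forall fun x => ?_
  rw [Real.norm_eq_abs, abs_of_nonneg (by positivity), pow_two]
  exact mul_le_mul_of_nonneg_right (hK2 x) (norm_nonneg _)

theorem fourier_aN {q : ℝ} (Ψ : ℂ → ℂ) (γ : ℕ → ℂ) (N : ℕ) (R w : ℝ) {σ : ℂ}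
    (hσ : σ = ((-R : ℝ) : ℂ) + ((-2 * π * w : ℝ) : ℂ) * Complex.I) (m : ℕ) :
    𝓕 (fun x : ℝ => aN q Ψ γ N R x * (Real.exp (m * x) : ℂ)) w = IN q Ψ γ N (σ + m) := by
  rw [Real.fourier_real_eq_integral_exp_smul, IN, ← integral_indicator measurableSet_Iic]
  congr 1
  funext x
  unfold aN
  by_cases hx : x ∈ Iic q
  · rw [indicator_of_mem hx, indicator_of_mem hx, smul_eq_mul, exp_cast]
    push_cast
    have e : Complex.exp ((σ + m) * (x : ℂ)) = Complex.exp (-2 * π * x * w * Complex.I) *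
        Complex.exp (-(R : ℂ) * x) * Complex.exp (m * x) := by
      rw [← Complex.exp_add, ← Complex.exp_add, hσ]
      congr 1
      push_cast
      ring
    rw [e]
    ring
  · rw [indicator_of_notMem hx, indicator_of_notMem hx]
    simp

theorem tsum_absorb_le {b κ q : ℝ} (hb : 0 < b) (hκ : 0 < κ) (hq : q ≤ 0)
    (hq2 : Real.exp q ≤ κ / (12 * (1 + b))) :
    ∑' k : ℕ, ENNReal.ofReal (ck b κ k) * ENNReal.ofReal (Real.exp ((k + 1) * q)) ≤ 1 / 2 := by
  obtain ⟨hs, hle⟩ := tsum_ck_le hb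
  have hs1 := (summable_nat_add_iff 1).2 hs
  have hck0 : ∀ k : ℕ, 0 ≤ ck b κ k := by
    intro k
    unfold ck
    positivity
  have hterm : ∀ k : ℕ, ck b κ k * Real.exp ((k + 1) * q) ≤
      (((k + 1).factorial : ℝ))⁻¹ * (2 + 2 * b * ((k + 1 : ℕ) : ℝ)) * (Real.exp q / κ) := by
    intro k
    unfold ck
    have h1 : Real.exp ((k + 1) * q) ≤ Real.exp q := by
      apply Real.exp_le_exp.2
      have : (0 : ℝ) ≤ k := by positivity
      nlinarith
    have h2 : 0 ≤ (((k + 1).factorial : ℝ))⁻¹ * (2 + 2 * b * ((k + 1 : ℕ) : ℝ)) := by positivity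
    calc _ ≤ (((k + 1).factorial : ℝ))⁻¹ * (2 + 2 * b * ((k + 1 : ℕ) : ℝ)) / κ * Real.exp q :=
          mul_le_mul_of_nonneg_left h1 (by positivity)
      _ = _ := by ring
  have hs2 := hs1.mul_right (Real.exp q / κ)
  have hs3 : Summable fun k : ℕ => ck b κ k * Real.exp ((k + 1) * q) :=
    Summable.of_nonneg_of_le (fun k => mul_nonneg (hck0 k) (Real.exp_pos _).le) hterm hs2
  have e : ∀ k : ℕ, ENNReal.ofReal (ck b κ k) * ENNReal.ofReal (Real.exp ((k + 1) * q)) =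
      ENNReal.ofReal (ck b κ k * Real.exp ((k + 1) * q)) := fun k =>
    (ENNReal.ofReal_mul (hck0 k)).symm
  simp_rw [e]
  rw [← ENNReal.ofReal_tsum_of_nonneg (fun k => mul_nonneg (hck0 k) (Real.exp_pos _).le) hs3]
  have h1 : ∑' k : ℕ, ck b κ k * Real.exp ((k + 1) * q) ≤ 1 / 2 := by
    calc ∑' k : ℕ, ck b κ k * Real.exp ((k + 1) * q)
        ≤ ∑' k : ℕ, (((k + 1).factorial : ℝ))⁻¹ * (2 + 2 * b * ((k + 1 : ℕ) : ℝ)) *
          (Real.exp q / κ) := hs3.tsum_le_tsum hterm hs2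
      _ = (∑' k : ℕ, (((k + 1).factorial : ℝ))⁻¹ * (2 + 2 * b * ((k + 1 : ℕ) : ℝ))) *
          (Real.exp q / κ) := tsum_mul_right
      _ ≤ (6 + 6 * b) * (Real.exp q / κ) := by
          apply mul_le_mul_of_nonneg_right _ (by positivity)
          rw [hs.tsum_eq_zero_add] at hle
          have : 0 ≤ (((0 : ℕ).factorial : ℝ))⁻¹ * (2 + 2 * b * ((0 : ℕ) : ℝ)) := by positivity
          linarith
      _ ≤ (6 + 6 * b) * ((κ / (12 * (1 + b))) / κ) := by
          gcongr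
      _ = 1 / 2 := by
          field_simp
          ring
  calc ENNReal.ofReal (∑' k : ℕ, ck b κ k * Real.exp ((k + 1) * q)) ≤ ENNReal.ofReal (1 / 2) :=
        ENNReal.ofReal_le_ofReal h1
    _ = 1 / 2 := by
        rw [ENNReal.ofReal_div_of_pos (by norm_num)]
        simp

theorem nrm_aN_le {b q : ℝ} {Ψ : ℂ → ℂ} {γ : ℕ → ℂ} (h : Data b q Ψ γ) {κ : ℝ} (hκ : 0 < κ)
    (hq2 : Real.exp q ≤ κ / (12 * (1 + b))) :
    ∃ C, 0 ≤ C ∧ ∀ (N : ℕ) (R : ℝ), N + κ ≤ R → R ≤ N + 1 - κ → κ ≤ |Real.sin (2 * R * b)| →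
      nrm (fun x => ‖aN q Ψ γ N R x‖ₑ) ≤ ENNReal.ofReal (C * Real.exp (-R * q) * sN q γ N) := by
  have hb := h.hb
  have hq := h.hq
  obtain ⟨C, hC, hline⟩ := line_bound h hκ
  refine ⟨4 * C, by positivity, ?_⟩
  intro N R h1 h2 h3
  have hR : R < N + 1 := by linarith
  have hsN := one_le_sN q γ N
  set Y : ℝ := C * Real.exp (-R * q) * sN q γ N with hY
  have hY0 : 0 ≤ Y := by positivity
  have hstep := l2_step (a := aN q Ψ γ N R) (q := q) (Y := Y) (c := ck b κ) hY0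
    (tsum_absorb_le hb hκ hq hq2) (fun x hx => by
      unfold aN
      rw [indicator_of_notMem]
      exact not_le.2 hx) (integrable_aN h hR) (memLp_aN h hR) ?_
  · refine hstep.trans (le_of_eq ?_)
    congr 1
    rw [hY]
    ring
  · have hae : ∀ᵐ w : ℝ, w ≠ 0 := by
      have : ({0} : Set ℝ)ᶜ ∈ ae volume := compl_mem_ae_iff.2 (by simp)
      filter_upwards [this] with w hw
      simpa using hw
    filter_upwards [hae] with w hw
    set σ : ℂ := ((-R : ℝ) : ℂ) + ((-2 * π * w : ℝ) : ℂ) * Complex.I with hσ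
    have hre : σ.re = -R := by
      rw [hσ]
      simp
    have him : σ.im = -2 * π * w := by
      rw [hσ]
      simp
    have him0 : σ.im ≠ 0 := by
      rw [him]
      have := Real.pi_ne_zero
      positivity
    obtain ⟨hsum, hle⟩ := hline N R h1 h2 h3 σ hre him0
    have hF0 : 𝓕 (aN q Ψ γ N R) w = IN q Ψ γ N σ := by
      have := fourier_aN (q := q) Ψ γ N R w hσ 0
      simpa using this
    have hFk : ∀ k : ℕ, 𝓕 (fun x : ℝ => aN q Ψ γ N R x * (Real.exp ((k + 1) * x) : ℂ)) w =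
        IN q Ψ γ N (σ + (k + 1 : ℕ)) := by
      intro k
      have := fourier_aN (q := q) Ψ γ N R w hσ (k + 1)
      rw [← this]
      push_cast
      rfl
    simp_rw [hF0, hFk]
    have hck0 : ∀ k : ℕ, 0 ≤ ck b κ k := by
      intro k
      unfold ck
      positivity
    have e : ∀ k : ℕ, ENNReal.ofReal (ck b κ k) * ‖IN q Ψ γ N (σ + (k + 1 : ℕ))‖ₑ =
        ENNReal.ofReal (ck b κ k * ‖IN q Ψ γ N (σ + (k + 1 : ℕ))‖) := by
      intro k
      rw [ENNReal.ofReal_mul (hck0 k), ofReal_norm]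
    simp_rw [e]
    rw [← ENNReal.ofReal_tsum_of_nonneg (fun k => mul_nonneg (hck0 k) (norm_nonneg _)) hsum,
      ← ENNReal.ofReal_add (tsum_nonneg fun k => mul_nonneg (hck0 k) (norm_nonneg _))
        (by positivity), ← ofReal_norm]
    apply ENNReal.ofReal_le_ofReal
    refine hle.trans (add_le_add le_rfl ?_)
    apply div_le_div_of_nonneg_left hY0 (by positivity)
    have h4 : |w| ≤ |σ.im| := by
      rw [him, abs_mul]
      have h5 : (1 : ℝ) ≤ |-2 * π| := by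
        rw [abs_mul, abs_neg, abs_two, abs_of_pos Real.pi_pos]
        linarith [Real.pi_gt_three]
      nlinarith [abs_nonneg w]
    linarith

end Pool.Agent.Worm.B2
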