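import Mathlib
import Pool.Agent.Worm.B2.Est

/-! Geometric growth of the coefficients. -/

open MeasureTheory Set Filter Topology
open scoped Real ENNReal Interval FourierTransform

namespace Pool.Agent.Worm.B2

theorem Psub_succ (Ψ : ℂ → ℂ) (γ : ℕ → ℂ) (N : ℕ) (τ : ℂ) :
    Psub Ψ γ N τ - Psub Ψ γ (N + 1) τ = γ N * Complex.exp ((N + 1) * τ) := by
  unfold Psub
  rw [Finset.sum_range_succ]
  ring

theorem sN_succ (q : ℝ) (γ : ℕ → ℂ) (N : ℕ) :
    sN q γ (N + 1) = sN q γ N + ‖γ N‖ * Real.exp ((N + 1) * q) := by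
  unfold sN
  rw [Finset.sum_range_succ]
  ring

/-- The comparison on an interval of length one. -/
theorem gamma_le {b q : ℝ} {Ψ : ℂ → ℂ} {γ : ℕ → ℂ} (h : Data b q Ψ γ) {N : ℕ} {R R' X X' D : ℝ}
    (hR : R < N + 1) (hR' : R' < N + 2) (hRR : R ≤ R') (hD : 0 ≤ D) (hX0 : 0 ≤ X) (hX0' : 0 ≤ X')
    (hX : nrm (fun x => ‖aN q Ψ γ N R x‖ₑ) ≤ ENNReal.ofReal X)
    (hX' : nrm (fun x => ‖aN q Ψ γ (N + 1) R' x‖ₑ) ≤ ENNReal.ofReal X') :
    ‖γ N‖ * Real.exp ((N + 1 - R) * (q - D - 1)) ≤
      X + Real.exp ((R' - R) * (q - D)) * X' := by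
  have hb := h.hb
  have hq := h.hq
  set I : Set ℝ := Icc (q - D - 1) (q - D) with hI
  have hIq : ∀ x ∈ I, x ∈ Iic q := fun x hx => by
    have := hx.2
    show x ≤ q
    linarith
  have hR2 : R' < ((N + 1 : ℕ) : ℝ) + 1 := by push_cast; linarith
  have hm1 : AEMeasurable (fun x => ‖aN q Ψ γ N R x‖ₑ) volume :=
    (integrable_aN h hR).aestronglyMeasurable.enorm
  have hm2 : AEMeasurable (fun x => ‖aN q Ψ γ (N + 1) R' x‖ₑ) volume :=
    (integrable_aN h hR2).aestronglyMeasurable.enorm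
  set c : ℝ := ‖γ N‖ * Real.exp ((N + 1 - R) * (q - D - 1)) with hc
  have hc0 : 0 ≤ c := by positivity
  set e : ℝ := Real.exp ((R' - R) * (q - D)) with he
  have he0 : 0 < e := Real.exp_pos _
  have hpt : ∀ x, I.indicator (fun _ => ENNReal.ofReal c) x ≤
      ‖aN q Ψ γ N R x‖ₑ + ENNReal.ofReal e * ‖aN q Ψ γ (N + 1) R' x‖ₑ := by
    intro x
    by_cases hx : x ∈ I
    · rw [indicator_of_mem hx]
      have hxq := hIq x hx
      have e1 : aN q Ψ γ N R x - ((Real.exp ((R' - R) * x) : ℝ) : ℂ) * aN q Ψ γ (N + 1) R' x =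
          γ N * Complex.exp ((N + 1) * x) * ((Real.exp (-R * x) : ℝ) : ℂ) := by
        unfold aN
        rw [indicator_of_mem hxq, indicator_of_mem hxq, ← Psub_succ Ψ γ N (x : ℂ)]
        have e2 : Real.exp ((R' - R) * x) * Real.exp (-R' * x) = Real.exp (-R * x) := by
          rw [← Real.exp_add]
          congr 1
          ring
        rw [← e2]
        push_cast
        ring
      have e3 : c ≤ ‖γ N * Complex.exp ((N + 1) * x) * ((Real.exp (-R * x) : ℝ) : ℂ)‖ := by
        rw [norm_mul, norm_mul, Complex.norm_real, Real.norm_eq_abs, abs_of_pos (Real.exp_pos _),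
          Complex.norm_exp, mul_assoc, ← Real.exp_add, hc]
        apply mul_le_mul_of_nonneg_left _ (norm_nonneg _)
        apply Real.exp_le_exp.2
        have e4 : (((N : ℂ) + 1) * (x : ℂ)).re = (N + 1) * x := by simp
        rw [e4]
        have h5 : 0 ≤ (N : ℝ) + 1 - R := by linarith
        have := mul_le_mul_of_nonneg_left hx.1 h5
        linarith
      have e5 : ‖((Real.exp ((R' - R) * x) : ℝ) : ℂ) * aN q Ψ γ (N + 1) R' x‖ ≤
          e * ‖aN q Ψ γ (N + 1) R' x‖ := by
        rw [norm_mul, Complex.norm_real, Real.norm_eq_abs, abs_of_pos (Real.exp_pos _)]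
        apply mul_le_mul_of_nonneg_right _ (norm_nonneg _)
        apply Real.exp_le_exp.2
        apply mul_le_mul_of_nonneg_left hx.2
        linarith
      have e6 : c ≤ ‖aN q Ψ γ N R x‖ + e * ‖aN q Ψ γ (N + 1) R' x‖ := by
        rw [← e1] at e3
        exact (e3.trans (norm_sub_le _ _)).trans (add_le_add le_rfl e5)
      rw [← ofReal_norm (aN q Ψ γ N R x), ← ofReal_norm (aN q Ψ γ (N + 1) R' x),
        ← ENNReal.ofReal_mul he0.le, ← ENNReal.ofReal_add (norm_nonneg _) (by positivity)]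
      exact ENNReal.ofReal_le_ofReal e6
    · rw [indicator_of_notMem hx]
      exact bot_le
  have hlow : nrm (I.indicator (fun _ => ENNReal.ofReal c)) = ENNReal.ofReal c := by
    unfold nrm
    have e1 : ∀ x, (I.indicator (fun _ => ENNReal.ofReal c) x) ^ (2 : ℝ) =
        I.indicator (fun _ => ENNReal.ofReal c ^ (2 : ℝ)) x := by
      intro x
      by_cases hx : x ∈ I
      · rw [indicator_of_mem hx, indicator_of_mem hx]
      · rw [indicator_of_notMem hx, indicator_of_notMem hx]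
        simp
    simp_rw [e1]
    rw [lintegral_indicator measurableSet_Icc, setLIntegral_const, Real.volume_Icc]
    have e2 : q - D - (q - D - 1) = 1 := by ring
    rw [e2, ENNReal.ofReal_one, mul_one, ← ENNReal.rpow_mul]
    norm_num
  have h1 := nrm_mono_ae (Eventually.of_forall hpt : ∀ᵐ x, _)
  rw [hlow] at h1
  have h2 := h1.trans (nrm_add_le hm1 (hm2.const_mul (ENNReal.ofReal e)))
  have h3 : nrm (fun x => ENNReal.ofReal e * ‖aN q Ψ γ (N + 1) R' x‖ₑ) ≤
      ENNReal.ofReal e * nrm (fun x => ‖aN q Ψ γ (N + 1) R' x‖ₑ) := by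
    unfold nrm
    simp_rw [ENNReal.mul_rpow_of_nonneg _ _ (show (0 : ℝ) ≤ 2 by norm_num)]
    rw [lintegral_const_mul'' _ (hm2.pow_const _),
      ENNReal.mul_rpow_of_nonneg _ _ (by norm_num), ← ENNReal.rpow_mul]
    norm_num
  have h4 : ENNReal.ofReal c ≤ ENNReal.ofReal X + ENNReal.ofReal e * ENNReal.ofReal X' :=
    h2.trans (add_le_add hX (h3.trans (mul_le_mul_right hX' _)))
  rw [← ENNReal.ofReal_mul he0.le, ← ENNReal.ofReal_add hX0 (by positivity),
    ENNReal.ofReal_le_ofReal_iff (by positivity)] at h4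
  exact h4

theorem growth {b q : ℝ} {Ψ : ℂ → ℂ} {γ : ℕ → ℂ} (h : Data b q Ψ γ) {κ C : ℝ} (hκ : 0 < κ)
    (hC : 0 ≤ C) (R : ℕ → ℝ) (hR1 : ∀ N : ℕ, N + κ ≤ R N) (hR2 : ∀ N : ℕ, R N ≤ N + 1 - κ)
    (hX : ∀ N : ℕ, nrm (fun x => ‖aN q Ψ γ N (R N) x‖ₑ) ≤
      ENNReal.ofReal (C * Real.exp (-(R N) * q) * sN q γ N)) :
    ∃ Λ : ℝ, 1 ≤ Λ ∧ ∀ N, sN q γ N ≤ Λ ^ N := by
  have hq := h.hq
  set D : ℝ := (1 + Real.log (2 * C + 1)) / κ with hD
  have hlog : 0 ≤ Real.log (2 * C + 1) := Real.log_nonneg (by linarith)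
  have hD0 : 0 ≤ D := by positivity
  have hCD : C * Real.exp (1 - κ * D) ≤ 1 / 2 := by
    have e1 : 1 - κ * D = -Real.log (2 * C + 1) := by
      rw [hD]
      field_simp
      ring
    rw [e1, Real.exp_neg, Real.exp_log (by linarith), ← div_eq_mul_inv,
      div_le_iff₀ (by linarith)]
    linarith
  set Λ : ℝ := 2 + 2 * C * Real.exp (D + 1) with hΛ
  have hΛ1 : 1 ≤ Λ := by
    have : 0 ≤ 2 * C * Real.exp (D + 1) := by positivity
    linarith
  refine ⟨Λ, hΛ1, ?_⟩
  intro N
  induction N with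
  | zero => simp [sN]
  | succ N ih =>
    have hs := one_le_sN q γ N
    have hs' := one_le_sN q γ (N + 1)
    have hR1' := hR1 (N + 1)
    push_cast at hR1'
    have hR2' := hR2 (N + 1)
    push_cast at hR2'
    have h1 := gamma_le h (N := N) (R := R N) (R' := R (N + 1)) (D := D)
      (X := C * Real.exp (-(R N) * q) * sN q γ N)
      (X' := C * Real.exp (-(R (N + 1)) * q) * sN q γ (N + 1))
      (by linarith [hR2 N]) (by linarith) (by linarith [hR2 N]) hD0 (by positivity)
      (by positivity) (hX N) (hX (N + 1))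
    set g : ℝ := ‖γ N‖ * Real.exp ((N + 1) * q) with hg
    have hg0 : 0 ≤ g := by positivity
    have hg' : g = ‖γ N‖ * Real.exp ((N + 1 - R N) * (q - D - 1)) *
        (Real.exp (R N * q) * Real.exp ((N + 1 - R N) * (D + 1))) := by
      rw [hg, mul_assoc, ← Real.exp_add, ← Real.exp_add]
      congr 2
      ring
    have hf0 : 0 ≤ Real.exp (R N * q) * Real.exp ((N + 1 - R N) * (D + 1)) := by positivity
    have h2 := mul_le_mul_of_nonneg_right h1 hf0
    rw [← hg'] at h2
    have e1 : (C * Real.exp (-(R N) * q) * sN q γ N +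
        Real.exp ((R (N + 1) - R N) * (q - D)) *
          (C * Real.exp (-(R (N + 1)) * q) * sN q γ (N + 1))) *
        (Real.exp (R N * q) * Real.exp ((N + 1 - R N) * (D + 1))) =
        C * sN q γ N * Real.exp ((N + 1 - R N) * (D + 1)) +
        C * sN q γ (N + 1) * Real.exp ((N + 1 - R N) + D * (N + 1 - R (N + 1))) := by
      have a1 : Real.exp (-(R N) * q) * Real.exp (R N * q) = 1 := by
        rw [← Real.exp_add, ← Real.exp_zero]
        congr 1
        ring
      have a2 : Real.exp ((R (N + 1) - R N) * (q - D)) * Real.exp (-(R (N + 1)) * q) *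
          Real.exp (R N * q) * Real.exp ((N + 1 - R N) * (D + 1)) =
          Real.exp ((N + 1 - R N) + D * (N + 1 - R (N + 1))) := by
        rw [← Real.exp_add, ← Real.exp_add, ← Real.exp_add]
        congr 1
        ring
      rw [← a2]
      linear_combination (C * sN q γ N * Real.exp ((N + 1 - R N) * (D + 1))) * a1
    rw [e1] at h2
    have b1 : Real.exp ((N + 1 - R N) * (D + 1)) ≤ Real.exp (D + 1) := by
      apply Real.exp_le_exp.2
      have := hR1 N
      nlinarith
    have b2 : Real.exp ((N + 1 - R N) + D * (N + 1 - R (N + 1))) ≤ Real.exp (1 - κ * D) := by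
      apply Real.exp_le_exp.2
      have := hR1 N
      nlinarith
    have h3 : g ≤ C * sN q γ N * Real.exp (D + 1) + C * sN q γ (N + 1) * Real.exp (1 - κ * D) := by
      refine h2.trans ?_
      gcongr
    have h4 : C * sN q γ (N + 1) * Real.exp (1 - κ * D) ≤ 1 / 2 * sN q γ (N + 1) := by
      calc _ = (C * Real.exp (1 - κ * D)) * sN q γ (N + 1) := by ring
        _ ≤ _ := mul_le_mul_of_nonneg_right hCD (by linarith)
    have h5 := sN_succ q γ N
    rw [← hg] at h5
    have h6 : g ≤ (1 + 2 * C * Real.exp (D + 1)) * sN q γ N := by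
      rw [h5] at h4
      nlinarith
    calc sN q γ (N + 1) = sN q γ N + g := h5
      _ ≤ Λ * sN q γ N := by
          rw [hΛ]
          linarith
      _ ≤ Λ * Λ ^ N := mul_le_mul_of_nonneg_left ih (by linarith)
      _ = Λ ^ (N + 1) := by ring

end Pool.Agent.Worm.B2
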