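import Mathlib
import Pool.Agent.Worm.B2.Growth

/-! Convergence of the expansion and periodicity. -/

open MeasureTheory Set Filter Topology
open scoped Real ENNReal Interval FourierTransform

namespace Pool.Agent.Worm.B2

/-- The sum of the expansion. -/
noncomputable def SS (γ : ℕ → ℂ) (τ : ℂ) : ℂ := ∑' j : ℕ, γ j * Complex.exp ((j + 1) * τ)

theorem term_le {q Λ : ℝ} (hΛ : 1 ≤ Λ) {γ : ℕ → ℂ} (hs : ∀ N, sN q γ N ≤ Λ ^ N) (j : ℕ) {τ : ℂ}
    (hτ : τ.re ≤ q - Real.log (2 * Λ)) :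
    ‖γ j * Complex.exp ((j + 1) * τ)‖ ≤ (1 / 2) ^ (j + 1) := by
  have hΛ0 : 0 < Λ := by linarith
  have h1 : ‖γ j‖ * Real.exp ((j + 1) * q) ≤ Λ ^ (j + 1) := by
    have h2 := hs (j + 1)
    rw [sN_succ] at h2
    have := one_le_sN q γ j
    linarith
  rw [norm_mul, Complex.norm_exp]
  have e1 : (((j : ℂ) + 1) * τ).re = (j + 1) * q + (j + 1) * (τ.re - q) := by
    simp
    ring
  rw [e1, Real.exp_add, ← mul_assoc]
  have h3 : Real.exp ((j + 1) * (τ.re - q)) ≤ ((2 * Λ)⁻¹) ^ (j + 1) := by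
    have h4 : Real.exp (τ.re - q) ≤ (2 * Λ)⁻¹ := by
      rw [← Real.exp_log (show 0 < 2 * Λ by positivity), ← Real.exp_neg]
      apply Real.exp_le_exp.2
      linarith
    have e2 : ((j : ℝ) + 1) * (τ.re - q) = ((j + 1 : ℕ) : ℝ) * (τ.re - q) := by push_cast; ring
    rw [e2, Real.exp_nat_mul]
    exact pow_le_pow_left₀ (Real.exp_pos _).le h4 _
  calc _ ≤ Λ ^ (j + 1) * ((2 * Λ)⁻¹) ^ (j + 1) := by
        apply mul_le_mul h1 h3 (Real.exp_pos _).le (by positivity)
    _ = (1 / 2) ^ (j + 1) := by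
        rw [← mul_pow]
        congr 1
        field_simp

theorem summable_half : Summable fun j : ℕ => ((1 : ℝ) / 2) ^ (j + 1) := by
  have := summable_geometric_two
  exact (summable_nat_add_iff 1).2 this

theorem differentiableOn_SS {q Λ : ℝ} (hΛ : 1 ≤ Λ) {γ : ℕ → ℂ} (hs : ∀ N, sN q γ N ≤ Λ ^ N) :
    DifferentiableOn ℂ (SS γ) {τ | τ.re < q - Real.log (2 * Λ)} := by
  unfold SS
  apply Complex.differentiableOn_tsum_of_summable_norm summable_half
  · intro j
    apply Differentiable.differentiableOn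
    fun_prop
  · exact isOpen_lt Complex.continuous_re continuous_const
  · intro j τ hτ
    exact term_le hΛ hs j (le_of_lt hτ)

theorem SS_periodic (γ : ℕ → ℂ) (τ : ℂ) :
    SS γ (τ + π * Complex.I) = SS γ (τ - π * Complex.I) := by
  unfold SS
  apply tsum_congr
  intro j
  congr 1
  have e : ((j : ℂ) + 1) * (τ + π * Complex.I) = (j + 1) * (τ - π * Complex.I) +
      ((j + 1 : ℕ) : ℂ) * (2 * π * Complex.I) := by
    push_cast
    ring
  rw [e, Complex.exp_add, Complex.exp_nat_mul, Complex.exp_two_pi_mul_I, one_pow, mul_one]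

theorem nrm_half_le {b q : ℝ} {Ψ : ℂ → ℂ} {γ : ℕ → ℂ} (h : Data b q Ψ γ) {N : ℕ} {R X q2 : ℝ}
    (hR0 : 0 ≤ R) (hR : R < N + 1) (hq2 : q2 ≤ q)
    (hX : nrm (fun x => ‖aN q Ψ γ N R x‖ₑ) ≤ ENNReal.ofReal X) :
    nrm ((Iic q2).indicator fun x => ‖Psub Ψ γ N (x : ℝ)‖ₑ) ≤
      ENNReal.ofReal (Real.exp (R * q2)) * ENNReal.ofReal X := by
  have hpt : ∀ x, (Iic q2).indicator (fun x => ‖Psub Ψ γ N (x : ℝ)‖ₑ) x ≤
      ENNReal.ofReal (Real.exp (R * q2)) * ‖aN q Ψ γ N R x‖ₑ := by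
    intro x
    by_cases hx : x ∈ Iic q2
    · rw [indicator_of_mem hx]
      have hxq : x ∈ Iic q := le_trans hx hq2
      unfold aN
      rw [indicator_of_mem hxq, ← ofReal_norm, ← ofReal_norm, ← ENNReal.ofReal_mul
        (Real.exp_pos _).le]
      apply ENNReal.ofReal_le_ofReal
      rw [norm_mul, Complex.norm_real, Real.norm_eq_abs, abs_of_pos (Real.exp_pos _)]
      have h1 : 1 ≤ Real.exp (R * q2) * Real.exp (-R * x) := by
        rw [← Real.exp_add, ← Real.exp_zero]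
        apply Real.exp_le_exp.2
        have := mul_le_mul_of_nonneg_left (show x ≤ q2 from hx) hR0
        linarith
      calc ‖Psub Ψ γ N (x : ℝ)‖ = ‖Psub Ψ γ N (x : ℝ)‖ * 1 := (mul_one _).symm
        _ ≤ ‖Psub Ψ γ N (x : ℝ)‖ * (Real.exp (R * q2) * Real.exp (-R * x)) :=
            mul_le_mul_of_nonneg_left h1 (norm_nonneg _)
        _ = _ := by ring
    · rw [indicator_of_notMem hx]
      exact bot_le
  have h1 := nrm_mono_ae (Eventually.of_forall hpt : ∀ᵐ x, _)
  refine h1.trans ?_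
  have hm2 : AEMeasurable (fun x => ‖aN q Ψ γ N R x‖ₑ) volume :=
    (integrable_aN h hR).aestronglyMeasurable.enorm
  have h3 : nrm (fun x => ENNReal.ofReal (Real.exp (R * q2)) * ‖aN q Ψ γ N R x‖ₑ) ≤
      ENNReal.ofReal (Real.exp (R * q2)) * nrm (fun x => ‖aN q Ψ γ N R x‖ₑ) := by
    unfold nrm
    simp_rw [ENNReal.mul_rpow_of_nonneg _ _ (show (0 : ℝ) ≤ 2 by norm_num)]
    rw [lintegral_const_mul'' _ (hm2.pow_const _),
      ENNReal.mul_rpow_of_nonneg _ _ (by norm_num), ← ENNReal.rpow_mul]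
    norm_num
  exact h3.trans (mul_le_mul_right hX _)

theorem continuous_Psub_real {b q : ℝ} {Ψ : ℂ → ℂ} {γ : ℕ → ℂ} (h : Data b q Ψ γ) (N : ℕ) :
    Continuous fun x : ℝ => Psub Ψ γ N (x : ℝ) := by
  refine (differentiableOn_Psub h.hol γ N).continuousOn.comp_continuous (by fun_prop) ?_
  intro x
  show |((x : ℝ) : ℂ).im| < b
  rw [Complex.ofReal_im, abs_zero]
  exact h.hb

/-- `Ψ = ∑ γ_j e^{(j+1)x}` on the real half line. -/
theorem eq_SS_real {b q : ℝ} {Ψ : ℂ → ℂ} {γ : ℕ → ℂ} (h : Data b q Ψ γ) {κ C Λ : ℝ} (hκ : 0 < κ)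
    (hC : 0 ≤ C) (hΛ : 1 ≤ Λ) (R : ℕ → ℝ) (hR1 : ∀ N : ℕ, N + κ ≤ R N)
    (hR2 : ∀ N : ℕ, R N ≤ N + 1 - κ)
    (hX : ∀ N : ℕ, nrm (fun x => ‖aN q Ψ γ N (R N) x‖ₑ) ≤
      ENNReal.ofReal (C * Real.exp (-(R N) * q) * sN q γ N))
    (hs : ∀ N, sN q γ N ≤ Λ ^ N) {x : ℝ} (hx : x < q - Real.log (2 * Λ)) :
    Ψ (x : ℝ) = SS γ (x : ℝ) := by
  have hΛ0 : 0 < Λ := by linarith
  set q2 : ℝ := q - Real.log (2 * Λ) with hq2
  have hlog : 0 ≤ Real.log (2 * Λ) := Real.log_nonneg (by linarith)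
  have hq2q : q2 ≤ q := by linarith
  -- the norms tend to zero
  have hb1 : ∀ N : ℕ, nrm ((Iic q2).indicator fun x => ‖Psub Ψ γ N (x : ℝ)‖ₑ) ≤
      ENNReal.ofReal (C * (1 / 2) ^ N) := by
    intro N
    have hN : (0 : ℝ) ≤ N := by positivity
    have h1 := hR1 N
    have h2 := hR2 N
    refine (nrm_half_le h (by linarith) (by linarith) hq2q (hX N)).trans ?_
    rw [← ENNReal.ofReal_mul (Real.exp_pos _).le]
    apply ENNReal.ofReal_le_ofReal
    have e1 : Real.exp (R N * q2) * Real.exp (-(R N) * q) = Real.exp (-(R N) * Real.log (2 * Λ)) := by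
      rw [← Real.exp_add]
      congr 1
      rw [hq2]
      ring
    have h3 : Real.exp (-(R N) * Real.log (2 * Λ)) ≤ ((2 * Λ)⁻¹) ^ N := by
      have e2 : ((2 * Λ)⁻¹) ^ N = Real.exp ((N : ℝ) * (-Real.log (2 * Λ))) := by
        rw [Real.exp_nat_mul, Real.exp_neg, Real.exp_log (by positivity)]
      rw [e2]
      apply Real.exp_le_exp.2
      nlinarith
    have hs1 := one_le_sN q γ N
    calc Real.exp (R N * q2) * (C * Real.exp (-(R N) * q) * sN q γ N)
        = C * (Real.exp (R N * q2) * Real.exp (-(R N) * q)) * sN q γ N := by ring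
      _ = C * Real.exp (-(R N) * Real.log (2 * Λ)) * sN q γ N := by rw [e1]
      _ ≤ C * ((2 * Λ)⁻¹) ^ N * Λ ^ N := by
          gcongr
          exact hs N
      _ = C * (1 / 2) ^ N := by
          rw [mul_assoc, ← mul_pow]
          congr 2
          field_simp
  -- the pointwise limit
  have hlim : ∀ y : ℝ, y ≤ q2 → Tendsto (fun N => Psub Ψ γ N (y : ℝ)) atTop
      (𝓝 (Ψ (y : ℝ) - SS γ (y : ℝ))) := by
    intro y hy
    have hsum : Summable fun j : ℕ => γ j * Complex.exp ((j + 1) * (y : ℂ)) :=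
      Summable.of_norm_bounded summable_half fun j => term_le hΛ hs j (by
        rw [Complex.ofReal_re]
        exact hy)
    exact tendsto_const_nhds.sub hsum.hasSum.tendsto_sum_nat
  set f : ℝ → ℂ := fun y => Ψ (y : ℝ) - SS γ (y : ℝ) with hf
  have hfat : ∫⁻ y in Iio q2, ‖f y‖ₑ ^ (2 : ℝ) = 0 := by
    have h1 : ∫⁻ y in Iio q2, ‖f y‖ₑ ^ (2 : ℝ) ≤
        ∫⁻ y in Iio q2, liminf (fun N => ‖Psub Ψ γ N (y : ℝ)‖ₑ ^ (2 : ℝ)) atTop := by
      apply setLIntegral_mono_ae' measurableSet_Iio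
      refine Eventually.of_forall fun y hy => ?_
      have h2 : Tendsto (fun N => ‖Psub Ψ γ N (y : ℝ)‖ₑ ^ (2 : ℝ)) atTop
          (𝓝 (‖f y‖ₑ ^ (2 : ℝ))) :=
        ((ENNReal.continuous_rpow_const (y := (2 : ℝ))).tendsto _).comp
          ((hlim y (le_of_lt hy)).enorm)
      rw [h2.liminf_eq]
    have h3 : ∫⁻ y in Iio q2, liminf (fun N => ‖Psub Ψ γ N (y : ℝ)‖ₑ ^ (2 : ℝ)) atTop ≤
        liminf (fun N => ∫⁻ y in Iio q2, ‖Psub Ψ γ N (y : ℝ)‖ₑ ^ (2 : ℝ)) atTop := by
      apply lintegral_liminf_le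
      intro N
      have := (continuous_Psub_real h N).measurable
      fun_prop
    have h4 : ∀ N : ℕ, ∫⁻ y in Iio q2, ‖Psub Ψ γ N (y : ℝ)‖ₑ ^ (2 : ℝ) ≤
        ENNReal.ofReal (C * (1 / 2) ^ N) ^ (2 : ℝ) := by
      intro N
      have h5 := hb1 N
      unfold nrm at h5
      have e1 : ∀ x, ((Iic q2).indicator (fun x => ‖Psub Ψ γ N (x : ℝ)‖ₑ) x) ^ (2 : ℝ) =
          (Iic q2).indicator (fun x => ‖Psub Ψ γ N (x : ℝ)‖ₑ ^ (2 : ℝ)) x := by
        intro x
        by_cases hx : x ∈ Iic q2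
        · rw [indicator_of_mem hx, indicator_of_mem hx]
        · rw [indicator_of_notMem hx, indicator_of_notMem hx]
          simp
      simp_rw [e1] at h5
      rw [lintegral_indicator measurableSet_Iic] at h5
      have h6 := ENNReal.rpow_le_rpow h5 (show (0 : ℝ) ≤ 2 by norm_num)
      rw [← ENNReal.rpow_mul] at h6
      norm_num at h6
      refine (lintegral_mono_set Iio_subset_Iic_self).trans ?_
      simpa using h6
    have h7 : Tendsto (fun N : ℕ => ENNReal.ofReal (C * (1 / 2) ^ N) ^ (2 : ℝ)) atTop (𝓝 0) := by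
      have h8 : Tendsto (fun N : ℕ => C * (1 / 2 : ℝ) ^ N) atTop (𝓝 0) := by
        have := (tendsto_pow_atTop_nhds_zero_of_lt_one (r := (1 / 2 : ℝ)) (by norm_num)
          (by norm_num)).const_mul C
        simpa using this
      have h9 := ENNReal.tendsto_ofReal h8
      rw [ENNReal.ofReal_zero] at h9
      have h10 := ((ENNReal.continuous_rpow_const (y := (2 : ℝ))).tendsto 0).comp h9
      rw [ENNReal.zero_rpow_of_pos (by norm_num)] at h10
      exact h10
    have h11 : liminf (fun N => ∫⁻ y in Iio q2, ‖Psub Ψ γ N (y : ℝ)‖ₑ ^ (2 : ℝ)) atTop ≤ 0 := by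
      rw [← h7.liminf_eq]
      exact liminf_le_liminf (Eventually.of_forall h4)
    exact le_antisymm ((h1.trans h3).trans h11) bot_le
  have hfc : ContinuousOn f (Iio q2) := by
    apply ContinuousOn.sub
    · have := continuous_Psub_real h 0
      rw [Psub_zero] at this
      exact this.continuousOn
    · refine (differentiableOn_SS hΛ hs).continuousOn.comp (Continuous.continuousOn
        (by fun_prop)) ?_
      intro y hy
      show ((y : ℝ) : ℂ).re < _
      rw [Complex.ofReal_re]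
      exact hy
  have hae : f =ᵐ[volume.restrict (Iio q2)] 0 := by
    have hm : AEMeasurable (fun y => ‖f y‖ₑ ^ (2 : ℝ)) (volume.restrict (Iio q2)) :=
      ((hfc.aemeasurable measurableSet_Iio).enorm).pow_const _
    have := (lintegral_eq_zero_iff' hm).1 hfat
    filter_upwards [this] with y hy
    simpa using hy
  have := Measure.eqOn_open_of_ae_eq hae isOpen_Iio hfc continuousOn_const
  have h1 := this hx
  simp only [hf, Pi.zero_apply] at h1
  exact sub_eq_zero.1 h1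

/-- From the real half line to the strip. -/
theorem periodic_of_eq {b q2 : ℝ} {Ψ : ℂ → ℂ} {γ : ℕ → ℂ} (hb : π < b)
    (hΨ : DifferentiableOn ℂ Ψ {τ | |τ.im| < b})
    (hS : DifferentiableOn ℂ (SS γ) {τ | τ.re < q2})
    (heq : ∀ x : ℝ, x < q2 → Ψ (x : ℝ) = SS γ (x : ℝ)) :
    ∀ τ : ℂ, |τ.im| < b - π → Ψ (τ + π * Complex.I) = Ψ (τ - π * Complex.I) := by
  have hpi := Real.pi_pos
  have hstrip : ∀ c : ℝ, IsOpen {τ : ℂ | |τ.im| < c} := fun c =>
    isOpen_lt Complex.continuous_im.abs continuous_const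
  have hconv : ∀ c : ℝ, Convex ℝ {τ : ℂ | |τ.im| < c} := by
    intro c
    have : {τ : ℂ | |τ.im| < c} = Complex.imLm ⁻¹' (Ioo (-c) c) := by
      ext τ
      simp [abs_lt]
    rw [this]
    exact (convex_Ioo _ _).linear_preimage _
  have hhalf : Convex ℝ {τ : ℂ | τ.re < q2} := convex_halfSpace_re_lt q2
  have hhalfo : IsOpen {τ : ℂ | τ.re < q2} := isOpen_lt Complex.continuous_re continuous_const
  -- equality on the half strip
  have h1 : EqOn (fun τ => Ψ τ - SS γ τ) 0 ({τ : ℂ | |τ.im| < b} ∩ {τ : ℂ | τ.re < q2}) := by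
    have hana : AnalyticOnNhd ℂ (fun τ => Ψ τ - SS γ τ)
        ({τ : ℂ | |τ.im| < b} ∩ {τ : ℂ | τ.re < q2}) := by
      apply DifferentiableOn.analyticOnNhd
      · exact (hΨ.mono inter_subset_left).sub (hS.mono inter_subset_right)
      · exact (hstrip b).inter hhalfo
    have hz0 : (((q2 - 1 : ℝ)) : ℂ) ∈ ({τ : ℂ | |τ.im| < b} ∩ {τ : ℂ | τ.re < q2}) := by
      refine ⟨?_, ?_⟩
      · show |(((q2 - 1 : ℝ)) : ℂ).im| < b
        rw [Complex.ofReal_im, abs_zero]
        linarith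
      · show (((q2 - 1 : ℝ)) : ℂ).re < q2
        rw [Complex.ofReal_re]
        linarith
    refine hana.eqOn_zero_of_preconnected_of_frequently_eq_zero
      ((hconv b).inter hhalf).isPreconnected hz0 ?_
    have htend : Tendsto (fun x : ℝ => (x : ℂ)) (𝓝[≠] (q2 - 1)) (𝓝[≠] (((q2 - 1 : ℝ)) : ℂ)) := by
      apply tendsto_nhdsWithin_of_tendsto_nhds_of_eventually_within
      · exact (Complex.continuous_ofReal.tendsto _).mono_left nhdsWithin_le_nhds
      · filter_upwards [self_mem_nhdsWithin] with x hx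
        intro hc
        apply hx
        have : (x : ℂ) = ((q2 - 1 : ℝ) : ℂ) := hc
        exact_mod_cast this
    apply htend.frequently
    apply Eventually.frequently
    have : Iio q2 ∈ 𝓝[≠] (q2 - 1) := mem_nhdsWithin_of_mem_nhds (Iio_mem_nhds (by linarith))
    filter_upwards [this] with x hx
    rw [heq x hx, sub_self]
  have h2 : EqOn (fun τ => Ψ (τ + π * Complex.I) - Ψ (τ - π * Complex.I)) 0
      {τ : ℂ | |τ.im| < b - π} := by
    have hmap1 : ∀ τ : ℂ, |τ.im| < b - π → |(τ + π * Complex.I).im| < b := by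
      intro τ hτ
      have : (τ + π * Complex.I).im = τ.im + π := by simp
      rw [this]
      calc |τ.im + π| ≤ |τ.im| + |π| := abs_add_le _ _
        _ < b := by
          rw [abs_of_pos hpi]
          linarith
    have hmap2 : ∀ τ : ℂ, |τ.im| < b - π → |(τ - π * Complex.I).im| < b := by
      intro τ hτ
      have : (τ - π * Complex.I).im = τ.im + -π := by simp; ring
      rw [this]
      calc |τ.im + -π| ≤ |τ.im| + |-π| := abs_add_le _ _
        _ < b := by
          rw [abs_neg, abs_of_pos hpi]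
          linarith
    have hana : AnalyticOnNhd ℂ (fun τ => Ψ (τ + π * Complex.I) - Ψ (τ - π * Complex.I))
        {τ : ℂ | |τ.im| < b - π} := by
      apply DifferentiableOn.analyticOnNhd _ (hstrip _)
      apply DifferentiableOn.sub
      · exact hΨ.comp (Differentiable.differentiableOn (by fun_prop)) hmap1
      · exact hΨ.comp (Differentiable.differentiableOn (by fun_prop)) hmap2
    have hz0 : (((q2 - 1 : ℝ)) : ℂ) ∈ {τ : ℂ | |τ.im| < b - π} := by
      show |(((q2 - 1 : ℝ)) : ℂ).im| < b - π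
      rw [Complex.ofReal_im, abs_zero]
      linarith
    refine hana.eqOn_zero_of_preconnected_of_eventuallyEq_zero (hconv _).isPreconnected hz0 ?_
    have hn1 : {τ : ℂ | |τ.im| < b - π} ∈ 𝓝 (((q2 - 1 : ℝ)) : ℂ) := (hstrip _).mem_nhds hz0
    have hn2 : {τ : ℂ | τ.re < q2} ∈ 𝓝 (((q2 - 1 : ℝ)) : ℂ) := hhalfo.mem_nhds (by
      show (((q2 - 1 : ℝ)) : ℂ).re < q2
      rw [Complex.ofReal_re]
      linarith)
    filter_upwards [hn1, hn2] with τ h3 h4
    have h5 := h1 ⟨hmap1 τ h3, show (τ + π * Complex.I).re < q2 by simpa using h4⟩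
    have h6 := h1 ⟨hmap2 τ h3, show (τ - π * Complex.I).re < q2 by simpa using h4⟩
    simp only [Pi.zero_apply] at h5 h6 ⊢
    have h7 := SS_periodic γ τ
    linear_combination h5 - h6 + h7
  intro τ hτ
  have := h2 hτ
  simp only [Pi.zero_apply] at this
  exact sub_eq_zero.1 this

end Pool.Agent.Worm.B2
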